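import Pool.Agent.Lib.MP_72e2e6_nt.P3.N2.Spec

/-!
# MP_72e2e6_nt, theorem T3p, block N2, Dgs: the number of the places of a given degree (helper66)
-/

set_option autoImplicit false

namespace Pool.Agent.MP72P

/-- **Dgs**. The number of the places of a given degree. -/
theorem tDgs (_na : S_Na) (sml : S_Sml) (pfo : S_Pfo) (plc : S_Plc) (dgu : S_Dgu) : S_Dgs := by
  classical
  intro p hp K _ _ hK
  have hp2 : 2 ≤ p := hp.out.two_le
  obtain ⟨dg1, dg2, _, _⟩ := dgu p K hK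
  obtain ⟨v, hvn⟩ := plc p K hK
  obtain ⟨d₀, ϖ₀, hv⟩ := dg1 v hvn
  obtain ⟨_, R₀, hLF⟩ := id hv
  have v0 : 0 < v ϖ₀ := hLF.pi0
  have v1 : v ϖ₀ < 1 := hLF.pi1
  have hP : Pls (fun _ : Unit => v) :=
    ⟨fun _ => hvn, fun j j' h => absurd (Subsingleton.elim j j') h⟩
  obtain ⟨x, hxO, hx1, _⟩ := sml p K hK Unit (fun _ => v) hP () 1 1 one_pos
  have hx1 : 1 < v x := hx1
  have hx0 : x ≠ 0 := by
    rintro rfl
    rw [map_zero] at hx1
    exact absurd hx1 (by norm_num)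
  obtain ⟨n, hn⟩ := hLF.disc x hx0
  have hn0 : n ≤ 0 := by
    by_contra h
    push Not at h
    have h1 : v ϖ₀ ^ n ≤ v ϖ₀ ^ (0 : ℤ) := zpow_le_zpow_right_of_le_one₀ v0 v1.le h.le
    rw [zpow_zero, ← hn] at h1
    exact absurd hx1 (not_lt.2 h1)
  obtain ⟨e, rfl⟩ : ∃ e : ℕ, n = -(e : ℤ) := ⟨n.natAbs, by omega⟩
  refine ⟨d₀ * e + d₀, fun m J _ av d ϖ hF hd => ?_⟩
  rcases Nat.eq_zero_or_pos m with rfl | hm
  · rw [Finset.sum_eq_zero fun j _ => hd j]
    exact Nat.zero_le _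
  have hQ : 1 < p ^ m := Nat.one_lt_pow (by omega) (by omega)
  -- the function
  have hy0 : x ^ p ^ m - x ≠ 0 := by
    intro h
    have h1 : x ^ p ^ m = x := sub_eq_zero.1 h
    have h2 : v x ^ p ^ m = v x := by rw [← map_pow, h1]
    have h3 : v x ^ 1 < v x ^ p ^ m := pow_lt_pow_right₀ hx1 hQ
    rw [pow_one, h2] at h3
    exact lt_irrefl _ h3
  have hyR : x ^ p ^ m - x ∈ RR v ϖ₀ (e * p ^ m) := by
    refine ⟨(OS (fun _ : Unit => v)).sub_mem ((OS (fun _ : Unit => v)).pow_mem hxO _) hxO, ?_⟩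
    have h1 : v ϖ₀ ^ (-((e * p ^ m : ℕ) : ℤ)) = v x ^ p ^ m := by
      rw [hn, ← zpow_natCast, ← zpow_mul]
      congr 1
      push_cast
      ring
    rw [h1, sub_eq_add_neg]
    refine (hLF.na _ _).trans (max_le ?_ ?_)
    · rw [map_pow]
    · rw [AbsoluteValue.map_neg]
      calc v x = v x ^ 1 := (pow_one _).symm
        _ ≤ v x ^ p ^ m := pow_le_pow_right₀ hx1.le hQ.le
  have hyJ : ∀ j, ¬ (av j).IsEquiv v → av j (x ^ p ^ m - x) ≤ av j (ϖ j) ^ 1 := by
    intro j hj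
    obtain ⟨hjn, R, hL⟩ := hF.dg j
    rw [hd j] at hL
    have h1 : av j x ≤ 1 := hxO (av j) hjn hL.na fun _ => hj
    have h2 := hL.frob x h1
    obtain ⟨k, hk⟩ := hL.disc _ hy0
    have hk1 : 1 ≤ k := by
      by_contra h
      push Not at h
      have h3 : av j (ϖ j) ^ (0 : ℤ) ≤ av j (ϖ j) ^ k :=
        zpow_le_zpow_right_of_le_one₀ hL.pi0 hL.pi1.le (by omega)
      rw [zpow_zero, ← hk] at h3
      exact absurd h2 (not_lt.2 h3)
    rw [hk, ← zpow_natCast]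
    exact zpow_le_zpow_right_of_le_one₀ hL.pi0 hL.pi1.le (by exact_mod_cast hk1)
  -- the places which are not equivalent to `v`
  have key : ∑ j : {j // ¬ (av j).IsEquiv v}, d j.1 ≤ d₀ * (e * p ^ m) := by
    have h1 := pfo.2 p K hK v d₀ ϖ₀ hv {j // ¬ (av j).IsEquiv v} (fun j => av j.1)
      (fun j => d j.1) (fun j => ϖ j.1)
      ⟨⟨fun j => hF.pls.1 j.1, fun j j' h => hF.pls.2 j.1 j'.1 fun h' => h (Subtype.ext h')⟩,
        fun j => hF.dg j.1⟩ (fun j => j.2) (e * p ^ m) (fun _ => 1) (x ^ p ^ m - x) hy0 hyR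
      (fun j => hyJ j.1 j.2)
    simpa using h1
  have key2 : ∑ j ∈ Finset.univ.filter (fun j => (av j).IsEquiv v), d j ≤ d₀ := by
    by_cases h : ∃ j1, (av j1).IsEquiv v
    · obtain ⟨j1, hj1⟩ := h
      have h1 : Finset.univ.filter (fun j => (av j).IsEquiv v) ⊆ {j1} := by
        intro j hj
        rw [Finset.mem_filter] at hj
        rw [Finset.mem_singleton]
        by_contra hne
        exact hF.pls.2 j j1 hne (hj.2.trans hj1.symm)
      calc ∑ j ∈ Finset.univ.filter (fun j => (av j).IsEquiv v), d j ≤ ∑ j ∈ {j1}, d j :=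
            Finset.sum_le_sum_of_subset h1
        _ = d j1 := Finset.sum_singleton _ _
        _ ≤ d₀ := (dg2 (av j1) v (d j1) d₀ (ϖ j1) ϖ₀ hj1 (hF.dg j1) hv).1.le
    · push Not at h
      rw [Finset.filter_false_of_mem fun j _ => h j, Finset.sum_empty]
      exact Nat.zero_le _
  have key3 : ∑ j, d j = ∑ j ∈ Finset.univ.filter (fun j => (av j).IsEquiv v), d j +
      ∑ j : {j // ¬ (av j).IsEquiv v}, d j.1 := by
    rw [← Finset.sum_filter_add_sum_filter_not Finset.univ (fun j => (av j).IsEquiv v) d]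
    congr 1
    exact (Finset.sum_subtype _ (by simp) d)
  rw [key3]
  calc _ ≤ d₀ + d₀ * (e * p ^ m) := add_le_add key2 key
    _ ≤ d₀ * p ^ m + d₀ * (e * p ^ m) := by
        have := Nat.le_mul_of_pos_right d₀ (show 0 < p ^ m by omega)
        omega
    _ = (d₀ * e + d₀) * p ^ m := by ring

end Pool.Agent.MP72P
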