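import Pool.Agent.Lib.MP_72e2e6_nt.P3.N2.Spec

/-!
# MP_72e2e6_nt, theorem T3p, block N2, Dgu: degrees and orders are well defined (helper66)
-/

set_option autoImplicit false

namespace Pool.Agent.MP72P

variable {K : Type} [Field K]

private theorem dgu_zpow_le {x : ℝ} (hx0 : 0 < x) (hx1 : x < 1) {n : ℤ} (h : x ^ n < 1) :
    x ^ n ≤ x := by
  have h1 : 0 < n := by
    by_contra h2
    push Not at h2
    exact absurd (one_le_zpow_of_nonpos₀ hx0 hx1.le h2) (not_le.2 h)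
  calc x ^ n ≤ x ^ (1 : ℤ) := zpow_le_zpow_right_of_le_one₀ hx0 hx1.le (by omega)
    _ = x := zpow_one x

private theorem dgu_le {p Q Q' : ℕ} {v v' : AbsoluteValue K ℝ} {ϖ ϖ' : K} {R R' : Finset K}
    (h : v.IsEquiv v') (h1 : LF v p Q ϖ R) (h2 : LF v' p Q' ϖ' R') : v' ϖ ≤ v' ϖ' := by
  have h3 : v' ϖ < 1 := h.lt_one_iff.1 h1.pi1
  have h4 : ϖ ≠ 0 := by
    intro h5
    have := h1.pi0
    rw [h5, map_zero] at this
    exact lt_irrefl _ this
  obtain ⟨n, hn⟩ := h2.disc ϖ h4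
  rw [hn] at h3 ⊢
  exact dgu_zpow_le h2.pi0 h2.pi1 h3

private theorem dgu_card {p Q Q' : ℕ} {v v' : AbsoluteValue K ℝ} {ϖ ϖ' : K} {R R' : Finset K}
    (h : v.IsEquiv v') (h1 : LF v p Q ϖ R) (h2 : LF v' p Q' ϖ' R') : Q ≤ Q' := by
  rw [← h1.card, ← h2.card]
  have h3 : ∀ r ∈ R, ∃ r' ∈ R', v' (r - r') < 1 := fun r hr =>
    h2.cov r (h.le_one_iff.1 (h1.int r hr))
  choose! f hf using h3
  refine Finset.card_le_card_of_injOn f (fun r hr => (hf r hr).1) ?_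
  intro r hr r' hr' he
  by_contra hne
  have h4 := h1.sep r hr r' hr' hne
  have h5 : v' (r - r') < 1 := by
    have h6 : r - r' = (r - f r) + -(r' - f r') := by
      rw [he]
      ring
    rw [h6]
    refine lt_of_le_of_lt (h2.na _ _) (max_lt (hf r hr).2 ?_)
    rw [AbsoluteValue.map_neg]
    exact (hf r' hr').2
  rw [h.eq_one_iff] at h4
  exact absurd h4 h5.ne

private theorem dgu_tr {p Q : ℕ} {v v' : AbsoluteValue K ℝ} {ϖ : K} {R : Finset K}
    (h : v.IsEquiv v') (h1 : LF v p Q ϖ R) : LF v' p Q ϖ R where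
  na x y := by
    rcases le_total (v x) (v y) with h2 | h2
    · have h3 := h1.na x y
      rw [max_eq_right h2] at h3
      exact (h.le_iff_le.1 h3).trans (le_max_right _ _)
    · have h3 := h1.na x y
      rw [max_eq_left h2] at h3
      exact (h.le_iff_le.1 h3).trans (le_max_left _ _)
  pi0 := by
    have h2 := h1.pi0
    rw [← map_zero v, h.lt_iff_lt, map_zero] at h2
    exact h2
  pi1 := h.lt_one_iff.1 h1.pi1
  disc x hx := by
    obtain ⟨n, hn⟩ := h1.disc x hx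
    refine ⟨n, ?_⟩
    rw [← map_zpow₀, h.eq_iff_eq, map_zpow₀] at hn
    exact hn
  qp := h1.qp
  frob x hx := h.lt_one_iff.1 (h1.frob x (h.le_one_iff.2 hx))
  card := h1.card
  int r hr := h.le_one_iff.1 (h1.int r hr)
  sep r hr r' hr' hne := h.eq_one_iff.1 (h1.sep r hr r' hr' hne)
  cov x hx := by
    obtain ⟨r, hr, h2⟩ := h1.cov x (h.le_one_iff.2 hx)
    exact ⟨r, hr, h.lt_one_iff.1 h2⟩

/-- **Dgu**. Degrees and orders are well defined. -/
theorem tDgu (dsc : S_Dsc) : S_Dgu := by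
  intro p hp K _ _ hK
  have hp1 : 1 < p := hp.out.one_lt
  refine ⟨?_, ?_, ?_, ?_⟩
  · intro v hv
    obtain ⟨Q, ϖ, R, h⟩ := dsc p K hK v hv
    obtain ⟨r, hr, hQ⟩ := h.qp
    rw [hQ] at h
    exact ⟨r, ϖ, hv, R, h⟩
  · rintro v v' d d' ϖ ϖ' h ⟨hv, R, h1⟩ ⟨hv', R', h2⟩
    refine ⟨?_, ?_⟩
    · exact Nat.pow_right_injective hp1 (le_antisymm (dgu_card h h1 h2) (dgu_card h.symm h2 h1))
    · exact le_antisymm (dgu_le h h1 h2) (h.le_iff_le.1 (dgu_le h.symm h2 h1))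
  · rintro v v' d ϖ h ⟨hv, R, h1⟩
    exact ⟨h.isNontrivial_congr.1 hv, R, dgu_tr h h1⟩
  · rintro v d ϖ ⟨hv, R, h1⟩
    refine ⟨?_, h1.na⟩
    obtain ⟨r, hr, hQ⟩ := h1.qp
    have := Nat.pow_right_injective hp1 hQ
    omega

end Pool.Agent.MP72P
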