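import Pool.Agent.Lib.MP_72e2e6_nt.P3.N2.SpecB

/-!
# MP_72e2e6_nt, theorem T3p, block N2: completions of equivalent absolute values
-/

namespace Pool.Agent.MP72P

/-- **Eqv**. Equivalent absolute values have isomorphic completions. -/
theorem tEqv : S_Eqv := by
  intro K _ v v' h
  have hc : Continuous (WithAbs.congr v v' (.refl K)) := h.isEmbedding_equivWithAbs.continuous
  let φ : v.Completion →+* v'.Completion :=
    UniformSpace.Completion.mapRingHom (WithAbs.congr v v' (.refl K) : WithAbs v →+* WithAbs v')
      hc
  refine ⟨{ φ with commutes' := fun x => ?_ }⟩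
  have h1 : (algebraMap K v.Completion x) = ((WithAbs.toAbs v x : WithAbs v) : v.Completion) := rfl
  have h2 : (algebraMap K v'.Completion x) =
      ((WithAbs.toAbs v' x : WithAbs v') : v'.Completion) := rfl
  show φ (algebraMap K v.Completion x) = algebraMap K v'.Completion x
  rw [h1, h2]
  exact UniformSpace.Completion.mapRingHom_coe _ _

end Pool.Agent.MP72P
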