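import Pool.Agent.Lib.MP_72e2e6_nt.P3.N2.Spec

/-!
# MP_72e2e6_nt, theorem T3p, block N2: finite separable extensions
-/

namespace Pool.Agent.MP72P

theorem tGfl : S_Gfl := by
  intro p _ K L _ _ _ _ _ hK
  obtain ⟨F, hF1, hF2, hF3, hF4, hF5, hF6⟩ := hK
  letI : Algebra (RatFunc F) L := ((algebraMap K L).comp (algebraMap (RatFunc F) K)).toAlgebra
  haveI : IsScalarTower (RatFunc F) K L := IsScalarTower.of_algebraMap_eq fun _ => rfl
  exact ⟨F, hF1, hF2, hF3, inferInstance, FiniteDimensional.trans (RatFunc F) K L,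
    Algebra.IsSeparable.trans (RatFunc F) K L⟩

end Pool.Agent.MP72P
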