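import Pool.Agent.Lib.MP_72e2e6_nt.P3.N2.Spec

/-!
# MP_72e2e6_nt, theorem T3p, block N2: the index of balls
-/

namespace Pool.Agent.MP72P

private theorem idx_wa {K : Type} [Field K] {J : Type} [Finite J] {av : J → AbsoluteValue K ℝ}
    (h : Pls av) (t : J → K) (ε : ℝ) (hε : 0 < ε) : ∃ x : K, ∀ j, av j (x - t j) < ε := by
  have := Fintype.ofFinite J
  have hd := AbsoluteValue.denseRange_algebraMap_pi h.ntr (fun i j hij => h.inq i j hij)
  obtain ⟨x, hx⟩ := Metric.denseRange_iff.1 hd (fun j => WithAbs.toAbs (av j) (t j)) ε hε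
  refine ⟨x, fun j => ?_⟩
  have h1 := (dist_pi_lt_iff hε).1 hx j
  rw [dist_comm, dist_eq_norm] at h1
  exact h1

section

variable {p : ℕ} {K : Type} [Field K] {J : Type} {av : J → AbsoluteValue K ℝ} {d : J → ℕ}
  {ϖ : J → K}

private theorem idx_pos (h : Fml p av d ϖ) (j : J) : 0 < av j (ϖ j) ∧ av j (ϖ j) < 1 := by
  obtain ⟨_, R, hR⟩ := h.dg j
  exact ⟨hR.pi0, hR.pi1⟩

private theorem idx_na (h : Fml p av d ϖ) (j : J) : IsNonarchimedean (av j) := by
  obtain ⟨_, R, hR⟩ := h.dg j
  exact hR.na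

private theorem idx_mem (h : Fml p av d ϖ) (n : J → ℤ) (x : K) :
    x ∈ BlZ av ϖ n ↔ ∀ j, av j x ≤ av j (ϖ j) ^ n j := by
  constructor
  · intro hx j
    have h1 := hx j (idx_na h j)
    rwa [abs_of_pos (zpow_pos (idx_pos h j).1 _)] at h1
  · intro hx j _
    rw [abs_of_pos (zpow_pos (idx_pos h j).1 _)]
    exact hx j

private theorem idx_le (h : Fml p av d ϖ) (n m : J → ℤ) (hnm : ∀ j, n j ≤ m j) :
    BlZ av ϖ m ≤ BlZ av ϖ n := by
  intro x hx
  rw [idx_mem h] at hx ⊢
  exact fun j => (hx j).trans (zpow_le_zpow_right_of_le_one₀ (idx_pos h j).1 (idx_pos h j).2.le (hnm j))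

/-- A value which is smaller than `v ϖ ^ n` is at most `v ϖ ^ (n + 1)`. -/
private theorem idx_disc (h : Fml p av d ϖ) (j : J) (n : ℤ) (x : K) (hx : av j x < av j (ϖ j) ^ n) :
    av j x ≤ av j (ϖ j) ^ (n + 1) := by
  obtain ⟨_, R, hR⟩ := h.dg j
  rcases eq_or_ne x 0 with rfl | hx0
  · rw [map_zero]
    exact (zpow_pos hR.pi0 _).le
  · obtain ⟨m, hm⟩ := hR.disc x hx0
    rw [hm] at hx ⊢
    have h1 : n < m := (zpow_lt_zpow_iff_right_of_lt_one₀ hR.pi0 hR.pi1).1 hx
    exact zpow_le_zpow_right_of_le_one₀ hR.pi0 hR.pi1.le (by omega)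

private theorem idx_sub {v : AbsoluteValue K ℝ} (h : IsNonarchimedean v)
    (a b : K) : v (a - b) ≤ max (v a) (v b) := by
  rw [sub_eq_add_neg]
  refine (h a (-b)).trans ?_
  rw [AbsoluteValue.map_neg]

/-- One step. -/
private theorem idx_one [Finite J] [DecidableEq J] (h : Fml p av d ϖ) (n : J → ℤ) (i : J) :
    (BlZ av ϖ (Function.update n i (n i + 1))).relIndex (BlZ av ϖ n) = p ^ d i := by
  classical
  have hft : Fintype J := Fintype.ofFinite J
  obtain ⟨_, R, hR⟩ := h.dg i
  have hπ0 : ϖ i ≠ 0 := fun h0 => by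
    have := hR.pi0
    rw [h0, map_zero] at this
    exact lt_irrefl _ this
  -- a small bound
  obtain ⟨ε, hε, hεb⟩ : ∃ ε : ℝ, 0 < ε ∧ ∀ j, ε ≤ av j (ϖ j) ^ (n j + 1) := by
    have hne : (Finset.univ : Finset J).Nonempty := ⟨i, Finset.mem_univ i⟩
    refine ⟨Finset.univ.inf' hne fun j => av j (ϖ j) ^ (n j + 1), ?_, fun j =>
      Finset.inf'_le _ (Finset.mem_univ j)⟩
    rw [Finset.lt_inf'_iff]
    exact fun j _ => zpow_pos (idx_pos h j).1 _
  have happ : ∀ r : K, ∃ y : K, av i (y - r * ϖ i ^ n i) ≤ av i (ϖ i) ^ (n i + 1) ∧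
      ∀ j, j ≠ i → av j y ≤ av j (ϖ j) ^ (n j + 1) := by
    intro r
    obtain ⟨y, hy⟩ := idx_wa h.pls (fun j => if j = i then r * ϖ i ^ n i else 0) ε hε
    refine ⟨y, ?_, fun j hj => ?_⟩
    · have h1 := (hy i).le.trans (hεb i)
      rwa [if_pos rfl] at h1
    · have h1 := (hy j).le.trans (hεb j)
      rwa [if_neg hj, sub_zero] at h1
  choose y hy1 hy2 using happ
  have hstep : ∀ j, av j (ϖ j) ^ (n j + 1) ≤ av j (ϖ j) ^ n j := fun j =>
    zpow_le_zpow_right_of_le_one₀ (idx_pos h j).1 (idx_pos h j).2.le (by omega)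
  have hymem : ∀ r ∈ R, y r ∈ BlZ av ϖ n := by
    intro r hr
    rw [idx_mem h]
    intro j
    rcases eq_or_ne j i with rfl | hj
    · have h1 : y r = (y r - r * ϖ j ^ n j) + r * ϖ j ^ n j := by ring
      rw [h1]
      refine (hR.na _ _).trans (max_le ((hy1 r).trans (hstep j)) ?_)
      rw [map_mul, map_zpow₀]
      exact mul_le_of_le_one_left (zpow_pos hR.pi0 _).le (hR.int r hr)
    · exact (hy2 r j hj).trans (hstep j)
  let H : AddSubgroup (BlZ av ϖ n) :=
    (BlZ av ϖ (Function.update n i (n i + 1))).addSubgroupOf (BlZ av ϖ n)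
  let f : R → (BlZ av ϖ n) ⧸ H := fun r => QuotientAddGroup.mk ⟨y r.1, hymem r.1 r.2⟩
  have hmem : ∀ (a b : BlZ av ϖ n), (QuotientAddGroup.mk a : (BlZ av ϖ n) ⧸ H) =
      QuotientAddGroup.mk b ↔ av i (b.1 - a.1) ≤ av i (ϖ i) ^ (n i + 1) := by
    intro a b
    rw [QuotientAddGroup.eq, AddSubgroup.mem_addSubgroupOf, idx_mem h]
    have e1 : ((-a + b : BlZ av ϖ n) : K) = b.1 - a.1 := by
      push_cast
      ring
    rw [e1]
    constructor
    · intro h1
      have h2 := h1 i
      rwa [Function.update_self] at h2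
    · intro h1 j
      rcases eq_or_ne j i with rfl | hj
      · rwa [Function.update_self]
      · rw [Function.update_of_ne hj]
        exact (idx_mem h n _).1 (sub_mem b.2 a.2) j
  have hbij : Function.Bijective f := by
    constructor
    · intro r s hrs
      have h1 := (hmem _ _).1 hrs
      by_contra hne
      have h2 : av i (s.1 - r.1) = 1 := hR.sep s.1 s.2 r.1 r.2 fun h3 => hne (Subtype.ext h3.symm)
      have h3 : (s.1 - r.1) * ϖ i ^ n i = (y s.1 - y r.1) -
          ((y s.1 - s.1 * ϖ i ^ n i) - (y r.1 - r.1 * ϖ i ^ n i)) := by ring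
      have h4 : av i ((s.1 - r.1) * ϖ i ^ n i) ≤ av i (ϖ i) ^ (n i + 1) := by
        rw [h3]
        exact (idx_sub hR.na _ _).trans (max_le h1 ((idx_sub hR.na _ _).trans
          (max_le (hy1 _) (hy1 _))))
      rw [map_mul, h2, one_mul, map_zpow₀] at h4
      exact absurd h4 (not_le.2 (zpow_lt_zpow_right_of_lt_one₀ hR.pi0 hR.pi1 (by omega)))
    · intro q
      obtain ⟨a, rfl⟩ := QuotientAddGroup.mk_surjective q
      have h1 : av i (a.1 / ϖ i ^ n i) ≤ 1 := by
        rw [map_div₀, map_zpow₀]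
        exact (div_le_one (zpow_pos hR.pi0 _)).2 ((idx_mem h n a.1).1 a.2 i)
      obtain ⟨r, hr, hr1⟩ := hR.cov _ h1
      refine ⟨⟨r, hr⟩, ?_⟩
      rw [hmem]
      show av i (a.1 - y r) ≤ _
      have h2 : a.1 - y r = (a.1 / ϖ i ^ n i - r) * ϖ i ^ n i - (y r - r * ϖ i ^ n i) := by
        rw [sub_mul, div_mul_cancel₀ _ (zpow_ne_zero _ hπ0)]
        ring
      rw [h2]
      refine (idx_sub hR.na _ _).trans (max_le ?_ (hy1 r))
      refine idx_disc h i (n i) _ ?_
      rw [map_mul, map_zpow₀]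
      exact mul_lt_of_lt_one_left (zpow_pos hR.pi0 _) hr1
  have hc : Nat.card ((BlZ av ϖ n) ⧸ H) = p ^ d i := by
    rw [← Nat.card_eq_of_bijective f hbij, Nat.card_eq_fintype_card, Fintype.card_coe, hR.card]
  exact hc

/-- Several steps at one place. -/
private theorem idx_two [Finite J] [DecidableEq J] (h : Fml p av d ϖ) (n : J → ℤ) (i : J) (k : ℕ) :
    (BlZ av ϖ (Function.update n i (n i + k))).relIndex (BlZ av ϖ n) = p ^ (d i * k) := by
  induction k with
  | zero =>
    have e1 : Function.update n i (n i + (0 : ℕ)) = n := by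
      rw [Nat.cast_zero, add_zero, Function.update_eq_self]
    rw [e1, AddSubgroup.relIndex_self, mul_zero, pow_zero]
  | succ k ih =>
    have e1 : Function.update n i (n i + ((k + 1 : ℕ) : ℤ)) =
        Function.update (Function.update n i (n i + k)) i
          (Function.update n i (n i + k) i + 1) := by
      rw [Function.update_idem, Function.update_self]
      push_cast
      rw [add_assoc]
    rw [e1]
    have h1 := idx_one h (Function.update n i (n i + k)) i
    have hl1 : BlZ av ϖ (Function.update (Function.update n i (n i + k)) i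
        (Function.update n i (n i + k) i + 1)) ≤ BlZ av ϖ (Function.update n i (n i + k)) := by
      refine idx_le h _ _ fun j => ?_
      rcases eq_or_ne j i with rfl | hj
      · rw [Function.update_self, Function.update_self]
        omega
      · exact le_of_eq (by simp [Function.update_of_ne hj])
    have hl2 : BlZ av ϖ (Function.update n i (n i + k)) ≤ BlZ av ϖ n := by
      refine idx_le h _ _ fun j => ?_
      rcases eq_or_ne j i with rfl | hj
      · rw [Function.update_self]
        omega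
      · rw [Function.update_of_ne hj]
    rw [← AddSubgroup.relIndex_mul_relIndex _ _ _ hl1 hl2, h1, ih, ← pow_add]
    ring

/-- Steps at the places of a finite set. -/
private theorem idx_three [Finite J] [DecidableEq J] (h : Fml p av d ϖ) (n : J → ℤ) (k : J → ℕ)
    (s : Finset J) :
    (BlZ av ϖ (fun j => n j + if j ∈ s then (k j : ℤ) else 0)).relIndex (BlZ av ϖ n) =
      ∏ j ∈ s, p ^ (d j * k j) := by
  induction s using Finset.induction_on with
  | empty =>
    have e1 : (fun j => n j + if j ∈ (∅ : Finset J) then (k j : ℤ) else 0) = n := by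
      funext j
      simp
    rw [e1, AddSubgroup.relIndex_self, Finset.prod_empty]
  | insert i s hi ih =>
    set F : J → ℤ := fun j => n j + if j ∈ s then (k j : ℤ) else 0 with hF
    have e1 : (fun j => n j + if j ∈ insert i s then (k j : ℤ) else 0) =
        Function.update F i (F i + k i) := by
      funext j
      rcases eq_or_ne j i with rfl | hj
      · rw [Function.update_self, if_pos (Finset.mem_insert_self _ _), hF]
        simp [hi]
      · rw [Function.update_of_ne hj, hF]
        simp [Finset.mem_insert, hj]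
    rw [e1, Finset.prod_insert hi, ← ih]
    have hl1 : BlZ av ϖ (Function.update F i (F i + k i)) ≤ BlZ av ϖ F := by
      refine idx_le h _ _ fun j => ?_
      rcases eq_or_ne j i with rfl | hj
      · rw [Function.update_self]
        omega
      · rw [Function.update_of_ne hj]
    have hl2 : BlZ av ϖ F ≤ BlZ av ϖ n := by
      refine idx_le h _ _ fun j => ?_
      rw [hF]
      show n j ≤ n j + if j ∈ s then (k j : ℤ) else 0
      split_ifs <;> omega
    rw [← AddSubgroup.relIndex_mul_relIndex _ _ _ hl1 hl2, idx_two h F i (k i)]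

end

theorem tIdx : S_Na → S_Den → S_Idx := by
  classical
  intro _ _ p _ K _ _ J _ av d ϖ h n k
  refine ⟨idx_le h _ _ fun j => by omega, ?_⟩
  have h1 := idx_three h n k Finset.univ
  simpa using h1

end Pool.Agent.MP72P
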