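import Pool.Agent.Lib.MP_72e2e6_nt.P3.N2.Spec

/-!
# MP_72e2e6_nt, theorem T3p, block N2: Lft, the places above a completely split place
-/

set_option autoImplicit false

namespace Pool.Agent.MP72P

private theorem lft_norm {K : Type} [Field K] {v : AbsoluteValue K ℝ} (x : K) :
    ‖algebraMap K v.Completion x‖ = v x :=
  UniformSpace.Completion.norm_coe (WithAbs.toAbs v x)

private theorem lft_dense {K : Type} [Field K] {v : AbsoluteValue K ℝ} (x : v.Completion) (ε : ℝ)
    (hε : 0 < ε) : ∃ a : K, ‖x - algebraMap K v.Completion a‖ < ε := by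
  obtain ⟨b, hb⟩ := UniformSpace.Completion.denseRange_coe.exists_dist_lt x hε
  rw [dist_eq_norm] at hb
  exact ⟨WithAbs.ofAbs b, hb⟩

/-- The absolute value given by an embedding in the completion. -/
private noncomputable def lft_av {K L : Type} [Field K] [Field L] [Algebra K L]
    {v : AbsoluteValue K ℝ} (s : L →ₐ[K] v.Completion) : AbsoluteValue L ℝ where
  toFun y := ‖s y‖
  map_mul' a b := by rw [map_mul, norm_mul]
  nonneg' a := norm_nonneg _
  eq_zero' a := by rw [norm_eq_zero, map_eq_zero]
  add_le' a b := by rw [map_add]; exact norm_add_le _ _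

private theorem lft_av_apply {K L : Type} [Field K] [Field L] [Algebra K L]
    {v : AbsoluteValue K ℝ} (s : L →ₐ[K] v.Completion) (y : L) : lft_av s y = ‖s y‖ := rfl

private theorem lft_av_alg {K L : Type} [Field K] [Field L] [Algebra K L]
    {v : AbsoluteValue K ℝ} (s : L →ₐ[K] v.Completion) (x : K) :
    lft_av s (algebraMap K L x) = v x := by
  rw [lft_av_apply, AlgHom.commutes, lft_norm]

private theorem lft_near {K L : Type} [Field K] [Field L] [Algebra K L]
    {v : AbsoluteValue K ℝ} (s : L →ₐ[K] v.Completion) (y : L) (ε : ℝ) (hε : 0 < ε) :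
    ∃ x : K, lft_av s (y - algebraMap K L x) < ε := by
  obtain ⟨x, hx⟩ := lft_dense (s y) ε hε
  refine ⟨x, ?_⟩
  rw [lft_av_apply, map_sub, AlgHom.commutes]
  exact hx

/-- Embeddings with equivalent absolute values are equal. -/
private theorem lft_inj {K L : Type} [Field K] [Field L] [Algebra K L]
    {v : AbsoluteValue K ℝ} (hv : v.IsNontrivial) (s s' : L →ₐ[K] v.Completion)
    (h : (lft_av s).IsEquiv (lft_av s')) : s = s' := by
  apply AlgHom.ext
  intro y
  by_contra hne
  have hpos : 0 < ‖s y - s' y‖ := norm_pos_iff.2 (sub_ne_zero.2 hne)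
  obtain ⟨b, hb0, hb1⟩ := hv.exists_abv_lt_one
  obtain ⟨n, hn⟩ := exists_pow_lt_of_lt_one (half_pos hpos) hb1
  have ha : v (b ^ n) < ‖s y - s' y‖ / 2 := by rw [map_pow]; exact hn
  have ha0 : 0 < v (b ^ n) := v.pos (pow_ne_zero _ hb0)
  obtain ⟨x, hx⟩ := lft_near s y (v (b ^ n)) ha0
  have hx' : lft_av s' (y - algebraMap K L x) < v (b ^ n) := by
    rw [← lft_av_alg s] at hx
    have h1 := h.lt_iff_lt.1 hx
    rwa [lft_av_alg] at h1
  rw [lft_av_apply, map_sub, AlgHom.commutes] at hx hx'
  have h2 : s y - s' y = (s y - algebraMap K v.Completion x) -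
      (s' y - algebraMap K v.Completion x) := by abel
  have h3 : ‖s y - s' y‖ ≤ ‖s y - algebraMap K v.Completion x‖ +
      ‖s' y - algebraMap K v.Completion x‖ := by
    rw [h2]
    exact norm_sub_le _ _
  linarith

private theorem lft_dgv (na : S_Na) (p : ℕ) [Fact p.Prime] {K L : Type} [Field K] [Field L]
    [Algebra K L] [CharP K p] {v : AbsoluteValue K ℝ} {d : ℕ} {ϖ : K} (hv : DgV p v d ϖ)
    (s : L →ₐ[K] v.Completion) : DgV p (lft_av s) d (algebraMap K L ϖ) := by
  classical
  obtain ⟨hnt, R, hR⟩ := hv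
  have hL : CharP L p := charP_of_injective_algebraMap (algebraMap K L).injective p
  have hna := na p L (lft_av s)
  have hsub : ∀ {a b : L} {c : ℝ}, lft_av s a < c → lft_av s b < c → lft_av s (a - b) < c := by
    intro a b c ha hb
    rw [sub_eq_add_neg]
    exact (hna _ _).trans_lt (max_lt ha (by rw [AbsoluteValue.map_neg]; exact hb))
  -- elements near to an integral element
  have hnear : ∀ y : L, lft_av s y ≤ 1 → ∃ x : K, v x ≤ 1 ∧
      lft_av s (y - algebraMap K L x) < 1 := by
    intro y hy
    obtain ⟨x, hx⟩ := lft_near s y 1 one_pos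
    refine ⟨x, ?_, hx⟩
    rw [← lft_av_alg s]
    have h1 : algebraMap K L x = y + -(y - algebraMap K L x) := by ring
    rw [h1]
    exact (hna _ _).trans (max_le hy (by rw [AbsoluteValue.map_neg]; exact hx.le))
  refine ⟨?_, R.image (algebraMap K L), ?_⟩
  · obtain ⟨x, hx0, hx1⟩ := hnt
    exact ⟨algebraMap K L x, (map_ne_zero _).2 hx0, by rw [lft_av_alg]; exact hx1⟩
  · refine ⟨hna, ?_, ?_, ?_, hR.qp, ?_, ?_, ?_, ?_, ?_⟩
    · rw [lft_av_alg]
      exact hR.pi0
    · rw [lft_av_alg]
      exact hR.pi1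
    · intro y hy
      have hy0 : 0 < lft_av s y := (lft_av s).pos hy
      obtain ⟨x, hx⟩ := lft_near s y _ hy0
      have h1 : lft_av s (algebraMap K L x) = lft_av s y := by
        have h2 : algebraMap K L x = -(y - algebraMap K L x) + y := by ring
        rw [h2, hna.add_eq_right_of_lt (by rw [AbsoluteValue.map_neg]; exact hx)]
      have hx0 : x ≠ 0 := by
        rintro rfl
        rw [map_zero, map_zero] at h1
        exact hy0.ne h1
      obtain ⟨n, hn⟩ := hR.disc x hx0
      refine ⟨n, ?_⟩
      rw [← h1, lft_av_alg, lft_av_alg, hn]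
    · intro y hy
      obtain ⟨x, hx1, hx⟩ := hnear y hy
      have h1 : y ^ p ^ d - y = ((algebraMap K L (x ^ p ^ d - x)) - (y - algebraMap K L x)) -
          (-((y - algebraMap K L x) ^ p ^ d)) := by
        have h2 : y ^ p ^ d = (y - algebraMap K L x) ^ p ^ d + (algebraMap K L x) ^ p ^ d := by
          rw [← add_pow_char_pow, sub_add_cancel]
        rw [h2, map_sub, map_pow]
        ring
      rw [h1]
      refine hsub (hsub ?_ hx) ?_
      · rw [lft_av_alg]
        exact hR.frob x hx1
      · rw [AbsoluteValue.map_neg, map_pow]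
        exact pow_lt_one₀ ((lft_av s).nonneg _) hx
          (pow_ne_zero _ (Fact.out : p.Prime).ne_zero)
    · rw [Finset.card_image_of_injective _ (algebraMap K L).injective, hR.card]
    · intro r hr
      obtain ⟨r', hr', rfl⟩ := Finset.mem_image.1 hr
      rw [lft_av_alg]
      exact hR.int r' hr'
    · intro r hr t ht hrt
      obtain ⟨r', hr', rfl⟩ := Finset.mem_image.1 hr
      obtain ⟨t', ht', rfl⟩ := Finset.mem_image.1 ht
      rw [← map_sub, lft_av_alg]
      exact hR.sep r' hr' t' ht' (fun h => hrt (by rw [h]))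
    · intro y hy
      obtain ⟨x, hx1, hx⟩ := hnear y hy
      obtain ⟨r, hr, hxr⟩ := hR.cov x hx1
      refine ⟨algebraMap K L r, Finset.mem_image_of_mem _ hr, ?_⟩
      have h1 : y - algebraMap K L r = (y - algebraMap K L x) - (- algebraMap K L (x - r)) := by
        rw [map_sub]
        ring
      rw [h1]
      refine hsub hx ?_
      rw [AbsoluteValue.map_neg, lft_av_alg]
      exact hxr

/-- **Lft**. The places above a place which splits completely. -/
theorem tLft (na : S_Na) : S_Lft := by
  intro p _ K L _ _ _ _ _ _ v d ϖ hv ⟨s⟩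
  obtain e : Gal(L/K) ≃ Fin (Module.finrank K L) :=
    Finite.equivFinOfCardEq (IsGalois.card_aut_eq_finrank K L)
  refine ⟨fun i => lft_av (s.comp (e.symm i : L →ₐ[K] L)), ⟨?_, ?_⟩, ?_, ?_⟩
  · intro i
    exact (lft_dgv na p hv _).1
  · intro i j hij h
    apply hij
    have h1 := lft_inj hv.1 _ _ h
    apply e.symm.injective
    apply AlgEquiv.ext
    intro y
    have h2 := congrArg (fun f : L →ₐ[K] v.Completion => f y) h1
    exact s.injective h2
  · intro i
    ext x
    exact lft_av_alg _ x
  · intro i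
    exact lft_dgv na p hv _

end Pool.Agent.MP72P
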