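import Pool.Agent.Lib.MP_72e2e6_nt.P3.N2.Spec

/-!
# MP_72e2e6_nt, theorem T3p, block N2: Mertens' theorem, lower bound
-/

namespace Pool.Agent.MP72P

section

variable {p : ℕ} {K : Type} [Field K]

/-- Subfamilies. -/
private theorem low_sub {J J' : Type} {av : J → AbsoluteValue K ℝ} {d : J → ℕ} {ϖ : J → K}
    (h : Fml p av d ϖ) (s : J' → J) (hs : Function.Injective s) :
    Fml p (fun j => av (s j)) (fun j => d (s j)) (fun j => ϖ (s j)) :=
  ⟨⟨fun j => h.pls.ntr (s j), fun j j' hj => h.pls.inq (s j) (s j') fun h1 => hj (hs h1)⟩,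
    fun j => h.dg (s j)⟩

/-- The family with one more place. -/
private theorem low_opt {J : Type} {av : J → AbsoluteValue K ℝ} {d : J → ℕ} {ϖ : J → K}
    (h : Fml p av d ϖ) (w : AbsoluteValue K ℝ) (dw : ℕ) (ϖw : K) (hw : DgV p w dw ϖw)
    (hne : ∀ j, ¬ (av j).IsEquiv w) :
    Fml p (fun o : Option J => o.elim w av) (fun o => o.elim dw d) (fun o => o.elim ϖw ϖ) := by
  refine ⟨⟨?_, ?_⟩, ?_⟩
  · rintro (_ | j)
    · exact hw.1
    · exact h.pls.ntr j
  · rintro (_ | j) (_ | j') hj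
    · exact absurd rfl hj
    · exact fun h1 => hne j' h1.symm
    · exact fun h1 => hne j h1
    · exact h.pls.inq j j' fun h1 => hj (congrArg some h1)
  · rintro (_ | j)
    · exact hw
    · exact h.dg j

/-- Sums over the places, sorted by the degree. -/
private theorem low_fib (C₁ : ℕ)
    (hC₁ : ∀ (m : ℕ) (J : Type) [Fintype J] (av : J → AbsoluteValue K ℝ) (d : J → ℕ) (ϖ : J → K),
      Fml p av d ϖ → (∀ j, d j = m) → ∑ j, d j ≤ C₁ * p ^ m)
    {J : Type} [Fintype J] {av : J → AbsoluteValue K ℝ} {d : J → ℕ} {ϖ : J → K}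
    (h : Fml p av d ϖ) (N : ℕ) (hN : ∀ j, d j ≤ N) (φ : ℕ → ℝ) (hφ : ∀ m, 0 ≤ φ m) :
    ∑ j, (d j : ℝ) * φ (d j) ≤ ∑ m ∈ Finset.range (N + 1), ((C₁ : ℝ) * (p : ℝ) ^ m) * φ m := by
  classical
  rw [← Finset.sum_fiberwise_of_maps_to (s := Finset.univ) (t := Finset.range (N + 1)) (g := d)
    (fun j _ => Finset.mem_range.2 (Nat.lt_succ_of_le (hN j)))]
  refine Finset.sum_le_sum fun m _ => ?_
  have e1 : ∑ j ∈ Finset.univ with d j = m, (d j : ℝ) * φ (d j) =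
      ((∑ j ∈ Finset.univ with d j = m, d j : ℕ) : ℝ) * φ m := by
    rw [Nat.cast_sum, Finset.sum_mul]
    refine Finset.sum_congr rfl fun j hj => ?_
    rw [(Finset.mem_filter.1 hj).2]
  rw [e1]
  refine mul_le_mul_of_nonneg_right ?_ (hφ m)
  have e2 : ∑ j ∈ Finset.univ with d j = m, d j = ∑ j : {j // d j = m}, d j.1 :=
    Finset.sum_subtype _ (fun j => by simp) _
  rw [e2]
  exact_mod_cast hC₁ m {j // d j = m} (fun j => av j.1) (fun j => d j.1) (fun j => ϖ j.1)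
    (low_sub h Subtype.val Subtype.val_injective) (fun j => j.2)

/-- The family of all places of degree at most `N` which are not equivalent to `v`. -/
private theorem low_max (C₁ : ℕ)
    (hC₁ : ∀ (m : ℕ) (J : Type) [Fintype J] (av : J → AbsoluteValue K ℝ) (d : J → ℕ) (ϖ : J → K),
      Fml p av d ϖ → (∀ j, d j = m) → ∑ j, d j ≤ C₁ * p ^ m)
    (h1d : ∀ (w : AbsoluteValue K ℝ) (d : ℕ) (ϖ : K), DgV p w d ϖ → 1 ≤ d)
    (v : AbsoluteValue K ℝ) (N : ℕ) :
    ∃ (J : Type) (_ : Fintype J) (av : J → AbsoluteValue K ℝ) (d : J → ℕ) (ϖ : J → K),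
      Fml p av d ϖ ∧ (∀ j, d j ≤ N) ∧ (∀ j, ¬ (av j).IsEquiv v) ∧
      ∀ (w : AbsoluteValue K ℝ) (dw : ℕ) (ϖw : K), DgV p w dw ϖw → dw ≤ N → ¬ w.IsEquiv v →
        ∃ j, (av j).IsEquiv w := by
  classical
  let P : ℕ → Prop := fun m => ∃ (J : Type) (_ : Fintype J) (av : J → AbsoluteValue K ℝ)
    (d : J → ℕ) (ϖ : J → K), Fintype.card J = m ∧ Fml p av d ϖ ∧ (∀ j, d j ≤ N) ∧
      ∀ j, ¬ (av j).IsEquiv v
  let M : ℕ := ∑ m ∈ Finset.range (N + 1), C₁ * p ^ m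
  have hb : ∀ m, P m → m ≤ M := by
    rintro m ⟨J, hJ, av, d, ϖ, hc, hF, hN, _⟩
    have h1 := low_fib C₁ hC₁ hF N hN (fun _ => 1) (fun _ => zero_le_one)
    simp only [mul_one] at h1
    have h2 : (m : ℝ) ≤ ∑ j, (d j : ℝ) := by
      rw [← hc, ← Finset.card_univ, Finset.card_eq_sum_ones, Nat.cast_sum]
      refine Finset.sum_le_sum fun j _ => ?_
      exact_mod_cast h1d _ _ _ (hF.dg j)
    have h3 := h2.trans h1
    exact_mod_cast h3
  have h0 : P 0 := by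
    refine ⟨Empty, inferInstance, fun j => j.elim, fun j => j.elim, fun j => j.elim, rfl, ?_, ?_, ?_⟩
    · exact ⟨⟨fun j => j.elim, fun j => j.elim⟩, fun j => j.elim⟩
    · exact fun j => j.elim
    · exact fun j => j.elim
  have hs : P (Nat.findGreatest P M) := Nat.findGreatest_spec (Nat.zero_le _) h0
  obtain ⟨J, hJ, av, d, ϖ, hc, hF, hN, hne⟩ := hs
  refine ⟨J, hJ, av, d, ϖ, hF, hN, hne, fun w dw ϖw hw hdw hwv => ?_⟩
  by_contra hno
  push Not at hno
  have h1 : P (Nat.findGreatest P M + 1) := by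
    refine ⟨Option J, inferInstance, _, _, _, ?_, low_opt hF w dw ϖw hw hno, ?_, ?_⟩
    · rw [Fintype.card_option, hc]
    · rintro (_ | j)
      · exact hdw
      · exact hN j
    · rintro (_ | j)
      · exact hwv
      · exact hne j
  have h2 := Nat.le_findGreatest (hb _ h1) h1
  omega

/-- A number as a sum of indicators. -/
private theorem low_ind (o N : ℕ) (h : o ≤ N) :
    (o : ℝ) = ∑ k ∈ Finset.range N, if k + 1 ≤ o then (1 : ℝ) else 0 := by
  rw [Finset.sum_ite, Finset.sum_const_zero, add_zero, Finset.sum_const, nsmul_eq_mul, mul_one]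
  have e1 : (Finset.range N).filter (fun k => k + 1 ≤ o) = Finset.range o := by
    ext k
    simp only [Finset.mem_filter, Finset.mem_range]
    omega
  rw [e1, Finset.card_range]

/-- Sums of numbers as sums of cardinalities. -/
private theorem low_swp {α : Type} (s : Finset α) (o : α → ℕ) (N : ℕ)
    (h : ∀ a ∈ s, o a ≤ N) :
    ∑ a ∈ s, (o a : ℝ) = ∑ k ∈ Finset.range N, ((s.filter fun a => k + 1 ≤ o a).card : ℝ) := by
  classical
  have e1 : ∑ a ∈ s, (o a : ℝ) =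
      ∑ a ∈ s, ∑ k ∈ Finset.range N, if k + 1 ≤ o a then (1 : ℝ) else 0 :=
    Finset.sum_congr rfl fun a ha => low_ind _ _ (h a ha)
  rw [e1, Finset.sum_comm]
  refine Finset.sum_congr rfl fun k _ => ?_
  rw [Finset.sum_ite, Finset.sum_const_zero, add_zero, Finset.sum_const, nsmul_eq_mul, mul_one]

private theorem low_half (x : ℝ) (h0 : 0 ≤ x) (h1 : x ≤ 1 / 2) (n : ℕ) :
    ∑ k ∈ Finset.range n, x ^ k ≤ 2 :=
  (Finset.sum_le_sum fun k _ => pow_le_pow_left₀ h0 h1 k).trans (sum_geometric_two_le n)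

end

/-- The orders of the functions in `RR`. -/
private theorem low_key (pfo : S_Pfo) (p : ℕ) [Fact p.Prime] (K : Type) [Field K] [CharP K p]
    (hG : GFld p K) (v : AbsoluteValue K ℝ) (d₀ : ℕ) (ϖ₀ : K) (hv : DgV p v d₀ ϖ₀) (hd₀ : 1 ≤ d₀)
    (n : ℕ) (J : Type) [Fintype J] (av : J → AbsoluteValue K ℝ) (d : J → ℕ) (ϖ : J → K)
    (hF : Fml p av d ϖ) (hne : ∀ j, ¬ (av j).IsEquiv v)
    (hmax : ∀ (w : AbsoluteValue K ℝ) (dw : ℕ) (ϖw : K), DgV p w dw ϖw → dw ≤ n * d₀ →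
      ¬ w.IsEquiv v → ∃ j, (av j).IsEquiv w) (b : K) (hb0 : b ≠ 0) (hb : b ∈ RR v ϖ₀ n) :
    ∃ (s : ℕ) (o : J → ℕ), s ≤ n ∧ v b = v ϖ₀ ^ (-(s : ℤ)) ∧ (∀ j, av j b = av j (ϖ j) ^ o j) ∧
      ∑ j, d j * o j = s * d₀ := by
  classical
  obtain ⟨hv1, R₀, hR₀⟩ := id hv
  obtain ⟨m₀, hm₀⟩ := hR₀.disc b hb0
  have hdisc : ∀ j, ∃ m : ℤ, av j b = av j (ϖ j) ^ m := fun j => by
    obtain ⟨_, R, hR⟩ := hF.dg j
    exact hR.disc b hb0
  choose m hm using hdisc
  have hnn : ∀ (w : AbsoluteValue K ℝ) (dw : ℕ) (ϖw : K) (a : ℤ), DgV p w dw ϖw →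
      w b = w ϖw ^ a → ¬ w.IsEquiv v → 0 ≤ a := by
    intro w dw ϖw a hw ha hwv
    obtain ⟨hw1, R, hR⟩ := hw
    have h1 : w b ≤ 1 := hb.1 w hw1 hR.na fun _ => hwv
    rw [ha] at h1
    by_contra h2
    have h3 := one_lt_zpow_of_neg₀ hR.pi0 hR.pi1 (not_le.1 h2)
    exact absurd h3 (not_lt.2 h1)
  have hFo := low_opt hF v d₀ ϖ₀ hv hne
  obtain ⟨J', hJ', av', d', ϖ', m', hF', h1, _, h3⟩ := pfo.1 p K hG (Option J) _ _ _ hFo b
    (fun o => o.elim m₀ m) hb0 (by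
      rintro (_ | j)
      · exact hm₀
      · exact hm j)
  have hm' : ∀ i, m' i = 0 := by
    intro i
    have hi := hF'.dg (Sum.inr i)
    have hiv : ¬ (av' i).IsEquiv v := hF'.pls.inq (Sum.inr i) (Sum.inl none) (by simp)
    have h4 := hnn (av' i) (d' i) (ϖ' i) (m' i) hi (h1 i) hiv
    by_contra h5
    have h6 : 1 ≤ m' i := by omega
    obtain ⟨_, R, hR⟩ := id hi
    have h7 := pfo.2 p K hG v d₀ ϖ₀ hv Unit (fun _ => av' i) (fun _ => d' i) (fun _ => ϖ' i)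
      ⟨⟨fun _ => hF'.pls.ntr (Sum.inr i), fun j j' hj => absurd (Subsingleton.elim j j') hj⟩,
        fun _ => hi⟩ (fun _ => hiv) n (fun _ => 1) b hb0 hb (fun _ => by
          rw [h1 i, pow_one]
          have h8 := zpow_le_zpow_right_of_le_one₀ hR.pi0 hR.pi1.le h6
          rwa [zpow_one] at h8)
    have h9 : d' i ≤ n * d₀ := by
      rw [Finset.univ_unique, Finset.sum_singleton, mul_one] at h7
      exact h7.trans (le_of_eq (mul_comm _ _))
    obtain ⟨j, hj⟩ := hmax (av' i) (d' i) (ϖ' i) hi h9 hiv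
    exact hF'.pls.inq (Sum.inl (some j)) (Sum.inr i) (by simp) hj
  have h4 : ∑ j : Option J, ((j.elim d₀ d : ℕ) : ℤ) * j.elim m₀ m =
      (d₀ : ℤ) * m₀ + ∑ j, (d j : ℤ) * m j := by
    rw [Fintype.sum_option]
    rfl
  have h5 : ∑ j, (d' j : ℤ) * m' j = 0 := Finset.sum_eq_zero fun i _ => by rw [hm' i, mul_zero]
  rw [h4, h5, add_zero] at h3
  have hmj : ∀ j, 0 ≤ m j := fun j => hnn _ _ _ _ (hF.dg j) (hm j) (hne j)
  have h6 : 0 ≤ ∑ j, (d j : ℤ) * m j :=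
    Finset.sum_nonneg fun j _ => mul_nonneg (Int.natCast_nonneg _) (hmj j)
  have h7 : m₀ ≤ 0 := by
    by_contra h8
    have h9 : 0 < (d₀ : ℤ) * m₀ := mul_pos (by omega) (by omega)
    omega
  have h8 : -(n : ℤ) ≤ m₀ := by
    have h9 := hb.2
    rw [hm₀] at h9
    exact (zpow_le_zpow_iff_right_of_lt_one₀ hR₀.pi0 hR₀.pi1).1 h9
  refine ⟨(-m₀).toNat, fun j => (m j).toNat, by omega, ?_, fun j => ?_, ?_⟩
  · rw [hm₀, Int.toNat_of_nonneg (by omega), neg_neg]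
  · rw [hm j, ← zpow_natCast, Int.toNat_of_nonneg (hmj j)]
  · zify
    rw [Int.toNat_of_nonneg (show 0 ≤ -m₀ by omega)]
    have e1 : ∑ j, (d j : ℤ) * ((m j).toNat : ℤ) = ∑ j, (d j : ℤ) * m j :=
      Finset.sum_congr rfl fun j _ => by rw [Int.toNat_of_nonneg (hmj j)]
    rw [e1]
    linarith

/-- The bound for `N = n d₀`. -/
private theorem low_main (pfo : S_Pfo) (p : ℕ) [Fact p.Prime] (K : Type) [Field K] [CharP K p]
    (hG : GFld p K) (v : AbsoluteValue K ℝ) (d₀ : ℕ) (ϖ₀ : K) (hv : DgV p v d₀ ϖ₀) (hd₀ : 1 ≤ d₀)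
    (h1d : ∀ (w : AbsoluteValue K ℝ) (d : ℕ) (ϖ : K), DgV p w d ϖ → 1 ≤ d)
    (hfin : ∀ n, (RR v ϖ₀ n).Finite) (a₀ : ℝ) (g : ℕ) (ha₀ : 0 < a₀)
    (h1 : ∀ n : ℕ, g ≤ n * d₀ → ((RR v ϖ₀ n).ncard : ℝ) = a₀ * (p : ℝ) ^ (n * d₀))
    (h2 : ∀ (w : AbsoluteValue K ℝ) (d : ℕ) (ϖ : K), DgV p w d ϖ → ¬ w.IsEquiv v → ∀ n k : ℕ,
        k * d + g ≤ n * d₀ →
        ({b | b ∈ RR v ϖ₀ n ∧ w b ≤ w ϖ ^ k}.ncard : ℝ) = a₀ * (p : ℝ) ^ (n * d₀ - k * d))
    (C₁ : ℕ) (hC₁ : ∀ (m : ℕ) (J : Type) [Fintype J] (av : J → AbsoluteValue K ℝ) (d : J → ℕ)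
      (ϖ : J → K), Fml p av d ϖ → (∀ j, d j = m) → ∑ j, d j ≤ C₁ * p ^ m)
    (n : ℕ) (hgn : g ≤ n * d₀) :
    ∃ (J : Type) (_ : Fintype J) (av : J → AbsoluteValue K ℝ) (d : J → ℕ) (ϖ : J → K),
      Fml p av d ϖ ∧ (∀ j, d j ≤ n * d₀) ∧ ((n * d₀ : ℕ) : ℝ) - (1 / a₀ + d₀ * (p : ℝ) ^ (g + d₀) +
        (p : ℝ) ^ (g + d₀) * (C₁ * g) + 2 * (p : ℝ) ^ (g + d₀) * (C₁ * 2)) ≤
        ∑ j, (d j : ℝ) / (p : ℝ) ^ (d j) := by
  classical
  have hp2 : 2 ≤ p := (Fact.out : p.Prime).two_le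
  have hp2' : (2 : ℝ) ≤ p := by exact_mod_cast hp2
  have hp : (0 : ℝ) < p := by linarith
  have hp1 : (1 : ℝ) ≤ p := by linarith
  obtain ⟨J, hJ, av, d, ϖ, hF, hN, hne, hmax⟩ := low_max C₁ hC₁ h1d v (n * d₀)
  refine ⟨J, hJ, av, d, ϖ, hF, hN, ?_⟩
  obtain ⟨_, R₀, hR₀⟩ := id hv
  -- the number `t`
  obtain ⟨t, ht1, ht2⟩ : ∃ t : ℕ, g ≤ t * d₀ ∧ t * d₀ ≤ g + d₀ := by
    refine ⟨g / d₀ + 1, ?_, ?_⟩
    · have := Nat.lt_div_mul_add (a := g) (b := d₀) (by omega)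
      rw [add_mul, one_mul]
      omega
    · have := Nat.div_mul_le_self g d₀
      rw [add_mul, one_mul]
      omega
  set C₂ : ℝ := (p : ℝ) ^ (g + d₀) with hC₂
  have hC₂0 : 0 ≤ C₂ := by positivity
  have hmono : ∀ m m', m ≤ m' → RR v ϖ₀ m ⊆ RR v ϖ₀ m' := by
    intro m m' hm b hb
    refine ⟨hb.1, hb.2.trans ?_⟩
    exact zpow_le_zpow_right_of_le_one₀ hR₀.pi0 hR₀.pi1.le (by omega)
  set B : Finset K := (hfin n).toFinset with hB
  have hBmem : ∀ b, b ∈ B ↔ b ∈ RR v ϖ₀ n := fun b => by rw [hB, Set.Finite.mem_toFinset]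
  have hBc : (B.card : ℝ) = a₀ * (p : ℝ) ^ (n * d₀) := by
    rw [← h1 n hgn, Set.ncard_eq_toFinset_card _ (hfin n)]
  have h0B : (0 : K) ∈ B := by
    rw [hBmem]
    refine ⟨zero_mem _, ?_⟩
    rw [map_zero]
    exact zpow_nonneg (v.nonneg _) _
  have hBpos : (0 : ℝ) < B.card := by
    rw [hBc]
    positivity
  have hB'c : ((B.erase 0).card : ℝ) = B.card - 1 := by
    rw [Finset.card_erase_of_mem h0B, Nat.cast_sub (Finset.card_pos.2 ⟨0, h0B⟩), Nat.cast_one]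
  -- the orders
  have hkey : ∀ b : K, b ∈ B.erase 0 → ∃ (s : ℕ) (o : J → ℕ), s ≤ n ∧ v b = v ϖ₀ ^ (-(s : ℤ)) ∧
      (∀ j, av j b = av j (ϖ j) ^ o j) ∧ ∑ j, d j * o j = s * d₀ := by
    intro b hb
    obtain ⟨hb0, hbB⟩ := Finset.mem_erase.1 hb
    exact low_key pfo p K hG v d₀ ϖ₀ hv hd₀ n J av d ϖ hF hne hmax b hb0 ((hBmem b).1 hbB)
  choose! s o hs hvb hob hsum using hkey
  -- the lower bound
  have hlow : ∑ b ∈ B.erase 0, ((n - s b : ℕ) : ℝ) ≤ C₂ * B.card := by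
    rw [low_swp (B.erase 0) (fun b => n - s b) n fun b _ => Nat.sub_le _ _]
    have hk : ∀ i ∈ Finset.range n,
        (((B.erase 0).filter fun b => i + 1 ≤ n - s b).card : ℝ) ≤
          C₂ * B.card * ((1 / 2) * (1 / 2) ^ i) := by
      intro i hi
      have hi' : i + 1 ≤ n := Finset.mem_range.1 hi
      have hsub : (((B.erase 0).filter fun b => i + 1 ≤ n - s b : Finset K) : Set K) ⊆
          RR v ϖ₀ (n - (i + 1) + t) := by
        intro b hb
        rw [Finset.mem_coe, Finset.mem_filter] at hb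
        obtain ⟨hb1, hb2⟩ := hb
        have hbR := (hBmem b).1 (Finset.mem_of_mem_erase hb1)
        refine hmono (n - (i + 1)) _ (Nat.le_add_right _ _) ⟨hbR.1, ?_⟩
        rw [hvb b hb1]
        refine zpow_le_zpow_right_of_le_one₀ hR₀.pi0 hR₀.pi1.le ?_
        have := hs b hb1
        omega
      have hc1 := Set.ncard_le_ncard hsub (hfin _)
      rw [Set.ncard_coe_finset] at hc1
      have hc2 : (((B.erase 0).filter fun b => i + 1 ≤ n - s b).card : ℝ) ≤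
          a₀ * (p : ℝ) ^ ((n - (i + 1) + t) * d₀) := by
        rw [← h1 _ (by rw [add_mul]; omega)]
        exact_mod_cast hc1
      refine hc2.trans ?_
      rw [hBc]
      have e1 : (n - (i + 1) + t) * d₀ + (i + 1) * d₀ = n * d₀ + t * d₀ := by
        have e0 : n - (i + 1) + (i + 1) = n := Nat.sub_add_cancel hi'
        calc (n - (i + 1) + t) * d₀ + (i + 1) * d₀ = (n - (i + 1) + (i + 1)) * d₀ + t * d₀ := by ring
          _ = n * d₀ + t * d₀ := by rw [e0]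
      have e2 : (p : ℝ) ^ ((n - (i + 1) + t) * d₀) * (p : ℝ) ^ ((i + 1) * d₀) =
          (p : ℝ) ^ (n * d₀) * (p : ℝ) ^ (t * d₀) := by
        rw [← pow_add, e1, pow_add]
      have e3 : (p : ℝ) ^ (t * d₀) ≤ C₂ := pow_le_pow_right₀ hp1 ht2
      have e4 : (2 : ℝ) ^ (i + 1) ≤ (p : ℝ) ^ ((i + 1) * d₀) := by
        refine (pow_le_pow_left₀ (by norm_num) hp2' _).trans (pow_le_pow_right₀ hp1 ?_)
        exact Nat.le_mul_of_pos_right _ (by omega)
      have e5 : (p : ℝ) ^ ((n - (i + 1) + t) * d₀) * 2 ^ (i + 1) ≤ (p : ℝ) ^ (n * d₀) * C₂ := by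
        calc (p : ℝ) ^ ((n - (i + 1) + t) * d₀) * 2 ^ (i + 1) ≤
            (p : ℝ) ^ ((n - (i + 1) + t) * d₀) * (p : ℝ) ^ ((i + 1) * d₀) :=
              mul_le_mul_of_nonneg_left e4 (by positivity)
          _ = (p : ℝ) ^ (n * d₀) * (p : ℝ) ^ (t * d₀) := e2
          _ ≤ _ := mul_le_mul_of_nonneg_left e3 (by positivity)
      have e6 : ((1 : ℝ) / 2) * (1 / 2) ^ i = 1 / 2 ^ (i + 1) := by
        rw [← pow_succ', one_div, one_div, inv_pow]
      rw [e6, mul_one_div, le_div_iff₀ (by positivity)]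
      calc a₀ * (p : ℝ) ^ ((n - (i + 1) + t) * d₀) * 2 ^ (i + 1) =
          a₀ * ((p : ℝ) ^ ((n - (i + 1) + t) * d₀) * 2 ^ (i + 1)) := by ring
        _ ≤ a₀ * ((p : ℝ) ^ (n * d₀) * C₂) := mul_le_mul_of_nonneg_left e5 ha₀.le
        _ = C₂ * (a₀ * (p : ℝ) ^ (n * d₀)) := by ring
    refine (Finset.sum_le_sum hk).trans ?_
    rw [← Finset.mul_sum, ← Finset.mul_sum]
    have e7 := low_half (1 / 2) (by norm_num) le_rfl n
    calc C₂ * B.card * (1 / 2 * ∑ i ∈ Finset.range n, (1 / 2 : ℝ) ^ i) ≤ C₂ * B.card * (1 / 2 * 2) :=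
          mul_le_mul_of_nonneg_left (mul_le_mul_of_nonneg_left e7 (by norm_num)) (by positivity)
      _ = C₂ * B.card := by ring
  -- the bound of the single counts
  set x : J → ℝ := fun j => ((p : ℝ) ^ (d j))⁻¹ with hx
  have hx0 : ∀ j, 0 < x j := fun j => by rw [hx]; positivity
  have hxh : ∀ j, x j ≤ 1 / 2 := by
    intro j
    rw [hx, one_div]
    refine inv_anti₀ (by norm_num) ?_
    calc (2 : ℝ) ≤ p := hp2'
      _ = (p : ℝ) ^ 1 := (pow_one _).symm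
      _ ≤ _ := pow_le_pow_right₀ hp1 (h1d _ _ _ (hF.dg j))
  have hoN : ∀ b ∈ B.erase 0, ∀ j, d j * o b j ≤ n * d₀ := by
    intro b hb j
    calc d j * o b j ≤ ∑ i, d i * o b i :=
          Finset.single_le_sum (f := fun i => d i * o b i) (fun _ _ => Nat.zero_le _)
            (Finset.mem_univ j)
      _ = s b * d₀ := hsum b hb
      _ ≤ n * d₀ := Nat.mul_le_mul_right _ (hs b hb)
  have hoN' : ∀ b ∈ B.erase 0, ∀ j, o b j ≤ n * d₀ := fun b hb j =>
    (Nat.le_mul_of_pos_left _ (h1d _ _ _ (hF.dg j))).trans (hoN b hb j)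
  have hsubk : ∀ j k m, n ≤ m → (((B.erase 0).filter fun b => k ≤ o b j : Finset K) : Set K) ⊆
      {b | b ∈ RR v ϖ₀ m ∧ av j b ≤ av j (ϖ j) ^ k} := by
    intro j k m hm b hb
    rw [Finset.mem_coe, Finset.mem_filter] at hb
    obtain ⟨hb1, hb2⟩ := hb
    refine ⟨hmono n m hm ((hBmem b).1 (Finset.mem_of_mem_erase hb1)), ?_⟩
    obtain ⟨_, R, hR⟩ := hF.dg j
    rw [hob b hb1 j]
    exact pow_le_pow_of_le_one hR.pi0.le hR.pi1.le hb2
  have hT1 : ∀ j, d j + g ≤ n * d₀ →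
      (((B.erase 0).filter fun b => 1 ≤ o b j).card : ℝ) ≤ B.card * x j := by
    intro j hj
    have hc1 := Set.ncard_le_ncard (hsubk j 1 n le_rfl) ((hfin n).subset fun b hb => hb.1)
    rw [Set.ncard_coe_finset] at hc1
    have hc2 : (((B.erase 0).filter fun b => 1 ≤ o b j).card : ℝ) ≤
        a₀ * (p : ℝ) ^ (n * d₀ - 1 * d j) := by
      rw [← h2 (av j) (d j) (ϖ j) (hF.dg j) (hne j) n 1 (by omega)]
      exact_mod_cast hc1
    refine hc2.trans (le_of_eq ?_)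
    have h4 : (p : ℝ) ^ (d j) ≠ 0 := by positivity
    have h5 : n * d₀ - d j + d j = n * d₀ := by
      have := hN j
      omega
    rw [hBc, one_mul, hx]
    show _ = a₀ * (p : ℝ) ^ (n * d₀) * ((p : ℝ) ^ (d j))⁻¹
    rw [← div_eq_mul_inv, eq_div_iff h4, mul_assoc, ← pow_add, h5]
  have hTk : ∀ j k, (((B.erase 0).filter fun b => k ≤ o b j).card : ℝ) ≤
      C₂ * B.card * x j ^ k := by
    intro j k
    rcases le_or_gt (k * d j) (n * d₀) with hkd | hkd
    · have hc1 := Set.ncard_le_ncard (hsubk j k (n + t) (Nat.le_add_right _ _))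
        ((hfin (n + t)).subset fun b hb => hb.1)
      rw [Set.ncard_coe_finset] at hc1
      have hc2 : (((B.erase 0).filter fun b => k ≤ o b j).card : ℝ) ≤
          a₀ * (p : ℝ) ^ ((n + t) * d₀ - k * d j) := by
        rw [← h2 (av j) (d j) (ϖ j) (hF.dg j) (hne j) (n + t) k (by rw [add_mul]; omega)]
        exact_mod_cast hc1
      refine hc2.trans ?_
      have h4 : (p : ℝ) ^ (k * d j) ≠ 0 := by positivity
      have h5 : (n + t) * d₀ - k * d j + k * d j = n * d₀ + t * d₀ := by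
        rw [add_mul]
        omega
      have e3 : (p : ℝ) ^ (t * d₀) ≤ C₂ := pow_le_pow_right₀ hp1 ht2
      have e4 : x j ^ k = ((p : ℝ) ^ (k * d j))⁻¹ := by
        rw [hx]
        show ((p : ℝ) ^ (d j))⁻¹ ^ k = _
        rw [inv_pow, ← pow_mul, mul_comm (d j) k]
      rw [e4, ← div_eq_mul_inv, le_div_iff₀ (by positivity), mul_assoc, ← pow_add, h5, hBc,
        pow_add]
      calc a₀ * ((p : ℝ) ^ (n * d₀) * (p : ℝ) ^ (t * d₀)) ≤ a₀ * ((p : ℝ) ^ (n * d₀) * C₂) :=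
            mul_le_mul_of_nonneg_left (mul_le_mul_of_nonneg_left e3 (by positivity)) ha₀.le
        _ = C₂ * (a₀ * (p : ℝ) ^ (n * d₀)) := by ring
    · have e1 : ((B.erase 0).filter fun b => k ≤ o b j) = ∅ := by
        rw [Finset.filter_eq_empty_iff]
        intro b hb hkb
        have h5 := hoN b hb j
        have h6 : k * d j ≤ d j * o b j := by
          rw [mul_comm]
          exact Nat.mul_le_mul_left _ hkb
        omega
      rw [e1, Finset.card_empty, Nat.cast_zero]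
      have := (hx0 j).le
      positivity
  -- the upper bound at one place
  have hup : ∀ j, ∑ b ∈ B.erase 0, (o b j : ℝ) ≤ B.card *
      (x j + C₂ * (if n * d₀ < d j + g then x j else 0) + 2 * C₂ * x j ^ 2) := by
    intro j
    have hxj := (hx0 j).le
    have hif : 0 ≤ C₂ * (if n * d₀ < d j + g then x j else 0) := by
      split_ifs <;> positivity
    rw [low_swp (B.erase 0) (fun b => o b j) (n * d₀) fun b hb => hoN' b hb j]
    rcases Nat.eq_zero_or_pos (n * d₀) with h0 | h0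
    · rw [h0, Finset.range_zero, Finset.sum_empty]
      rw [h0] at hif
      have : 0 ≤ x j + C₂ * (if 0 < d j + g then x j else 0) + 2 * C₂ * x j ^ 2 := by
        positivity
      positivity
    · obtain ⟨M, hM⟩ : ∃ M, n * d₀ = M + 1 := ⟨n * d₀ - 1, by omega⟩
      have hfirst : (((B.erase 0).filter fun b => 0 + 1 ≤ o b j).card : ℝ) ≤
          B.card * (x j + C₂ * (if n * d₀ < d j + g then x j else 0)) := by
        rw [zero_add]
        split_ifs with h7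
        · have h8 := hTk j 1
          rw [pow_one] at h8
          refine h8.trans ?_
          have h9 : 0 ≤ (B.card : ℝ) * x j := by positivity
          nlinarith
        · rw [mul_zero, add_zero]
          exact hT1 j (by omega)
      have hrest : ∑ k ∈ Finset.range M, (((B.erase 0).filter fun b => k + 1 + 1 ≤ o b j).card : ℝ)
          ≤ B.card * (2 * C₂ * x j ^ 2) := by
        have h7 : ∀ k ∈ Finset.range M,
            (((B.erase 0).filter fun b => k + 1 + 1 ≤ o b j).card : ℝ) ≤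
              C₂ * B.card * x j ^ 2 * x j ^ k := by
          intro k _
          refine (hTk j (k + 1 + 1)).trans (le_of_eq ?_)
          ring
        refine (Finset.sum_le_sum h7).trans ?_
        rw [← Finset.mul_sum]
        have h8 := low_half (x j) hxj (hxh j) M
        calc C₂ * B.card * x j ^ 2 * ∑ k ∈ Finset.range M, x j ^ k ≤ C₂ * B.card * x j ^ 2 * 2 :=
              mul_le_mul_of_nonneg_left h8 (by positivity)
          _ = _ := by ring
      have h9 : ∑ k ∈ Finset.range (n * d₀),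
          (((B.erase 0).filter fun b => k + 1 ≤ o b j).card : ℝ) =
          ∑ k ∈ Finset.range M, (((B.erase 0).filter fun b => k + 1 + 1 ≤ o b j).card : ℝ) +
          (((B.erase 0).filter fun b => 0 + 1 ≤ o b j).card : ℝ) := by
        rw [hM, Finset.sum_range_succ']
      rw [h9]
      calc _ ≤ (B.card : ℝ) * (2 * C₂ * x j ^ 2) +
            B.card * (x j + C₂ * (if n * d₀ < d j + g then x j else 0)) := add_le_add hrest hfirst
        _ = _ := by ring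
  -- the sums over the places
  have hS1 : ∑ j, (d j : ℝ) * (if n * d₀ < d j + g then x j else 0) ≤ C₁ * g := by
    refine (low_fib C₁ hC₁ hF (n * d₀) hN
      (fun m => if n * d₀ < m + g then ((p : ℝ) ^ m)⁻¹ else 0) fun m => ?_).trans ?_
    · split_ifs <;> positivity
    · have e1 : ∀ m ∈ Finset.range (n * d₀ + 1),
          ((C₁ : ℝ) * (p : ℝ) ^ m) * (if n * d₀ < m + g then ((p : ℝ) ^ m)⁻¹ else 0) =
          if n * d₀ < m + g then (C₁ : ℝ) else 0 := by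
        intro m _
        split_ifs
        · have : (p : ℝ) ^ m ≠ 0 := by positivity
          field_simp
        · rw [mul_zero]
      rw [Finset.sum_congr rfl e1, Finset.sum_ite, Finset.sum_const_zero, add_zero,
        Finset.sum_const, nsmul_eq_mul, mul_comm]
      refine mul_le_mul_of_nonneg_left ?_ (Nat.cast_nonneg _)
      have e2 : ((Finset.range (n * d₀ + 1)).filter fun m => n * d₀ < m + g).card ≤
          (Finset.range g).card := by
        refine Finset.card_le_card_of_injOn (fun m => n * d₀ - m) ?_ ?_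
        · intro m hm
          rw [Finset.mem_coe, Finset.mem_filter, Finset.mem_range] at hm
          rw [Finset.mem_coe, Finset.mem_range]
          show n * d₀ - m < g
          omega
        · intro m hm m' hm' hmm
          rw [Finset.mem_coe, Finset.mem_filter, Finset.mem_range] at hm hm'
          have hmm' : n * d₀ - m = n * d₀ - m' := hmm
          omega
      rw [Finset.card_range] at e2
      exact_mod_cast e2
  have hS2 : ∑ j, (d j : ℝ) * x j ^ 2 ≤ C₁ * 2 := by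
    refine (low_fib C₁ hC₁ hF (n * d₀) hN (fun m => ((p : ℝ) ^ m)⁻¹ ^ 2) fun m => by
      positivity).trans ?_
    have e1 : ∀ m ∈ Finset.range (n * d₀ + 1),
        ((C₁ : ℝ) * (p : ℝ) ^ m) * ((p : ℝ) ^ m)⁻¹ ^ 2 = C₁ * ((p : ℝ)⁻¹) ^ m := by
      intro m _
      have : (p : ℝ) ^ m ≠ 0 := by positivity
      rw [inv_pow, inv_pow]
      field_simp
    rw [Finset.sum_congr rfl e1, ← Finset.mul_sum]
    refine mul_le_mul_of_nonneg_left (low_half _ (by positivity) ?_ _) (Nat.cast_nonneg _)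
    rw [one_div]
    exact inv_anti₀ (by norm_num) hp2'
  -- the two sides
  have hside : ∑ b ∈ B.erase 0, ((s b : ℝ) * d₀) = ∑ j, (d j : ℝ) * ∑ b ∈ B.erase 0, (o b j : ℝ) := by
    have e1 : ∀ b ∈ B.erase 0, (s b : ℝ) * d₀ = ∑ j, (d j : ℝ) * (o b j : ℝ) := by
      intro b hb
      have := hsum b hb
      exact_mod_cast this.symm
    rw [Finset.sum_congr rfl e1, Finset.sum_comm]
    exact Finset.sum_congr rfl fun j _ => by rw [Finset.mul_sum]
  have hR : ∑ j, (d j : ℝ) * ∑ b ∈ B.erase 0, (o b j : ℝ) ≤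
      B.card * (∑ j, (d j : ℝ) / (p : ℝ) ^ (d j) + C₂ * (C₁ * g) + 2 * C₂ * (C₁ * 2)) := by
    have e1 : ∑ j, (d j : ℝ) * ∑ b ∈ B.erase 0, (o b j : ℝ) ≤
        ∑ j, (d j : ℝ) * (B.card *
          (x j + C₂ * (if n * d₀ < d j + g then x j else 0) + 2 * C₂ * x j ^ 2)) :=
      Finset.sum_le_sum fun j _ => mul_le_mul_of_nonneg_left (hup j) (Nat.cast_nonneg _)
    have e2 : ∑ j, (d j : ℝ) * (B.card *
          (x j + C₂ * (if n * d₀ < d j + g then x j else 0) + 2 * C₂ * x j ^ 2)) =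
        B.card * (∑ j, (d j : ℝ) / (p : ℝ) ^ (d j) +
          C₂ * (∑ j, (d j : ℝ) * (if n * d₀ < d j + g then x j else 0)) +
          2 * C₂ * (∑ j, (d j : ℝ) * x j ^ 2)) := by
      rw [Finset.mul_sum, Finset.mul_sum, ← Finset.sum_add_distrib, ← Finset.sum_add_distrib,
        Finset.mul_sum]
      refine Finset.sum_congr rfl fun j _ => ?_
      rw [div_eq_mul_inv]
      show (d j : ℝ) * (B.card * (x j + _ + _)) = B.card * ((d j : ℝ) * x j + _ + _)
      ring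
    rw [e2] at e1
    refine e1.trans (mul_le_mul_of_nonneg_left ?_ hBpos.le)
    have e3 := mul_le_mul_of_nonneg_left hS1 hC₂0
    have e4 := mul_le_mul_of_nonneg_left hS2 (by positivity : 0 ≤ 2 * C₂)
    linarith
  have hL : (B.card : ℝ) * ((n * d₀ : ℕ) : ℝ) - B.card * (1 / a₀) - B.card * (d₀ * C₂) ≤
      ∑ b ∈ B.erase 0, ((s b : ℝ) * d₀) := by
    have e1 : ∀ b ∈ B.erase 0, (s b : ℝ) * d₀ = ((n * d₀ : ℕ) : ℝ) - d₀ * ((n - s b : ℕ) : ℝ) := by
      intro b hb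
      rw [Nat.cast_sub (hs b hb)]
      push_cast
      ring
    rw [Finset.sum_congr rfl e1, Finset.sum_sub_distrib, ← Finset.mul_sum, Finset.sum_const,
      nsmul_eq_mul, hB'c]
    have e2 := mul_le_mul_of_nonneg_left hlow (Nat.cast_nonneg d₀ : (0 : ℝ) ≤ d₀)
    have e3 : ((n * d₀ : ℕ) : ℝ) ≤ B.card * (1 / a₀) := by
      have e4 : a₀ * (p : ℝ) ^ (n * d₀) * (1 / a₀) = (p : ℝ) ^ (n * d₀) := by
        field_simp
      rw [hBc, e4]
      exact_mod_cast (Nat.lt_pow_self (Fact.out : p.Prime).one_lt).le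
    nlinarith
  have hfinal : (B.card : ℝ) * (((n * d₀ : ℕ) : ℝ) - (1 / a₀ + d₀ * C₂ + C₂ * (C₁ * g) +
      2 * C₂ * (C₁ * 2))) ≤ B.card * ∑ j, (d j : ℝ) / (p : ℝ) ^ (d j) := by
    have e1 := hL.trans (hside.le.trans hR)
    linarith
  exact le_of_mul_le_mul_left hfinal hBpos

theorem tLow : S_Na → S_Plc → S_Pfo → S_Rro → S_Dgs → S_Dgu → S_Low := by
  classical
  intro _ plc pfo rro dgs dgu p _ K _ _ hG
  obtain ⟨v, hvn⟩ := plc p K hG
  obtain ⟨d1, d2, d3, d4⟩ := dgu p K hG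
  obtain ⟨d₀, ϖ₀, hv⟩ := d1 v hvn
  obtain ⟨hd₀, _⟩ := d4 v d₀ ϖ₀ hv
  obtain ⟨hfin, a₀, g, ha₀, h1, h2⟩ := rro p K hG v d₀ ϖ₀ hv
  obtain ⟨C₁, hC₁⟩ := dgs p K hG
  have hp : (0 : ℝ) < p := by exact_mod_cast (Fact.out : p.Prime).pos
  set C : ℝ := 1 / a₀ + d₀ * (p : ℝ) ^ (g + d₀) + (p : ℝ) ^ (g + d₀) * (C₁ * g) +
    2 * (p : ℝ) ^ (g + d₀) * (C₁ * 2) with hC
  have hC0 : 0 ≤ C := by positivity
  refine ⟨C + g + d₀, fun N => ?_⟩
  have hN1 : N / d₀ * d₀ ≤ N := Nat.div_mul_le_self N d₀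
  have hN2 : N ≤ N / d₀ * d₀ + d₀ := (Nat.lt_div_mul_add (a := N) (b := d₀) (by omega)).le
  rcases le_or_gt g (N / d₀ * d₀) with hg | hg
  · obtain ⟨J, hJ, av, d, ϖ, hF, hd, hs⟩ := low_main pfo p K hG v d₀ ϖ₀ hv hd₀
      (fun w d ϖ hw => (d4 w d ϖ hw).1) hfin a₀ g ha₀ h1 h2 C₁ hC₁ (N / d₀) hg
    let e : Fin (Fintype.card J) ≃ J := (Fintype.equivFin J).symm
    refine ⟨Fintype.card J, fun i => av (e i), fun i => d (e i), fun i => ϖ (e i),
      low_sub hF e e.injective, fun i => (hd (e i)).trans hN1, ?_⟩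
    rw [Equiv.sum_comp e (fun j => (d j : ℝ) / (p : ℝ) ^ (d j))]
    refine le_trans ?_ hs
    rw [← hC]
    have h3 : (N : ℝ) ≤ ((N / d₀ * d₀ : ℕ) : ℝ) + d₀ := by exact_mod_cast hN2
    have h4 : (0 : ℝ) ≤ g := Nat.cast_nonneg _
    linarith
  · refine ⟨0, fun i => i.elim0, fun i => i.elim0, fun i => i.elim0, ?_, fun i => i.elim0, ?_⟩
    · exact ⟨⟨fun i => i.elim0, fun i => i.elim0⟩, fun i => i.elim0⟩
    · rw [Finset.univ_eq_empty, Finset.sum_empty]
      have h3 : (N : ℝ) ≤ g + d₀ := by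
        have : N ≤ g + d₀ := by omega
        exact_mod_cast this
      linarith

end Pool.Agent.MP72P
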