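import Pool.Agent.Lib.MP_72e2e6_nt.P3.N2.Spec

/-!
# MP_72e2e6_nt, theorem T3p, block N2: a place at which `h` is not a `(p - 1)`-st power
-/

namespace Pool.Agent.MP72P

open Polynomial

private theorem nom_prim (p : ℕ) [Fact p.Prime] (L : Type) [Field L] [CharP L p] :
    ∃ ζ : L, IsPrimitiveRoot ζ (p - 1) := by
  obtain ⟨g, hg⟩ := IsCyclic.exists_generator (α := (ZMod p)ˣ)
  have h1 : orderOf g = p - 1 := by
    rw [orderOf_eq_card_of_forall_mem_zpowers hg, Nat.card_eq_fintype_card, ZMod.card_units_eq_totient,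
      Nat.totient_prime Fact.out]
  have h2 : IsPrimitiveRoot g (p - 1) := by
    have := IsPrimitiveRoot.orderOf g
    rwa [h1] at this
  have h3 : IsPrimitiveRoot ((g : ZMod p)) (p - 1) :=
    (IsPrimitiveRoot.coe_units_iff).2 h2
  refine ⟨ZMod.castHom dvd_rfl L (g : ZMod p), ?_⟩
  exact h3.map_of_injective (ZMod.castHom dvd_rfl L).injective

theorem tNom : S_Nsp → S_Nom := by
  intro hN p _ K _ _ hG h hh hno I _ T
  have hp : 0 < p - 1 := Nat.sub_pos_of_lt (Fact.out : p.Prime).one_lt
  have hpK : ((p - 1 : ℕ) : K) ≠ 0 := by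
    intro h0
    rw [CharP.cast_eq_zero_iff K p] at h0
    exact absurd (Nat.le_of_dvd hp h0) (by omega)
  set f : K[X] := X ^ (p - 1) - C h with hf
  have hsep : f.Separable := separable_X_pow_sub_C h hpK hh
  have hgal : IsGalois K f.SplittingField := IsGalois.of_separable_splitting_field hsep
  have hfin : Module.finrank K f.SplittingField ≠ 1 := by
    intro h1
    have hs := (finrank_eq_one_iff_of_nonzero' (1 : f.SplittingField) one_ne_zero).1 h1
    have hd : (f.map (algebraMap K f.SplittingField)).degree ≠ 0 := by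
      rw [degree_map, hf, degree_X_pow_sub_C hp]
      exact_mod_cast hp.ne'
    obtain ⟨x, hx⟩ := (Polynomial.SplittingField.splits f).exists_eval_eq_zero hd
    obtain ⟨y, rfl⟩ := hs x
    rw [hf, Polynomial.map_sub, Polynomial.map_pow, map_X, map_C, eval_sub, eval_pow, eval_X, eval_C,
      Algebra.smul_def, mul_one, ← map_pow, ← map_sub, map_eq_zero, sub_eq_zero] at hx
    exact hno y hx
  obtain ⟨v, hv1, hv2, hv3⟩ := hN p K f.SplittingField hG hfin I T
  refine ⟨v, hv1, hv2, fun y hy => ?_⟩
  have hc : CharP v.Completion p :=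
    charP_of_injective_algebraMap (algebraMap K v.Completion).injective p
  obtain ⟨ζ, hζ⟩ := nom_prim p v.Completion
  refine hv3.elim (Polynomial.SplittingField.lift f ?_)
  rw [hf, Polynomial.map_sub, Polynomial.map_pow, map_X, map_C, X_pow_sub_C_eq_prod hζ hp hy]
  exact Splits.prod fun i _ => Splits.X_sub_C _

end Pool.Agent.MP72P
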