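import Pool.Agent.Lib.MP_72e2e6_nt.P3.N2.Spec

/-!
# MP_72e2e6_nt, theorem T3p, block N2: a place which does not split completely
-/

namespace Pool.Agent.MP72P

private theorem nsp_le_one (p : ℕ) [Fact p.Prime] (d : ℕ) : (d : ℝ) / (p : ℝ) ^ d ≤ 1 := by
  have h1 : d < p ^ d := Nat.lt_pow_self (Fact.out : p.Prime).one_lt
  have h2 : (0 : ℝ) < (p : ℝ) ^ d := by
    have : (0 : ℝ) < p := by exact_mod_cast (Fact.out : p.Prime).pos
    positivity
  rw [div_le_one h2]
  exact_mod_cast h1.le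

theorem tNsp (h1 : S_Upp) (h2 : S_Low) (h3 : S_Lft) (h4 : S_Gfl) (_h5 : S_Dgu) : S_Nsp := by
  intro p _ K L _ _ _ _ _ _ hK hfr I _ T
  by_contra hcon
  push Not at hcon
  classical
  haveI : Fintype I := Fintype.ofFinite I
  haveI : CharP L p := charP_of_injective_algebraMap (algebraMap K L).injective p
  have hK' : GFld p L := h4 p K L hK
  obtain ⟨C', hC'⟩ := h1 p L hK'
  obtain ⟨C, hC⟩ := h2 p K hK
  have hm2 : 2 ≤ Module.finrank K L := by
    have := Module.finrank_pos (R := K) (M := L)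
    omega
  obtain ⟨N, hN⟩ := exists_nat_gt (C' + 2 * C + 2 * Fintype.card I)
  obtain ⟨m, av, d, ϖ, hF, hdN, hsum⟩ := hC N
  have hL : ∀ j : {j : Fin m // ∀ i, ¬ (av j).IsEquiv (T i)},
      ∃ w : Fin (Module.finrank K L) → AbsoluteValue L ℝ, Pls w ∧ (∀ i, rsa K (w i) = av j) ∧
      ∀ i, DgV p (w i) (d j) (algebraMap K L (ϖ j)) := fun j =>
    h3 p K L (av j) (d j) (ϖ j) (hF.dg j) (by
      have := hcon (av j) (hF.pls.ntr j) j.2
      simpa [not_isEmpty_iff] using this)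
  choose w hw1 hw2 hw3 using hL
  have hFml : Fml p (fun q : {j : Fin m // ∀ i, ¬ (av j).IsEquiv (T i)} × Fin (Module.finrank K L) =>
      w q.1 q.2) (fun q => d q.1) (fun q => algebraMap K L (ϖ q.1)) := by
    refine ⟨⟨fun q => (hw1 q.1).ntr q.2, ?_⟩, fun q => hw3 q.1 q.2⟩
    rintro ⟨j, i⟩ ⟨j', i'⟩ hne h
    by_cases hj : j = j'
    · subst hj
      exact (hw1 j).inq i i' (fun h' => hne (by rw [h'])) h
    · refine hF.pls.inq j j' (fun h' => hj (Subtype.ext h')) ?_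
      rw [← hw2 j i, ← hw2 j' i']
      exact fun x y => h _ _
  have hup := hC' N _ _ _ _ hFml (fun q => hdN q.1)
  rw [Fintype.sum_prod_type] at hup
  simp only [Finset.sum_const, Finset.card_univ, Fintype.card_fin, nsmul_eq_mul] at hup
  rw [← Finset.mul_sum] at hup
  set S : ℝ := ∑ j : {j : Fin m // ∀ i, ¬ (av j).IsEquiv (T i)}, (d j : ℝ) / (p : ℝ) ^ (d j) with hS
  have hp0 : (0 : ℝ) < p := by exact_mod_cast (Fact.out : p.Prime).pos
  have hS0 : 0 ≤ S := Finset.sum_nonneg fun j _ => by positivity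
  have hm2' : (2 : ℝ) ≤ Module.finrank K L := by exact_mod_cast hm2
  have hup2 : 2 * S ≤ N + C' := le_trans (mul_le_mul_of_nonneg_right hm2' hS0) hup
  have hsplit : ∑ j, (d j : ℝ) / (p : ℝ) ^ (d j) = S +
      ∑ j : {j : Fin m // ¬ ∀ i, ¬ (av j).IsEquiv (T i)}, (d j : ℝ) / (p : ℝ) ^ (d j) :=
    (Fintype.sum_subtype_add_sum_subtype (fun j => ∀ i, ¬ (av j).IsEquiv (T i))
      fun j => (d j : ℝ) / (p : ℝ) ^ (d j)).symm
  have hbad : ∑ j : {j : Fin m // ¬ ∀ i, ¬ (av j).IsEquiv (T i)}, (d j : ℝ) / (p : ℝ) ^ (d j) ≤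
      Fintype.card I := by
    have hex : ∀ j : {j : Fin m // ¬ ∀ i, ¬ (av j).IsEquiv (T i)}, ∃ i, (av j).IsEquiv (T i) := by
      intro j
      have := j.2
      push Not at this
      exact this
    choose g hg using hex
    have hinj : Function.Injective g := by
      intro j j' hjj
      by_contra hne
      refine hF.pls.inq j j' (fun h => hne (Subtype.ext h)) ?_
      exact (hg j).trans (hjj ▸ (hg j').symm)
    calc _ ≤ ∑ _j : {j : Fin m // ¬ ∀ i, ¬ (av j).IsEquiv (T i)}, (1 : ℝ) :=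
          Finset.sum_le_sum fun j _ => nsp_le_one p _
      _ = Fintype.card {j : Fin m // ¬ ∀ i, ¬ (av j).IsEquiv (T i)} := by simp
      _ ≤ Fintype.card I := by exact_mod_cast Fintype.card_le_of_injective g hinj
  linarith

end Pool.Agent.MP72P
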