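import Pool.Agent.Lib.MP_72e2e6_nt.P3.N2.SpecB

/-!
# MP_72e2e6_nt, theorem T3p, block N2: the product formula in the form of part R
-/

namespace Pool.Agent.MP72P

theorem tPF : S_Dgu → S_Pfo → S_PF := by
  intro _ hP p _ K _ hG x hx J _ av hav Q ϖ R hLF y hy
  have hchar : CharP K p := by
    obtain ⟨F, _, _, _, _, _, _⟩ := hG
    have h1 : CharP (RatFunc F) p :=
      charP_of_injective_algebraMap (algebraMap F (RatFunc F)).injective p
    exact charP_of_injective_algebraMap (algebraMap (RatFunc F) K).injective p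
  have hp : (p : ℝ) ≠ 0 := by
    exact_mod_cast (Fact.out : p.Prime).ne_zero
  choose r hr hQ using fun j => (hLF j).qp
  have hF : Fml p av r ϖ :=
    ⟨hav, fun j => ⟨hav.ntr j, R j, by rw [← hQ j]; exact hLF j⟩⟩
  obtain ⟨J', hJ', av', d', ϖ', m', hF', h1, h2, h3⟩ := hP.1 p K hG J av r ϖ hF x y hx hy
  choose R' hR' using fun j => (hF'.dg (Sum.inr j)).2
  refine ⟨J', hJ', av', fun j => p ^ d' j, ϖ', R', m', fun i => ⟨hF'.pls.ntr (Sum.inr i), ?_⟩,
    fun i => hR' i, h1, ?_⟩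
  · intro j
    exact hF'.pls.inq (Sum.inr i) (Sum.inl j) (by simp)
  · have e1 : ∀ j, ((Q j : ℕ) : ℝ) ^ y j = (p : ℝ) ^ ((r j : ℤ) * y j) := by
      intro j
      rw [hQ j, Nat.cast_pow, zpow_mul, zpow_natCast]
    have e2 : ∀ i, ((p ^ d' i : ℕ) : ℝ) ^ m' i = (p : ℝ) ^ ((d' i : ℤ) * m' i) := by
      intro i
      rw [Nat.cast_pow, zpow_mul, zpow_natCast]
    rw [Finset.prod_congr rfl (fun j _ => e1 j), Finset.prod_congr rfl (fun i _ => e2 i)]
    have e3 : ∀ {I : Type} [Fintype I] (f : I → ℤ), ∏ i, (p : ℝ) ^ f i = (p : ℝ) ^ ∑ i, f i := by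
      intro I _ f
      classical
      induction (Finset.univ : Finset I) using Finset.induction_on with
      | empty => simp
      | insert a s ha ih => rw [Finset.prod_insert ha, Finset.sum_insert ha, zpow_add₀ hp, ih]
    rw [e3, e3, ← zpow_add₀ hp, h3, zpow_zero]

end Pool.Agent.MP72P
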