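import Pool.Agent.Lib.MP_72e2e6_nt.P3.N2.Spec

/-!
# MP_72e2e6_nt, theorem T3p, block N2: product formula with inequalities
-/

namespace Pool.Agent.MP72P

private theorem pfo_one (h1 : S_Alm) (h2 : S_Dgu) (h3 : S_Pfx)
    (p : ℕ) [Fact p.Prime] (K : Type) [Field K] [CharP K p] (hK : GFld p K) (J : Type) [Fintype J]
    (av : J → AbsoluteValue K ℝ) (d : J → ℕ) (ϖ : J → K) (hF : Fml p av d ϖ) (x : K) (m : J → ℤ)
    (hx : x ≠ 0) (hm : ∀ j, av j x = av j (ϖ j) ^ m j) :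
      ∃ (J' : Type) (_ : Fintype J') (av' : J' → AbsoluteValue K ℝ) (d' : J' → ℕ) (ϖ' : J' → K)
        (m' : J' → ℤ), Fml p (Sum.elim av av') (Sum.elim d d') (Sum.elim ϖ ϖ') ∧
        (∀ j, av' j x = av' j (ϖ' j) ^ m' j) ∧
        (∀ v : AbsoluteValue K ℝ, v.IsNontrivial → (∀ j, ¬ v.IsEquiv (av j)) →
          (∀ j, ¬ v.IsEquiv (av' j)) → v x = 1) ∧
        ∑ j, (d j : ℤ) * m j + ∑ j, (d' j : ℤ) * m' j = 0 := by
  classical
  obtain ⟨m₁, av₁, hpl, hal⟩ := h1 p K hK x hx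
  obtain ⟨hD, -⟩ := h2 p K hK
  choose dd ww hdw using fun k : {k : Fin m₁ // ∀ j, ¬ (av₁ k).IsEquiv (av j)} =>
    hD (av₁ k) (hpl.ntr k)
  choose mm hmm using fun k : {k : Fin m₁ // ∀ j, ¬ (av₁ k).IsEquiv (av j)} =>
    (hdw k).2.choose_spec.disc x hx
  have hFml : Fml p (Sum.elim av fun k : {k : Fin m₁ // ∀ j, ¬ (av₁ k).IsEquiv (av j)} => av₁ k)
      (Sum.elim d dd) (Sum.elim ϖ ww) := by
    refine ⟨⟨?_, ?_⟩, ?_⟩
    · rintro (j | k)
      · exact hF.pls.ntr j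
      · exact hpl.ntr k
    · rintro (j | k) (j' | k') hne
      · exact hF.pls.inq j j' fun h => hne (by rw [h])
      · exact fun h => k'.2 j h.symm
      · exact fun h => k.2 j' h
      · exact hpl.inq k k' fun h => hne (by rw [Subtype.ext h])
    · rintro (j | k)
      · exact hF.dg j
      · exact hdw k
  have hall : ∀ v : AbsoluteValue K ℝ, v.IsNontrivial → (∀ j, ¬ v.IsEquiv (av j)) →
      (∀ k : {k : Fin m₁ // ∀ j, ¬ (av₁ k).IsEquiv (av j)}, ¬ v.IsEquiv (av₁ k)) → v x = 1 := by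
    intro v hv hv1 hv2
    refine hal v hv fun k hk => ?_
    by_cases hc : ∀ j, ¬ (av₁ k).IsEquiv (av j)
    · exact hv2 ⟨k, hc⟩ hk
    · push Not at hc
      obtain ⟨j, hj⟩ := hc
      exact hv1 j (hk.trans hj)
  refine ⟨{k : Fin m₁ // ∀ j, ¬ (av₁ k).IsEquiv (av j)}, inferInstance, fun k => av₁ k, dd, ww, mm,
    hFml, hmm, hall, ?_⟩
  have := h3 p K hK (J ⊕ {k : Fin m₁ // ∀ j, ¬ (av₁ k).IsEquiv (av j)}) _ _ _ hFml x
    (Sum.elim m mm) hx (fun v hv hv1 => hall v hv (fun j => hv1 (Sum.inl j))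
      fun k => hv1 (Sum.inr k)) (by
      rintro (j | k)
      · exact hm j
      · exact hmm k)
  rw [Fintype.sum_sum_type] at this
  exact this

theorem tPfo (h1 : S_Alm) (h2 : S_Dgu) (h3 : S_Pfx) : S_Pfo := by
  refine ⟨fun p _ K _ _ hK J _ av d ϖ hF x m hx hm =>
    pfo_one h1 h2 h3 p K hK J av d ϖ hF x m hx hm, ?_⟩
  intro p _ K _ _ hK v d₀ ϖ₀ hv J _ av d ϖ hF hne n k b hb hbR hbk
  obtain ⟨m₀, hm₀⟩ := hv.2.choose_spec.disc b hb
  choose m hm using fun j => (hF.dg j).2.choose_spec.disc b hb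
  have hF' : Fml p (Sum.elim (fun _ : Unit => v) av) (Sum.elim (fun _ : Unit => d₀) d)
      (Sum.elim (fun _ : Unit => ϖ₀) ϖ) := by
    refine ⟨⟨?_, ?_⟩, ?_⟩
    · rintro (j | j)
      · exact hv.1
      · exact hF.pls.ntr j
    · rintro (j | j) (j' | j') hjj
      · exact absurd rfl hjj
      · exact fun h => hne j' h.symm
      · exact fun h => hne j h
      · exact hF.pls.inq j j' fun h => hjj (by rw [h])
    · rintro (j | j)
      · exact hv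
      · exact hF.dg j
  obtain ⟨J', _, av', d', ϖ', m', hF'', hm', hall, hsum⟩ := pfo_one h1 h2 h3 p K hK (Unit ⊕ J) _ _ _
    hF' b (Sum.elim (fun _ : Unit => m₀) m) hb (by
      rintro (j | j)
      · exact hm₀
      · exact hm j)
  have key : ∀ (u : AbsoluteValue K ℝ) (e : ℕ) (π : K), DgV p u e π → ∀ a c : ℤ,
      u π ^ a ≤ u π ^ c → c ≤ a := by
    intro u e π hu a c hac
    obtain ⟨R, hR⟩ := hu.2
    exact (zpow_le_zpow_iff_right_of_lt_one₀ hR.pi0 hR.pi1).1 hac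
  have hk0 : -(n : ℤ) ≤ m₀ := key v d₀ ϖ₀ hv _ _ (by rw [← hm₀]; exact hbR.2)
  have hkj : ∀ j, (k j : ℤ) ≤ m j := fun j => key (av j) (d j) (ϖ j) (hF.dg j) _ _ (by
    rw [← hm, zpow_natCast]
    exact hbk j)
  have hk' : ∀ j, 0 ≤ m' j := fun j => key (av' j) (d' j) (ϖ' j) (hF''.dg (Sum.inr j)) _ _ (by
    rw [← hm', zpow_zero]
    refine hbR.1 (av' j) (hF''.pls.ntr (Sum.inr j)) (hF''.dg (Sum.inr j)).2.choose_spec.na ?_
    intro _ h
    exact hF''.pls.inq (Sum.inr j) (Sum.inl (Sum.inl ())) (by simp) h)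
  rw [Fintype.sum_sum_type] at hsum
  simp only [Sum.elim_inl, Sum.elim_inr, Finset.univ_unique, Finset.sum_singleton] at hsum
  have hs1 : ∑ j, (d j : ℤ) * k j ≤ ∑ j, (d j : ℤ) * m j :=
    Finset.sum_le_sum fun j _ => mul_le_mul_of_nonneg_left (hkj j) (by positivity)
  have hs2 : 0 ≤ ∑ j, (d' j : ℤ) * m' j :=
    Finset.sum_nonneg fun j _ => mul_nonneg (by positivity) (hk' j)
  have hs3 : (d₀ : ℤ) * -(n : ℤ) ≤ d₀ * m₀ := mul_le_mul_of_nonneg_left hk0 (by positivity)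
  have : ((∑ j, d j * k j : ℕ) : ℤ) ≤ ((d₀ * n : ℕ) : ℤ) := by
    push_cast
    linarith
  exact_mod_cast this

end Pool.Agent.MP72P
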