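import Pool.Agent.Lib.MP_72e2e6_nt.P3.N2.Spec

/-!
# MP_72e2e6_nt, theorem T3p, block N2, Pfx: the product formula for a closed family (helper66)
-/

set_option autoImplicit false

namespace Pool.Agent.MP72P

/-- Multiplication by `x`. -/
private def pfxE {K : Type} [Field K] (x : K) (hx : x ≠ 0) : K ≃+ K where
  toFun y := x * y
  invFun y := x⁻¹ * y
  left_inv y := by
    change x⁻¹ * (x * y) = y
    rw [← mul_assoc, inv_mul_cancel₀ hx, one_mul]
  right_inv y := by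
    change x * (x⁻¹ * y) = y
    rw [← mul_assoc, mul_inv_cancel₀ hx, one_mul]
  map_add' y z := mul_add x y z

private theorem pfx_mem {K : Type} [Field K] (x : K) (hx : x ≠ 0) (H : AddSubgroup K) (y : K) :
    y ∈ H.map (pfxE x hx : K →+ K) ↔ x⁻¹ * y ∈ H := by
  constructor
  · rintro ⟨z, hz, rfl⟩
    change x⁻¹ * (x * z) ∈ H
    rw [← mul_assoc, inv_mul_cancel₀ hx, one_mul]
    exact hz
  · intro h
    refine ⟨x⁻¹ * y, h, ?_⟩
    change x * (x⁻¹ * y) = y
    rw [← mul_assoc, mul_inv_cancel₀ hx, one_mul]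

private theorem pfx_card {K : Type} [Field K] (x : K) (hx : x ≠ 0) (H : AddSubgroup K) :
    Nat.card ↥(H.map (pfxE x hx : K →+ K)) = Nat.card ↥H :=
  (Nat.card_congr ((pfxE x hx).addSubgroupMap H).toEquiv).symm

private theorem pfx_index {K : Type} [Field K] (x : K) (hx : x ≠ 0) (H : AddSubgroup K) :
    (H.map (pfxE x hx : K →+ K)).index = H.index :=
  AddSubgroup.index_map_equiv H (pfxE x hx)

/-- **Pfx**. The product formula for a family which contains all places of `x`. -/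
theorem tPfx (chi : S_Chi) : S_Pfx := by
  classical
  intro p hp K _ _ hK J _ av d ϖ hF x m hx hx1 hxm
  have hxv : ∀ v : AbsoluteValue K ℝ, v x ≠ 0 := fun v => v.ne_zero hx
  have hpos : ∀ j, 0 < av j (ϖ j) := fun j => by
    obtain ⟨_, R, h⟩ := hF.dg j
    exact h.pi0
  have hna : ∀ j, IsNonarchimedean (av j) := fun j => by
    obtain ⟨_, R, h⟩ := hF.dg j
    exact h.na
  have hA : (OSA av).map (pfxE x hx : K →+ K) = OSA av := by
    ext y
    rw [pfx_mem]
    have h1 : ∀ v : AbsoluteValue K ℝ, v.IsNontrivial → (∀ j, ¬ v.IsEquiv (av j)) →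
        v (x⁻¹ * y) = v y := by
      intro v hv hj
      rw [map_mul, map_inv₀, hx1 v hv hj, inv_one, one_mul]
    constructor
    · intro h v hv1 hv2 hv3
      rw [← h1 v hv1 hv3]
      exact h v hv1 hv2 hv3
    · intro h v hv1 hv2 hv3
      rw [h1 v hv1 hv3]
      exact h v hv1 hv2 hv3
  have hB : ∀ n : J → ℤ, (BlZ av ϖ n).map (pfxE x hx : K →+ K) =
      BlZ av ϖ fun j => n j + m j := by
    intro n
    ext y
    rw [pfx_mem]
    have h1 : ∀ j, av j (x⁻¹ * y) ≤ |av j (ϖ j) ^ n j| ↔ av j y ≤ |av j (ϖ j) ^ (n j + m j)| := by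
      intro j
      rw [abs_of_pos (zpow_pos (hpos j) _), abs_of_pos (zpow_pos (hpos j) _), map_mul, map_inv₀,
        zpow_add₀ (hpos j).ne', ← hxm j, inv_mul_eq_div,
        div_le_iff₀ ((av j).pos hx)]
    constructor
    · intro h j hj
      exact (h1 j).1 (h j hj)
    · intro h j hj
      exact (h1 j).2 (h j hj)
  have ha : ∀ n : J → ℤ, Nat.card ↥(OSA av ⊓ BlZ av ϖ fun j => n j + m j) =
      Nat.card ↥(OSA av ⊓ BlZ av ϖ n) := by
    intro n
    rw [← pfx_card x hx (OSA av ⊓ BlZ av ϖ n), AddSubgroup.map_inf _ _ _ (pfxE x hx).injective,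
      hA, hB]
  have hc : ∀ n : J → ℤ, (OSA av ⊔ BlZ av ϖ fun j => n j + m j).index =
      (OSA av ⊔ BlZ av ϖ n).index := by
    intro n
    rw [← pfx_index x hx (OSA av ⊔ BlZ av ϖ n), AddSubgroup.map_sup, hA, hB]
  obtain ⟨l, hl⟩ : ∃ l : J → ℕ, ∀ j, m j ≤ l j := ⟨fun j => (m j).toNat, fun j => Int.self_le_toNat _⟩
  obtain ⟨l', hl'⟩ : ∃ l' : J → ℕ, ∀ j, (m j : ℤ) + l' j = l j :=
    ⟨fun j => ((l j : ℤ) - m j).toNat, fun j => by
      rw [Int.toNat_of_nonneg (by have := hl j; omega)]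
      ring⟩
  obtain ⟨f0, i0, e0⟩ := chi p K hK J av d ϖ hF (fun _ => 0)
  obtain ⟨f1, i1, e1⟩ := chi p K hK J av d ϖ hF (fun j => 0 + m j)
  have e0' := e0 l
  have e1' := e1 l'
  have h3 : (fun j => (0 : ℤ) + m j + l' j) = fun j => (0 : ℤ) + l j := by
    funext j
    have := hl' j
    omega
  rw [h3, ha (fun _ => 0), hc (fun _ => 0), e0'] at e1'
  have h4 : 0 < Nat.card ↥(OSA av ⊓ BlZ av ϖ fun j => (0 : ℤ) + l j) := by
    obtain ⟨f2, -, -⟩ := chi p K hK J av d ϖ hF (fun j => (0 : ℤ) + l j)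
    exact Nat.card_pos
  have h5 := Nat.eq_of_mul_eq_mul_left (Nat.mul_pos h4 (Nat.pos_of_ne_zero i0)) e1'
  rw [Finset.prod_pow_eq_pow_sum, Finset.prod_pow_eq_pow_sum] at h5
  have h6 := Nat.pow_right_injective hp.out.two_le h5
  have h7 : ∑ j, (d j : ℤ) * l j = ∑ j, (d j : ℤ) * l' j := by exact_mod_cast h6
  have h8 : ∑ j, (d j : ℤ) * m j = ∑ j, (d j : ℤ) * l j - ∑ j, (d j : ℤ) * l' j := by
    rw [← Finset.sum_sub_distrib]
    refine Finset.sum_congr rfl fun j _ => ?_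
    rw [← hl' j]
    ring
  rw [h8, h7, sub_self]

end Pool.Agent.MP72P
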