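import Pool.Agent.Lib.MP_72e2e6_nt.P3.N2.Spec

/-!
# MP_72e2e6_nt, theorem T3p, block N2: there are places
-/

namespace Pool.Agent.MP72P

theorem tPlc (_h1 : S_Rt) (h2 : S_Exn) : S_Plc := by
  intro p _ K _ _ hK
  obtain ⟨F, hF1, hF2, hF3, hF4, hF5, hF6⟩ := hK
  obtain ⟨u, hu⟩ := (MP72W.tAv F).2.1
  obtain ⟨x, hx0, hx1⟩ := (MP72W.tAv F).2.2 none u hu
  haveI : CharP (RatFunc F) p := (algebraMap (RatFunc F) K).charP (algebraMap (RatFunc F) K).injective p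
  have hun : u.IsNontrivial := ⟨x, hx0, hx1⟩
  obtain ⟨⟨v, hv⟩, -⟩ := h2 p (RatFunc F) K u hun
  refine ⟨v, algebraMap (RatFunc F) K x, ?_, ?_⟩
  · rw [Ne, map_eq_zero]
    exact hx0
  · have : v (algebraMap (RatFunc F) K x) = u x := by
      rw [← hv]
      rfl
    rw [this]
    exact hx1

end Pool.Agent.MP72P
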