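import Pool.Agent.Lib.MP_72e2e6_nt.P3.N2.Spec

/-!
# MP_72e2e6_nt, theorem T3p, block N2, Rro: Riemann-Roch for large degrees (helper66)
-/

set_option autoImplicit false

namespace Pool.Agent.MP72P

variable {K : Type} [Field K]

private theorem rro_mem1 {v : AbsoluteValue K ℝ} (hna : IsNonarchimedean v) {ϖ : K}
    (h0 : 0 < v ϖ) (n : ℤ) (y : K) :
    y ∈ BlZ (fun _ : Unit => v) (fun _ => ϖ) (fun _ => n) ↔ v y ≤ v ϖ ^ n := by
  constructor
  · intro h
    have h1 := h () hna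
    rwa [abs_of_pos (zpow_pos h0 _)] at h1
  · intro h j _
    rw [abs_of_pos (zpow_pos h0 _)]
    exact h

private theorem rro_mem2 {v w : AbsoluteValue K ℝ} (hv : IsNonarchimedean v)
    (hw : IsNonarchimedean w) {ϖ₀ ϖ : K} (h0 : 0 < v ϖ₀) (h1 : 0 < w ϖ) (n m : ℤ) (y : K) :
    y ∈ BlZ (fun b : Bool => cond b v w) (fun b => cond b ϖ₀ ϖ) (fun b => cond b n m) ↔
      v y ≤ v ϖ₀ ^ n ∧ w y ≤ w ϖ ^ m := by
  constructor
  · intro h
    have h2 := h true hv
    have h3 := h false hw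
    change v y ≤ |v ϖ₀ ^ n| at h2
    change w y ≤ |w ϖ ^ m| at h3
    rw [abs_of_pos (zpow_pos h0 _)] at h2
    rw [abs_of_pos (zpow_pos h1 _)] at h3
    exact ⟨h2, h3⟩
  · rintro ⟨h2, h3⟩ j _
    cases j with
    | true =>
      change v y ≤ |v ϖ₀ ^ n|
      rwa [abs_of_pos (zpow_pos h0 _)]
    | false =>
      change w y ≤ |w ϖ ^ m|
      rwa [abs_of_pos (zpow_pos h1 _)]

private theorem rro_card (H : AddSubgroup K) : ((H : Set K)).ncard = Nat.card ↥H :=
  (Nat.card_coe_set_eq (H : Set K)).symm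

/-- **Rro**. Riemann-Roch for large degrees. -/
theorem tRro (_na : S_Na) (cok : S_CoK) (str : S_Str) (_sml : S_Sml) (chi : S_Chi) (_pfo : S_Pfo)
    (_dgu : S_Dgu) : S_Rro := by
  classical
  intro p hp K _ _ hK v d₀ ϖ₀ hv
  have hp2 : 2 ≤ p := hp.out.two_le
  have hp0 : (0 : ℝ) < p := by exact_mod_cast (show 0 < p by omega)
  obtain ⟨hvn, R₀, hLF⟩ := id hv
  have vna : IsNonarchimedean v := hLF.na
  have v0 : 0 < v ϖ₀ := hLF.pi0
  have v1 : v ϖ₀ < 1 := hLF.pi1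
  have hF1 : Fml p (fun _ : Unit => v) (fun _ => d₀) (fun _ => ϖ₀) :=
    ⟨⟨fun _ => hvn, fun j j' h => absurd (Subsingleton.elim j j') h⟩, fun _ => hv⟩
  have memB := rro_mem1 vna v0
  have rr : ∀ n : ℕ, RR v ϖ₀ n = ((OSA (fun _ : Unit => v) ⊓
      BlZ (fun _ : Unit => v) (fun _ => ϖ₀) (fun _ => -(n : ℤ)) : AddSubgroup K) : Set K) := by
    intro n
    ext y
    change (y ∈ OS (fun _ : Unit => v) ∧ v y ≤ v ϖ₀ ^ (-(n : ℤ))) ↔
      (y ∈ OS (fun _ : Unit => v) ∧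
        y ∈ BlZ (fun _ : Unit => v) (fun _ => ϖ₀) (fun _ => -(n : ℤ)))
    rw [memB]
  have chi1 := chi p K hK Unit (fun _ => v) (fun _ => d₀) (fun _ => ϖ₀) hF1
  refine ⟨fun n => ?_, ?_⟩
  · rw [rr]
    exact Set.finite_coe_iff.1 (chi1 fun _ => -(n : ℤ)).1
  -- the number n₀
  obtain ⟨n₀, hn₀⟩ : ∃ n₀ : ℕ, ∀ y : K, ∃ a ∈ OS (fun _ : Unit => v), ∃ z,
      v z ≤ v ϖ₀ ^ (-(n₀ : ℤ)) ∧ y = a + z := by
    obtain ⟨X, hX, hco⟩ := cok p K hK Unit (fun _ => v) hF1.pls 1 one_pos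
    obtain ⟨B, hB⟩ := (hX.image v).bddAbove
    obtain ⟨n₀, hn₀⟩ := pow_unbounded_of_one_lt B ((one_lt_inv₀ v0).2 v1)
    refine ⟨n₀, fun y => ?_⟩
    obtain ⟨s, hs, a, ha, hz⟩ := hco y
    refine ⟨a, ha, s + (y - s - a), ?_, by ring⟩
    rw [zpow_neg, zpow_natCast, ← inv_pow]
    refine (vna _ _).trans (max_le ?_ ?_)
    · exact (hB ⟨s, hs, rfl⟩).trans hn₀.le
    · exact (hz ()).trans (one_le_pow₀ ((one_lt_inv₀ v0).2 v1).le)
  have mono : ∀ N : ℕ, n₀ ≤ N → v ϖ₀ ^ (-(n₀ : ℤ)) ≤ v ϖ₀ ^ (-(N : ℤ)) := fun N hN =>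
    zpow_le_zpow_right_of_le_one₀ v0 v1.le (by omega)
  obtain ⟨a₁, ha₁⟩ : ∃ a₁, a₁ = Nat.card ↥(OSA (fun _ : Unit => v) ⊓
      BlZ (fun _ : Unit => v) (fun _ => ϖ₀) (fun _ => -(n₀ : ℤ))) := ⟨_, rfl⟩
  have ha₁0 : 0 < a₁ := by
    have := (chi1 fun _ => -(n₀ : ℤ)).1
    rw [ha₁]
    exact Nat.card_pos
  have top1 : ∀ N : ℕ, n₀ ≤ N → (OSA (fun _ : Unit => v) ⊔
      BlZ (fun _ : Unit => v) (fun _ => ϖ₀) (fun _ => -(N : ℤ))).index = 1 := by
    intro N hN
    rw [AddSubgroup.index_eq_one, eq_top_iff]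
    intro y _
    obtain ⟨a, ha, z, hz, rfl⟩ := hn₀ y
    exact add_mem ((le_sup_left : OSA (fun _ : Unit => v) ≤ _) ha)
      ((le_sup_right : BlZ (fun _ : Unit => v) (fun _ => ϖ₀) (fun _ => -(N : ℤ)) ≤ _)
        ((memB _ _).2 (hz.trans (mono N hN))))
  have card1 : ∀ N : ℕ, n₀ ≤ N → (RR v ϖ₀ N).ncard = a₁ * p ^ (d₀ * (N - n₀)) := by
    intro N hN
    have h1 := (chi1 fun _ => -(N : ℤ)).2.2 fun _ => N - n₀
    have h2 : (fun _ : Unit => -(N : ℤ) + ((N - n₀ : ℕ) : ℤ)) = fun _ => -(n₀ : ℤ) := by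
      funext _
      omega
    rw [h2, top1 N hN, top1 n₀ le_rfl, ← ha₁, mul_one, mul_one, Fintype.prod_unique] at h1
    rw [rr, rro_card, h1]
  refine ⟨(a₁ : ℝ) / (p : ℝ) ^ (d₀ * n₀), 2 * n₀ * d₀ + 1, by positivity, ?_, ?_⟩
  · intro n hn
    have h1 : 2 * n₀ < n := by
      by_contra h
      push Not at h
      have := Nat.mul_le_mul_right d₀ h
      omega
    rw [card1 n (by omega)]
    push_cast
    rw [div_mul_eq_mul_div, eq_div_iff (by positivity), mul_assoc, ← pow_add]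
    congr 2
    obtain ⟨t, rfl⟩ : ∃ t, n = n₀ + t := ⟨n - n₀, by omega⟩
    rw [Nat.add_sub_cancel_left]
    ring
  · intro w d ϖ hw hwv n k hnk
    obtain ⟨hwn, R₁, hLF1⟩ := id hw
    have wna : IsNonarchimedean w := hLF1.na
    have w0 : 0 < w ϖ := hLF1.pi0
    have hF2 : Fml p (fun b : Bool => cond b v w) (fun b => cond b d₀ d)
        (fun b => cond b ϖ₀ ϖ) := by
      refine ⟨⟨?_, ?_⟩, ?_⟩
      · intro j
        cases j
        · exact hwn
        · exact hvn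
      · intro j j' hj
        cases j <;> cases j'
        · exact absurd rfl hj
        · exact hwv
        · exact fun h => hwv h.symm
        · exact absurd rfl hj
      · intro j
        cases j
        · exact hw
        · exact hv
    have memB2 := rro_mem2 vna wna v0 w0
    have chi2 := chi p K hK Bool _ _ _ hF2
    -- the two rings
    have OS_le : ∀ a, a ∈ OS (fun _ : Unit => v) → a ∈ OS (fun b : Bool => cond b v w) := by
      intro a ha u hu1 hu2 hu3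
      exact ha u hu1 hu2 fun _ => hu3 true
    have w_le : ∀ a, a ∈ OS (fun _ : Unit => v) → w a ≤ 1 := fun a ha =>
      ha w hwn wna fun _ => hwv
    have OS_of : ∀ a, a ∈ OS (fun b : Bool => cond b v w) → w a ≤ 1 →
        a ∈ OS (fun _ : Unit => v) := by
      intro a ha hwa u hu1 hu2 hu3
      by_cases h : u.IsEquiv w
      · exact h.le_one_iff.2 hwa
      · refine ha u hu1 hu2 fun j => ?_
        cases j
        · exact h
        · exact hu3 ()
    have set2 : ∀ N l : ℕ, {b | b ∈ RR v ϖ₀ N ∧ w b ≤ w ϖ ^ l} =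
        ((OSA (fun b : Bool => cond b v w) ⊓ BlZ (fun b : Bool => cond b v w)
          (fun b => cond b ϖ₀ ϖ) (fun b => cond b (-(N : ℤ)) (l : ℤ)) : AddSubgroup K) :
            Set K) := by
      intro N l
      ext y
      change ((y ∈ OS (fun _ : Unit => v) ∧ v y ≤ v ϖ₀ ^ (-(N : ℤ))) ∧ w y ≤ w ϖ ^ l) ↔
        (y ∈ OS (fun b : Bool => cond b v w) ∧ y ∈ BlZ (fun b : Bool => cond b v w)
          (fun b => cond b ϖ₀ ϖ) (fun b => cond b (-(N : ℤ)) (l : ℤ)))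
      rw [memB2, zpow_natCast]
      constructor
      · rintro ⟨⟨h1, h2⟩, h3⟩
        exact ⟨OS_le y h1, h2, h3⟩
      · rintro ⟨h1, h2, h3⟩
        exact ⟨⟨OS_of y h1 (h3.trans (pow_le_one₀ w0.le hLF1.pi1.le)), h2⟩, h3⟩
    obtain ⟨A2, hA2⟩ : ∃ A2 : ℕ → ℕ → ℕ, A2 = fun N l : ℕ =>
        Nat.card ↥(OSA (fun b : Bool => cond b v w) ⊓ BlZ (fun b : Bool => cond b v w)
          (fun b => cond b ϖ₀ ϖ) (fun b => cond b (-(N : ℤ)) (l : ℤ))) := ⟨_, rfl⟩
    obtain ⟨C2, hC2⟩ : ∃ C2 : ℕ → ℕ → ℕ, C2 = fun N l : ℕ =>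
        (OSA (fun b : Bool => cond b v w) ⊔ BlZ (fun b : Bool => cond b v w)
          (fun b => cond b ϖ₀ ϖ) (fun b => cond b (-(N : ℤ)) (l : ℤ))).index := ⟨_, rfl⟩
    have A2pos : ∀ N l, 0 < A2 N l := by
      intro N l
      have := (chi2 fun b => cond b (-(N : ℤ)) (l : ℤ)).1
      rw [hA2]
      exact Nat.card_pos
    have C2pos : ∀ N l, 0 < C2 N l := by
      intro N l
      rw [hC2]
      exact Nat.pos_of_ne_zero (chi2 fun b => cond b (-(N : ℤ)) (l : ℤ)).2.1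
    have A2card : ∀ N l, {b | b ∈ RR v ϖ₀ N ∧ w b ≤ w ϖ ^ l}.ncard = A2 N l := by
      intro N l
      rw [set2, rro_card, hA2]
    have A200 : A2 n₀ 0 = a₁ := by
      rw [← A2card, ha₁, ← rro_card, ← rr]
      congr 1
      ext y
      constructor
      · rintro ⟨h1, _⟩
        exact h1
      · intro h1
        refine ⟨h1, ?_⟩
        rw [pow_zero]
        exact w_le y h1.1
    -- the decomposition for the two places
    have dec : ∀ y : K, ∃ a ∈ OS (fun b : Bool => cond b v w), ∃ z,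
        v z ≤ v ϖ₀ ^ (-(n₀ : ℤ)) ∧ w z ≤ 1 ∧ y = a + z := by
      intro y
      obtain ⟨f, hf, hf2⟩ := str p K hK Bool (fun b : Bool => cond b v w) hF2.pls true
        (fun _ => y) 1 one_pos
      have hf3 : w (f - y) < 1 := hf2 false (by decide)
      obtain ⟨a, ha, z, hz, hyz⟩ := hn₀ (y - f)
      refine ⟨f + a, add_mem hf (OS_le a ha), z, hz, ?_, ?_⟩
      · have h1 : z = -(f - y) + -a := by
          have h2 : z = (y - f) - a := by
            rw [hyz]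
            ring
          rw [h2]
          ring
        rw [h1]
        refine (wna _ _).trans (max_le ?_ ?_)
        · rw [AbsoluteValue.map_neg]
          exact hf3.le
        · rw [AbsoluteValue.map_neg]
          exact w_le a ha
      · rw [add_assoc, ← hyz]
        ring
    have C200 : C2 n₀ 0 = 1 := by
      rw [hC2]
      change AddSubgroup.index _ = 1
      rw [AddSubgroup.index_eq_one, eq_top_iff]
      intro y _
      obtain ⟨a, ha, z, hz, hz2, rfl⟩ := dec y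
      refine add_mem ((le_sup_left : OSA (fun b : Bool => cond b v w) ≤ _) ha)
        ((le_sup_right : BlZ (fun b : Bool => cond b v w) (fun b => cond b ϖ₀ ϖ)
          (fun b => cond b (-(n₀ : ℤ)) ((0 : ℕ) : ℤ)) ≤ _) ((memB2 _ _ _).2 ⟨hz, ?_⟩))
      rw [Nat.cast_zero, zpow_zero]
      exact hz2
    have e1 : ∀ l, a₁ * C2 n₀ l = A2 n₀ l * p ^ (d * l) := by
      intro l
      have h1 := (chi2 fun b => cond b (-(n₀ : ℤ)) ((0 : ℕ) : ℤ)).2.2 fun b => cond b 0 l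
      have h2 : (fun b : Bool => cond b (-(n₀ : ℤ)) ((0 : ℕ) : ℤ) + ((cond b 0 l : ℕ) : ℤ)) =
          fun b => cond b (-(n₀ : ℤ)) (l : ℤ) := by
        funext b
        cases b <;> simp
      rw [h2, Fintype.prod_bool] at h1
      have h3 : A2 n₀ 0 * C2 n₀ l = A2 n₀ l * C2 n₀ 0 * (p ^ (d₀ * 0) * p ^ (d * l)) := by
        rw [hA2, hC2]
        exact h1
      rw [A200, C200, mul_zero, pow_zero, one_mul, mul_one] at h3
      exact h3
    have e2 : ∀ N l, n₀ ≤ N → A2 N l * C2 n₀ l = A2 n₀ l * C2 N l * p ^ (d₀ * (N - n₀)) := by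
      intro N l hN
      have h1 := (chi2 fun b => cond b (-(N : ℤ)) (l : ℤ)).2.2 fun b => cond b (N - n₀) 0
      have h2 : (fun b : Bool => cond b (-(N : ℤ)) (l : ℤ) + ((cond b (N - n₀) 0 : ℕ) : ℤ)) =
          fun b => cond b (-(n₀ : ℤ)) (l : ℤ) := by
        funext b
        cases b
        · simp
        · change -(N : ℤ) + ((N - n₀ : ℕ) : ℤ) = -(n₀ : ℤ)
          omega
      rw [h2, Fintype.prod_bool] at h1
      have h3 : A2 N l * C2 n₀ l =
          A2 n₀ l * C2 N l * (p ^ (d₀ * (N - n₀)) * p ^ (d * 0)) := by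
        rw [hA2, hC2]
        exact h1
      rw [mul_zero, pow_zero, mul_one] at h3
      exact h3
    have e3 : ∀ N l, n₀ ≤ N → A2 N l * p ^ (d * l) = a₁ * C2 N l * p ^ (d₀ * (N - n₀)) := by
      intro N l hN
      refine Nat.eq_of_mul_eq_mul_left (A2pos n₀ l) ?_
      calc A2 n₀ l * (A2 N l * p ^ (d * l)) = A2 N l * (A2 n₀ l * p ^ (d * l)) := by ring
        _ = a₁ * (A2 N l * C2 n₀ l) := by rw [← e1]; ring
        _ = A2 n₀ l * (a₁ * C2 N l * p ^ (d₀ * (N - n₀))) := by rw [e2 N l hN]; ring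
    have hn : 2 * n₀ < n := by
      by_contra h
      push Not at h
      have := Nat.mul_le_mul_right d₀ h
      omega
    obtain ⟨t, ht⟩ : ∃ t, n = 2 * n₀ + t := ⟨n - 2 * n₀, by omega⟩
    -- a function
    obtain ⟨f, hf0, hf1, hf2, hf3⟩ : ∃ f : K, f ≠ 0 ∧ f ∈ OS (fun b : Bool => cond b v w) ∧
        v f ≤ v ϖ₀ ^ (-((n - n₀ : ℕ) : ℤ)) ∧ w f ≤ w ϖ ^ k := by
      have h1 := e3 (n - n₀) k (by omega)
      have h2 : p ^ (d * k + 1) ≤ A2 (n - n₀) k * p ^ (d * k) := by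
        rw [h1]
        calc p ^ (d * k + 1) ≤ p ^ (d₀ * (n - n₀ - n₀)) := by
              refine Nat.pow_le_pow_right (by omega) ?_
              have h3 : n - n₀ - n₀ = t := by omega
              rw [h3]
              rw [ht] at hnk
              nlinarith
          _ = 1 * 1 * p ^ (d₀ * (n - n₀ - n₀)) := by ring
          _ ≤ a₁ * C2 (n - n₀) k * p ^ (d₀ * (n - n₀ - n₀)) :=
              Nat.mul_le_mul_right _ (Nat.mul_le_mul ha₁0 (C2pos _ _))
      have h3 : 1 < A2 (n - n₀) k := by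
        rw [pow_succ'] at h2
        have h4 := Nat.le_of_mul_le_mul_right h2 (Nat.pow_pos (by omega))
        omega
      rw [← A2card] at h3
      obtain ⟨f, hf, hf0⟩ := Set.exists_ne_of_one_lt_ncard h3 0
      refine ⟨f, hf0, OS_le f hf.1.1, hf.1.2, hf.2⟩
    have hC1 : C2 n k = 1 := by
      rw [hC2]
      change AddSubgroup.index _ = 1
      rw [AddSubgroup.index_eq_one, eq_top_iff]
      intro y _
      obtain ⟨a, ha, z, hz, hz2, hyz⟩ := dec (y / f)
      have hy : y = f * a + f * z := by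
        rw [← mul_add, ← hyz, mul_div_cancel₀ _ hf0]
      rw [hy]
      refine add_mem ((le_sup_left : OSA (fun b : Bool => cond b v w) ≤ _)
        ((OS (fun b : Bool => cond b v w)).mul_mem hf1 ha))
        ((le_sup_right : BlZ (fun b : Bool => cond b v w) (fun b => cond b ϖ₀ ϖ)
          (fun b => cond b (-(n : ℤ)) (k : ℤ)) ≤ _) ((memB2 _ _ _).2 ⟨?_, ?_⟩))
      · rw [map_mul]
        have h1 : -(n : ℤ) = -((n - n₀ : ℕ) : ℤ) + -(n₀ : ℤ) := by omega
        rw [h1, zpow_add₀ v0.ne']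
        exact mul_le_mul hf2 hz (v.nonneg _) (zpow_pos v0 _).le
      · rw [map_mul, zpow_natCast]
        calc w f * w z ≤ w ϖ ^ k * 1 := mul_le_mul hf3 hz2 (w.nonneg _) (pow_pos w0 _).le
          _ = w ϖ ^ k := mul_one _
    have h1 := e3 n k (by omega)
    rw [hC1, mul_one] at h1
    rw [A2card]
    have h2 : (A2 n k : ℝ) * (p : ℝ) ^ (d * k) = a₁ * (p : ℝ) ^ (d₀ * (n - n₀)) := by
      exact_mod_cast h1
    rw [div_mul_eq_mul_div, eq_div_iff (by positivity)]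
    have h3 : (p : ℝ) ^ (d * k) ≠ 0 := by positivity
    refine mul_right_cancel₀ h3 ?_
    calc (A2 n k : ℝ) * (p : ℝ) ^ (d₀ * n₀) * (p : ℝ) ^ (d * k) =
        ((A2 n k : ℝ) * (p : ℝ) ^ (d * k)) * (p : ℝ) ^ (d₀ * n₀) := by ring
      _ = a₁ * ((p : ℝ) ^ (d₀ * (n - n₀)) * (p : ℝ) ^ (d₀ * n₀)) := by rw [h2]; ring
      _ = a₁ * ((p : ℝ) ^ (n * d₀ - k * d) * (p : ℝ) ^ (d * k)) := by
          rw [← pow_add, ← pow_add]
          congr 2
          have h4 : n - n₀ = n₀ + t := by omega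
          rw [h4]
          have h5 : n * d₀ - k * d + d * k = n * d₀ := by
            rw [mul_comm d k]
            omega
          rw [h5, ht]
          ring
      _ = a₁ * (p : ℝ) ^ (n * d₀ - k * d) * (p : ℝ) ^ (d * k) := by ring

end Pool.Agent.MP72P
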