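import Pool.Agent.Lib.MP_72e2e6_nt.P3.N2.SpecB

/-!
# MP_72e2e6_nt, theorem T3p, block N2: existence of the set `S₀`
-/

namespace Pool.Agent.MP72P

/-- Add a place to a finite family. -/
private theorem addPl {K : Type} [Field K] {J : Type} {av : J → AbsoluteValue K ℝ} (h : Pls av)
    {v : AbsoluteValue K ℝ} (hv : v.IsNontrivial) (hn : ∀ j, ¬ v.IsEquiv (av j)) :
    Pls (fun o : Option J => o.elim v av) := by
  constructor
  · intro o
    cases o with
    | none => exact hv
    | some j => exact h.ntr j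
  · intro o o' hne
    cases o with
    | none =>
      cases o' with
      | none => exact absurd rfl hne
      | some j => exact hn j
    | some i =>
      cases o' with
      | none => exact fun hq => hn i hq.symm
      | some j => exact h.inq i j fun hij => hne (by rw [hij])

/-- A family with at most one element is not complete. -/
private theorem growPl (h2 : S_Dgu) (h3 : S_Pfo) (h4 : S_Plc) (p : ℕ) [Fact p.Prime] (K : Type)
    [Field K] [CharP K p] (hK : GFld p K) (J : Type) [Fintype J] (av : J → AbsoluteValue K ℝ)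
    (hav : Pls av) (hc : Fintype.card J ≤ 1) :
    ∃ v : AbsoluteValue K ℝ, v.IsNontrivial ∧ ∀ j, ¬ v.IsEquiv (av j) := by
  have hss : Subsingleton J := Fintype.card_le_one_iff_subsingleton.1 hc
  rcases isEmpty_or_nonempty J with hJ | ⟨⟨j0⟩⟩
  · obtain ⟨v, hv⟩ := h4 p K hK
    exact ⟨v, hv, fun j => hJ.elim j⟩
  · obtain ⟨d1, _, _, d4⟩ := h2 p K hK
    obtain ⟨d, ϖ, hd⟩ := d1 (av j0) (hav.ntr j0)
    obtain ⟨hd1, _⟩ := d4 _ _ _ hd
    obtain ⟨R, hR⟩ := hd.2
    have hav' : Fml p (fun _ : Unit => av j0) (fun _ => d) (fun _ => ϖ) :=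
      ⟨⟨fun _ => hav.ntr j0, fun a b hab => absurd (Subsingleton.elim a b) hab⟩, fun _ => hd⟩
    have hϖ : ϖ ≠ 0 := by
      rintro rfl
      exact absurd hR.pi0 (by rw [map_zero]; exact lt_irrefl _)
    obtain ⟨J', _, av', d', ϖ', m', hF, _, _, hs⟩ := h3.1 p K hK Unit (fun _ => av j0)
      (fun _ => d) (fun _ => ϖ) hav' ϖ (fun _ => 1) hϖ (fun _ => by rw [zpow_one])
    rcases isEmpty_or_nonempty J' with hJ' | ⟨⟨j'⟩⟩
    · rw [Finset.univ_eq_empty (α := J'), Finset.sum_empty] at hs
      simp only [Finset.univ_unique, Finset.sum_singleton, mul_one, add_zero] at hs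
      exact absurd (Nat.cast_eq_zero.1 hs) (by omega)
    · refine ⟨av' j', hF.pls.ntr (Sum.inr j'), fun j hq => ?_⟩
      rw [Subsingleton.elim j j0] at hq
      exact hF.pls.inq (Sum.inr j') (Sum.inl ()) (by simp) hq

/-- A family can be enlarged to have at least two elements. -/
private theorem twoPl (h2 : S_Dgu) (h3 : S_Pfo) (h4 : S_Plc) (p : ℕ) [Fact p.Prime] (K : Type)
    [Field K] [CharP K p] (hK : GFld p K) (J : Type) [Fintype J] (av : J → AbsoluteValue K ℝ)
    (hav : Pls av) : ∃ (J' : Type) (_ : Fintype J') (av' : J' → AbsoluteValue K ℝ) (e : J → J'),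
      Pls av' ∧ 2 ≤ Fintype.card J' ∧ ∀ j, av' (e j) = av j := by
  have key : ∀ (n : ℕ) (J : Type) [Fintype J] (av : J → AbsoluteValue K ℝ), Pls av →
      2 ≤ Fintype.card J + n → ∃ (J' : Type) (_ : Fintype J') (av' : J' → AbsoluteValue K ℝ)
      (e : J → J'), Pls av' ∧ 2 ≤ Fintype.card J' ∧ ∀ j, av' (e j) = av j := by
    intro n
    induction n with
    | zero =>
      intro J _ av hav h
      exact ⟨J, inferInstance, av, id, hav, h, fun _ => rfl⟩
    | succ n ih =>
      intro J _ av hav h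
      rcases le_or_gt (Fintype.card J) 1 with hc | hc
      · obtain ⟨v, hv, hn⟩ := growPl h2 h3 h4 p K hK J av hav hc
        obtain ⟨J', i1, av', e, e1, e2, e3⟩ := ih (Option J) (fun o => o.elim v av)
          (addPl hav hv hn) (by rw [Fintype.card_option]; omega)
        exact ⟨J', i1, av', fun j => e (some j), e1, e2, fun j => e3 (some j)⟩
      · exact ⟨J, inferInstance, av, id, hav, hc, fun _ => rfl⟩
  exact key 2 J av hav (by omega)

/-- The first family: it contains the places of `h`, has two elements, and a place at which `h` is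
not a `(p - 1)`-st power. -/
private theorem firstPl (h1 : S_Alm) (h2 : S_Dgu) (h3 : S_Pfo) (h4 : S_Plc) (h5 : S_Nom) (p : ℕ)
    [Fact p.Prime] (K : Type) [Field K] [CharP K p] (hK : GFld p K) (h : K) (h0 : h ≠ 0) :
    ∃ (J : Type) (_ : Fintype J) (av : J → AbsoluteValue K ℝ), Pls av ∧ 2 ≤ Fintype.card J ∧
      (∀ v : AbsoluteValue K ℝ, v.IsNontrivial → (∀ j, ¬ v.IsEquiv (av j)) → v h = 1) ∧
      ((∀ y : K, y ^ (p - 1) ≠ h) →
          ∃ j, ∀ y : (av j).Completion, y ^ (p - 1) ≠ algebraMap K (av j).Completion h) := by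
  obtain ⟨m, av1, hP1, hc1⟩ := h1 p K hK h h0
  have hA : ∃ (J : Type) (_ : Fintype J) (av : J → AbsoluteValue K ℝ), Pls av ∧
      (∀ v : AbsoluteValue K ℝ, v.IsNontrivial → (∀ j, ¬ v.IsEquiv (av j)) → v h = 1) ∧
      ((∀ y : K, y ^ (p - 1) ≠ h) →
          ∃ j, ∀ y : (av j).Completion, y ^ (p - 1) ≠ algebraMap K (av j).Completion h) := by
    by_cases hp : ∀ y : K, y ^ (p - 1) ≠ h
    · obtain ⟨v, hv, hn, hy⟩ := h5 p K hK h h0 hp (Fin m) av1
      refine ⟨Option (Fin m), inferInstance, fun o => o.elim v av1, addPl hP1 hv hn, ?_, ?_⟩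
      · intro w hw hwn
        exact hc1 w hw fun j => hwn (some j)
      · intro _
        exact ⟨none, hy⟩
    · exact ⟨Fin m, inferInstance, av1, hP1, hc1, fun hp' => absurd hp' hp⟩
  obtain ⟨J, _, av, a1, a2, a3⟩ := hA
  obtain ⟨J', i', av', e, b1, b2, b3⟩ := twoPl h2 h3 h4 p K hK J av a1
  refine ⟨J', i', av', b1, b2, ?_, ?_⟩
  · intro v hv hn
    exact a2 v hv fun j => by rw [← b3 j]; exact hn (e j)
  · intro hp
    obtain ⟨j, hj⟩ := a3 hp
    refine ⟨e j, ?_⟩
    rw [b3 j]
    exact hj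

/-- The local condition for equivalent families. -/
private theorem shLe (h7 : S_Eqv) (p : ℕ) [Fact p.Prime] (K : Type) [Field K] [CharP K p]
    {J : Type} (av av' : J → AbsoluteValue K ℝ) (he : ∀ j, (av j).IsEquiv (av' j)) (h : K)
    (hO : OS av = OS av') : ShN p av h ≤ ShN p av' h := by
  intro f hf
  refine ⟨by rw [← hO]; exact hf.1, fun j => ?_⟩
  obtain ⟨y, hy⟩ := hf.2 j
  obtain ⟨φ⟩ := h7 K (av j) (av' j) (he j)
  refine ⟨φ y, ?_⟩
  have := congrArg φ hy
  rw [AlgHom.commutes] at this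
  rw [← this, Ph, Ph, map_sub, map_mul, map_pow, AlgHom.commutes]

/-- **S0x**. Existence of the set `S₀`. -/
theorem tS0x (h1 : S_Alm) (h2 : S_Dgu) (h3 : S_Pfo) (h4 : S_Plc) (h5 : S_Nom) (h6 : S_Sha)
    (h7 : S_Eqv) : S_S0x := by
  intro p _ K _ _ hK h h0
  obtain ⟨J3, _, av3, a1, a2, a3, a4⟩ := firstPl h1 h2 h3 h4 h5 p K hK h h0
  have : Nonempty J3 := Fintype.card_pos_iff.1 (by omega)
  obtain ⟨r, avz, z1, z2, z3⟩ := h6 p K hK J3 av3 a1 h h0 a3
  let e := Fintype.equivFin (J3 ⊕ Fin r)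
  refine ⟨Fintype.card (J3 ⊕ Fin r), fun i => avz (e.symm i),
    ⟨fun i => z1.ntr _, fun i i' hne => z1.inq _ _ fun hh => hne (e.symm.injective hh)⟩, ?_⟩
  intro J _ av hav hJ
  choose s hs using hJ
  have hsi : Function.Injective s := by
    intro i i' hii
    by_contra hne
    have q1 := hs i
    have q2 := hs i'
    rw [← hii] at q2
    exact z1.inq (e.symm i) (e.symm i') (fun hh => hne (e.symm.injective hh)) (q1.symm.trans q2)
  have hs3 : ∀ j : J3, (av (s (e (Sum.inl j)))).IsEquiv (av3 j) := by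
    intro j
    have q : (av (s (e (Sum.inl j)))).IsEquiv (avz (e.symm (e (Sum.inl j)))) := hs _
    rwa [Equiv.symm_apply_apply, z2] at q
  refine ⟨?_, ?_, ?_, ?_⟩
  · have q := Fintype.card_le_of_injective s hsi
    rw [Fintype.card_fin, Fintype.card_sum] at q
    omega
  · intro v hv hn
    exact a3 v hv fun j hq => hn _ (hq.trans (hs3 j).symm)
  · let av' : J → AbsoluteValue K ℝ := Function.extend s (fun i => avz (e.symm i)) av
    have he : ∀ j, (av j).IsEquiv (av' j) := by
      intro j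
      by_cases hj : ∃ i, s i = j
      · obtain ⟨i, rfl⟩ := hj
        have q : av' (s i) = avz (e.symm i) := hsi.extend_apply _ _ _
        rw [q]
        exact hs i
      · have q : av' j = av j := Function.extend_apply' _ _ _ hj
        rw [q]
        exact AbsoluteValue.IsEquiv.refl _
    have hPl : Pls av' := ⟨fun j => (he j).isNontrivial_congr.1 (hav.ntr j),
      fun i j hne hq => hav.inq i j hne ((he i).trans (hq.trans (he j).symm))⟩
    have hO : OS av = OS av' := by
      apply Subring.ext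
      intro f
      constructor
      · intro hf v v1 v2 v3
        exact hf v v1 v2 fun j hq => v3 j (hq.trans (he j))
      · intro hf v v1 v2 v3
        exact hf v v1 v2 fun j hq => v3 j (hq.trans (he j).symm)
    have hz := z3 J av' (fun x => s (e x)) hPl (fun x => by
      have q : av' (s (e x)) = avz (e.symm (e x)) := hsi.extend_apply _ _ _
      rw [q, Equiv.symm_apply_apply])
    have hPh : PhN p av' h = PhN p av h := by
      rw [PhN, PhN, hO]
    rw [← hPh, ← hz]
    exact le_antisymm (shLe h7 p K av av' he h hO)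
      (shLe h7 p K av' av (fun j => (he j).symm) h hO.symm)
  · intro hp
    obtain ⟨j, hj⟩ := a4 hp
    refine ⟨s (e (Sum.inl j)), fun y hy => ?_⟩
    obtain ⟨φ⟩ := h7 K _ _ (hs3 j)
    apply hj (φ y)
    rw [← map_pow, hy, AlgHom.commutes]

end Pool.Agent.MP72P
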