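import Pool.Agent.Lib.MP_72e2e6_nt.P3.N2.Spec

/-!
# MP_72e2e6_nt, theorem T3p, block N2: Sha vanishes for large `S`
-/

namespace Pool.Agent.MP72P

open Polynomial

private theorem Sha_norm {K : Type} [Field K] (v : AbsoluteValue K ℝ) (x : K) :
    ‖algebraMap K v.Completion x‖ = v x :=
  UniformSpace.Completion.norm_coe (WithAbs.toAbs v x)

private theorem Sha_ultra {K : Type} [Field K] (v : AbsoluteValue K ℝ)
    (hna : IsNonarchimedean v) : IsUltrametricDist v.Completion := by
  refine IsUltrametricDist.isUltrametricDist_of_forall_norm_add_le_max_norm fun x y => ?_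
  refine UniformSpace.Completion.induction_on₂ x y ?_ fun a b => ?_
  · exact isClosed_le (by fun_prop) (by fun_prop)
  · rw [← UniformSpace.Completion.coe_add, UniformSpace.Completion.norm_coe,
      UniformSpace.Completion.norm_coe, UniformSpace.Completion.norm_coe]
    exact hna a.ofAbs b.ofAbs

/-- `f` is of the form `y ^ p - h y` in the completion at `v`. -/
private def ShaL (p : ℕ) {K : Type} [Field K] (h : K) (v : AbsoluteValue K ℝ) (f : K) : Prop :=
  ∃ y : v.Completion, Ph p (algebraMap K v.Completion h) y = algebraMap K v.Completion f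

private theorem Sha_sub {p : ℕ} [Fact p.Prime] {L : Type} [Field L] [CharP L p] (h x y : L) :
    Ph p h (x - y) = Ph p h x - Ph p h y :=
  (PhA p h).map_sub x y

private theorem ShaL_sub {p : ℕ} [Fact p.Prime] {K : Type} [Field K] [CharP K p] {h : K}
    {v : AbsoluteValue K ℝ} {a b : K} (ha : ShaL p h v a) (hb : ShaL p h v b) :
    ShaL p h v (a - b) := by
  have := charP_of_injective_algebraMap (algebraMap K v.Completion).injective p
  obtain ⟨y, hy⟩ := ha
  obtain ⟨z, hz⟩ := hb
  refine ⟨y - z, ?_⟩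
  rw [Sha_sub, hy, hz, map_sub]

private theorem ShaL_Ph {p : ℕ} {K : Type} [Field K] (h : K) (v : AbsoluteValue K ℝ) (a : K) :
    ShaL p h v (Ph p h a) := by
  refine ⟨algebraMap K v.Completion a, ?_⟩
  rw [Ph, Ph, map_sub, map_pow, map_mul]

private theorem Sha_fam (hNph : S_Nph) (p : ℕ) [Fact p.Prime] {K : Type} [Field K] [CharP K p]
    (hK : GFld p K) {J : Type} [Finite J] (av : J → AbsoluteValue K ℝ) (hav : Pls av) (h : K)
    (h0 : h ≠ 0) : ∀ (n : ℕ) (f : Fin n → K), (∀ i x, Ph p h x ≠ f i) →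
    ∃ w : Fin n → AbsoluteValue K ℝ, Pls (Sum.elim av w) ∧ ∀ i, ¬ ShaL p h (w i) (f i) := by
  intro n
  induction n with
  | zero =>
    intro f _
    refine ⟨Fin.elim0, ⟨?_, ?_⟩, fun i => i.elim0⟩
    · rintro (j | j)
      · exact hav.ntr j
      · exact j.elim0
    · rintro (j | j) (j' | j') hne
      · exact hav.inq j j' fun h1 => hne (by rw [h1])
      · exact j'.elim0
      · exact j.elim0
      · exact j.elim0
  | succ n ih =>
    intro f hf
    obtain ⟨w, hw, hwf⟩ := ih (fun i => f i.succ) (fun i => hf i.succ)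
    obtain ⟨v, hv, hvT, hvf⟩ := hNph p K hK h (f 0) h0 (hf 0) (J ⊕ Fin n) (Sum.elim av w)
    refine ⟨Fin.cons v w, ⟨?_, ?_⟩, ?_⟩
    · rintro (j | j)
      · exact hav.ntr j
      · refine Fin.cases ?_ (fun i => ?_) j
        · exact hv
        · exact hw.ntr (Sum.inr i)
    · rintro (j | j) (j' | j') hne
      · exact hav.inq j j' fun h1 => hne (by rw [h1])
      · refine Fin.cases ?_ (fun i => ?_) j'
        · exact fun h1 => hvT (Sum.inl j) (AbsoluteValue.IsEquiv.symm h1)
        · exact hw.inq (Sum.inl j) (Sum.inr i) (by simp)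
      · refine Fin.cases ?_ (fun i => ?_) j
        · exact hvT (Sum.inl j')
        · exact hw.inq (Sum.inr i) (Sum.inl j') (by simp)
      · revert hne
        refine Fin.cases (motive := fun j => Sum.inr j ≠ (Sum.inr j' : J ⊕ Fin (n + 1)) →
          ¬ AbsoluteValue.IsEquiv (Sum.elim av (Fin.cons v w) (Sum.inr j))
            (Sum.elim av (Fin.cons v w) (Sum.inr j'))) ?_ (fun i => ?_) j
        · refine Fin.cases ?_ (fun i' => ?_) j'
          · exact fun h1 => absurd rfl h1
          · exact fun _ => hvT (Sum.inr i')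
        · refine Fin.cases ?_ (fun i' => ?_) j'
          · exact fun _ h1 => hvT (Sum.inr i) (AbsoluteValue.IsEquiv.symm h1)
          · intro h1
            refine hw.inq (Sum.inr i) (Sum.inr i') fun h2 => h1 ?_
            rw [Sum.inr.inj h2]
    · intro i
      refine Fin.cases ?_ (fun i => ?_) i
      · rintro ⟨y, hy⟩
        exact hvf y hy
      · exact hwf i

theorem tSha (hNa : S_Na) (hStr : S_Str) (hDen : S_Den) (_hPhl : S_Phl) (hEul : S_Eul)
    (hNph : S_Nph) : S_Sha := by
  intro p _ K _ _ hK J _ _ av hav h h0 hunit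
  have hp : p.Prime := Fact.out
  have hna : ∀ v : AbsoluteValue K ℝ, IsNonarchimedean v := fun v => hNa p K v
  obtain ⟨hfin, -⟩ := hEul p K hK J av hav h h0 hunit
  -- representatives of the nonzero classes
  have hsurj := QuotientAddGroup.mk_surjective (s := (PhN p av h).addSubgroupOf (ShN p av h))
  choose F hF using hsurj
  have hfin' : Finite {c : ShN p av h ⧸ (PhN p av h).addSubgroupOf (ShN p av h) // c ≠ 0} :=
    inferInstance
  obtain ⟨r, ⟨e⟩⟩ := Finite.exists_equiv_fin
    {c : ShN p av h ⧸ (PhN p av h).addSubgroupOf (ShN p av h) // c ≠ 0}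
  set f : Fin r → K := fun i => (F (e.symm i).1 : K) with hfdef
  have hf : ∀ i x, Ph p h x ≠ f i := by
    intro i x hx
    have hxO : x ∈ OS av := by
      intro v h1 h2 h3
      by_contra hc
      push Not at hc
      have hvh : v h = 1 := hunit v h1 h3
      have hvf : v (f i) ≤ 1 := (F (e.symm i).1).2.1 v h1 h2 h3
      have h4 : x ^ p = f i + h * x := by
        rw [← hx, Ph]
        ring
      have h5 : v x ^ p ≤ v x := by
        rw [← map_pow, h4]
        refine (h2 _ _).trans (max_le (hvf.trans hc.le) ?_)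
        rw [map_mul, hvh, one_mul]
      have h6 : v x ^ 1 < v x ^ p := pow_lt_pow_right₀ hc hp.one_lt
      rw [pow_one] at h6
      exact absurd h5 (not_le.2 h6)
    have h1 : (F (e.symm i).1 : K) ∈ PhN p av h := ⟨x, hxO, hx⟩
    have h2 := (QuotientAddGroup.eq_zero_iff (N := (PhN p av h).addSubgroupOf (ShN p av h))
      (F (e.symm i).1)).2 (AddSubgroup.mem_addSubgroupOf.2 h1)
    rw [hF] at h2
    exact (e.symm i).2 h2
  obtain ⟨w, hw, hwf⟩ := Sha_fam hNph p hK av hav h h0 r f hf
  refine ⟨r, Sum.elim av w, hw, fun j => rfl, ?_⟩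
  intro J₁ _ av₁ s hav₁ hs
  have hs1 : ∀ j, av₁ (s (Sum.inl j)) = av j := fun j => hs (Sum.inl j)
  have hs2 : ∀ i, av₁ (s (Sum.inr i)) = w i := fun i => hs (Sum.inr i)
  have hsub : ∀ v : AbsoluteValue K ℝ, (∀ k, ¬ v.IsEquiv (av₁ k)) → ∀ j, ¬ v.IsEquiv (av j) := by
    intro v hv j
    rw [← hs1 j]
    exact hv _
  have hOS : OS av ≤ OS av₁ := fun x hx v h1 h2 h3 => hx v h1 h2 (hsub v h3)
  have hh1 : h ∈ OS av₁ := fun v h1 _ h3 => (hunit v h1 (hsub v h3)).le
  have hPhO : ∀ a ∈ OS av₁, Ph p h a ∈ OS av₁ := fun a ha =>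
    sub_mem (pow_mem ha p) (mul_mem hh1 ha)
  apply le_antisymm
  · rintro g ⟨hgO, hgL⟩
    choose y hy using hgL
    -- the bound
    have hB0 : 0 ≤ ∑ k, av₁ k h := Finset.sum_nonneg fun k _ => (av₁ k).nonneg _
    obtain ⟨ε, hε⟩ : ∃ ε : ℝ, ε = 1 / (1 + ∑ k, av₁ k h) := ⟨_, rfl⟩
    have hε0 : 0 < ε := by rw [hε]; positivity
    have hε1 : ε ≤ 1 := by
      rw [hε]
      exact (div_le_one (by positivity)).2 (by linarith)
    have hεh : ∀ k, av₁ k h * ε ≤ 1 := by
      intro k
      have h1 : av₁ k h ≤ ∑ k, av₁ k h :=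
        Finset.single_le_sum (f := fun k => av₁ k h) (fun k _ => (av₁ k).nonneg _)
          (Finset.mem_univ k)
      rw [hε, mul_one_div]
      exact (div_le_one (by positivity)).2 (by linarith)
    obtain ⟨x, hx⟩ := hDen K J₁ av₁ hav₁ y ε hε0
    obtain ⟨j0⟩ := (inferInstance : Nonempty J)
    obtain ⟨b, hb, hbx⟩ := hStr p K hK J₁ av₁ hav₁ (s (Sum.inl j0)) (fun _ => x) ε hε0
    have hclose : ∀ k, k ≠ s (Sum.inl j0) →
        ‖y k - algebraMap K (av₁ k).Completion b‖ < ε := by
      intro k hk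
      have hu := Sha_ultra (av₁ k) (hna _)
      have h1 : y k - algebraMap K (av₁ k).Completion b =
          -(algebraMap K (av₁ k).Completion x - y k) +
            -(algebraMap K (av₁ k).Completion (b - x)) := by
        rw [map_sub]
        ring
      rw [h1]
      refine lt_of_le_of_lt (IsUltrametricDist.norm_add_le_max _ _) (max_lt ?_ ?_)
      · rw [norm_neg]
        exact hx k
      · rw [norm_neg, Sha_norm]
        exact hbx k hk
    have hPh1 : ∀ (k : J₁) (z : (av₁ k).Completion), ‖z‖ < ε →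
        ‖Ph p (algebraMap K (av₁ k).Completion h) z‖ ≤ 1 := by
      intro k z hz
      have hu := Sha_ultra (av₁ k) (hna _)
      rw [Ph, sub_eq_add_neg]
      refine (IsUltrametricDist.norm_add_le_max _ _).trans (max_le ?_ ?_)
      · rw [norm_pow]
        exact pow_le_one₀ (norm_nonneg _) (hz.le.trans hε1)
      · rw [norm_neg, norm_mul, Sha_norm]
        exact (mul_le_mul_of_nonneg_left hz.le ((av₁ k).nonneg _)).trans (hεh k)
    obtain ⟨g', hg'⟩ : ∃ g', g' = g - Ph p h b := ⟨_, rfl⟩
    have hL : ∀ k, ShaL p h (av₁ k) g' := by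
      intro k
      rw [hg']
      exact ShaL_sub ⟨y k, hy k⟩ (ShaL_Ph h _ b)
    have hg'O : g' ∈ OS av := by
      intro v h1 h2 h3
      by_cases h4 : ∃ k, v.IsEquiv (av₁ k)
      · obtain ⟨k, hk⟩ := h4
        have hk0 : k ≠ s (Sum.inl j0) := by
          rintro rfl
          rw [hs1] at hk
          exact h3 j0 hk
        have := charP_of_injective_algebraMap
          (algebraMap K (av₁ k).Completion).injective p
        have h5 : av₁ k g' ≤ 1 := by
          rw [← Sha_norm, hg', map_sub, ← hy k]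
          have h6 : algebraMap K (av₁ k).Completion (Ph p h b) =
              Ph p (algebraMap K (av₁ k).Completion h) (algebraMap K (av₁ k).Completion b) := by
            rw [Ph, Ph, map_sub, map_pow, map_mul]
          rw [h6, ← Sha_sub]
          exact hPh1 k _ (hclose k hk0)
        exact hk.le_one_iff.2 h5
      · push Not at h4
        rw [hg']
        exact (sub_mem hgO (hPhO b hb)) v h1 h2 h4
    have hg'S : g' ∈ ShN p av h := by
      refine ⟨hg'O, fun j => ?_⟩
      have h1 := hL (s (Sum.inl j))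
      rw [hs1 j] at h1
      exact h1
    by_cases hc : (QuotientAddGroup.mk (⟨g', hg'S⟩ : ShN p av h) :
        ShN p av h ⧸ (PhN p av h).addSubgroupOf (ShN p av h)) = 0
    · have h1 := AddSubgroup.mem_addSubgroupOf.1 ((QuotientAddGroup.eq_zero_iff _).1 hc)
      obtain ⟨a, ha, ha2⟩ := h1
      refine ⟨b + a, add_mem hb (hOS ha), ?_⟩
      have h2 : PhA p h a = g' := ha2
      have h3 : PhA p h b = Ph p h b := rfl
      rw [map_add, h2, h3, hg']
      ring
    · exfalso
      obtain ⟨i, hi⟩ := e.symm.surjective ⟨_, hc⟩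
      have h6 : (QuotientAddGroup.mk (F (e.symm i).1) :
          ShN p av h ⧸ (PhN p av h).addSubgroupOf (ShN p av h)) =
          QuotientAddGroup.mk (⟨g', hg'S⟩ : ShN p av h) := by
        rw [hF, hi]
      have h7 := AddSubgroup.mem_addSubgroupOf.1 (QuotientAddGroup.eq.1 h6)
      obtain ⟨a, ha, ha2⟩ := h7
      have h8 : Ph p h a = -f i + g' := ha2
      apply hwf i
      have h9 := hL (s (Sum.inr i))
      rw [hs2 i] at h9
      have h10 : f i = g' - Ph p h a := by
        rw [h8]
        ring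
      rw [h10]
      exact ShaL_sub h9 (ShaL_Ph h _ a)
  · rintro _ ⟨a, ha, rfl⟩
    exact ⟨hPhO a ha, fun k => ShaL_Ph h (av₁ k) a⟩

end Pool.Agent.MP72P
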