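import Pool.Agent.Lib.MP_72e2e6_nt.P3.N2.Defs
import Pool.Agent.Lib.MP_72e2e6_nt.P3.N.Spec

/-!
# MP_72e2e6_nt, theorem T3p, block N2: product formula, Mertens' theorem, places which do not split

The proofs are complete in the docstrings; every module is independent (used statements are
hypotheses): file `P3/N2/<Name>.lean` (import this file only) with `theorem t<Name> : S_<Name>` or
`theorem t<Name> (h1 : S_X) (h2 : S_Y) .. : S_<Name>` (in the order of the docstring), namespace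
`Pool.Agent.MP72P`, other declarations `private`. All types are in `Type`. The statements of `P3/N/Spec.lean`
may be used. `A = OS av`. `ord_v(x)` is the integer `n` with `v x = v ϖ ^ n` (`x ≠ 0`); it exists by `LF.disc` and
is unique as `0 < v ϖ < 1`. A real number `x ^ (n : ℤ)` is an integer power.
-/

namespace Pool.Agent.MP72P

/-! ### 1. Degrees -/

/-- **Dgu** (150 lines, uses `S_Dsc`). Degrees and orders are well defined.

Proof. (1) `S_Dsc` and `LF.qp`. (2) If `v x ≤ v y ↔ v' x ≤ v' y` for all `x`, `y` then `v ϖ` is the largest value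
`< 1` of `v`, so `v' ϖ` and `v' ϖ'` are the largest value `< 1` of `v'`, so equal; `R` is a set of representatives of
`{v ≤ 1}` modulo `{v < 1}`, `R'` of `{v' ≤ 1}` modulo `{v' < 1}`, the same sets; so `p ^ d = #R = #R' = p ^ d'`.
(3) all the properties of `LF` are inherited by an equivalent absolute value (`disc`: `v x = v (ϖ ^ n)` iff
`v' x = v' (ϖ ^ n)`). (4) `d ≥ 1` from `LF.qp` (`p ^ d = p ^ r`, `r ≥ 1`). -/
def S_Dgu : Prop :=
  ∀ (p : ℕ) [Fact p.Prime] (K : Type) [Field K] [CharP K p], GFld p K →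
    (∀ v : AbsoluteValue K ℝ, v.IsNontrivial → ∃ (d : ℕ) (ϖ : K), DgV p v d ϖ) ∧
    (∀ (v v' : AbsoluteValue K ℝ) (d d' : ℕ) (ϖ ϖ' : K), v.IsEquiv v' → DgV p v d ϖ →
      DgV p v' d' ϖ' → d = d' ∧ v' ϖ = v' ϖ') ∧
    (∀ (v v' : AbsoluteValue K ℝ) (d : ℕ) (ϖ : K), v.IsEquiv v' → DgV p v d ϖ → DgV p v' d ϖ) ∧
    ∀ (v : AbsoluteValue K ℝ) (d : ℕ) (ϖ : K), DgV p v d ϖ → 1 ≤ d ∧ IsNonarchimedean v

/-- **Idx** (200 lines, uses `S_Na`, `S_Den`). The index of balls.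

Proof. Induction on `∑ k j`: it suffices to show that `BlZ (n + e_j)` has index `p ^ (d j)` in `BlZ n` (`e_j` the
`j`-th unit vector), `AddSubgroup.relIndex_mul_relIndex`. The map `y ↦` class of `y / ϖ_j ^ (n j)` in the
residue ring `{v_j ≤ 1} / {v_j < 1}` is additive on `BlZ n` with kernel `BlZ (n + e_j)` (`v_j z < 1` iff
`v_j z ≤ v_j ϖ_j`), and it is surjective by weak approximation (`S_Den`, or
`AbsoluteValue.denseRange_algebraMap_pi`): for `z` with `v_j z ≤ 1` there is `y` with `v_j (y - z ϖ_j ^ (n j))` and all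
other `v_i y` very small. The residue ring has `#R = p ^ (d j)` elements. (It may be convenient to count
directly: the elements `y_r`, `r ∈ R`, near `r ϖ_j ^ (n j)`, are representatives of the cosets.) -/
def S_Idx : Prop :=
  ∀ (p : ℕ) [Fact p.Prime] (K : Type) [Field K] [CharP K p] (J : Type) [Fintype J]
    (av : J → AbsoluteValue K ℝ) (d : J → ℕ) (ϖ : J → K), Fml p av d ϖ → ∀ (n : J → ℤ) (k : J → ℕ),
      BlZ av ϖ (fun j => n j + k j) ≤ BlZ av ϖ n ∧
      (BlZ av ϖ (fun j => n j + k j)).relIndex (BlZ av ϖ n) = ∏ j, p ^ (d j * k j)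

/-- **Chi** (200 lines, uses `S_Na`, `S_CoK`, `S_FiK`, `S_Idx`). The Euler characteristic of balls.

Proof. Write `a(n) = #(A ∩ K(n))`, `c(n) = [K : A + K(n)]` for `K(n) = BlZ n`. They are finite and not `0`: `S_FiK`,
`S_CoK`. Let `m = n + k`. `[A + K(n) : A + K(m)] = [K(n) : K(n) ∩ (A + K(m))]` (second isomorphism theorem,
`A + K(n) = K(n) + (A + K(m))`), and `K(n) ∩ (A + K(m)) = K(m) + (A ∩ K(n))` (modular law). So `c(m) = c(n) *
[K(n) : K(m) + (A ∩ K(n))]`. And `[K(m) + (A ∩ K(n)) : K(m)] = [A ∩ K(n) : A ∩ K(m)] = a(n) / a(m)`. The product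
is `[K(n) : K(m)]`, `S_Idx`. -/
def S_Chi : Prop :=
  ∀ (p : ℕ) [Fact p.Prime] (K : Type) [Field K] [CharP K p], GFld p K → ∀ (J : Type) [Fintype J]
    (av : J → AbsoluteValue K ℝ) (d : J → ℕ) (ϖ : J → K), Fml p av d ϖ → ∀ n : J → ℤ,
      Finite ↥(OSA av ⊓ BlZ av ϖ n) ∧ (OSA av ⊔ BlZ av ϖ n).index ≠ 0 ∧ ∀ k : J → ℕ,
      Nat.card ↥(OSA av ⊓ BlZ av ϖ n) * (OSA av ⊔ BlZ av ϖ fun j => n j + k j).index =
        Nat.card ↥(OSA av ⊓ BlZ av ϖ fun j => n j + k j) * (OSA av ⊔ BlZ av ϖ n).index *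
          ∏ j, p ^ (d j * k j)

/-- **Pfx** (120 lines, uses `S_Chi`). The product formula for a family which contains all places of `x`.

Proof. `J` is not empty or there is nothing to show (empty product `1`, so the statement is `0 = 0`). `x A = A`
(`v x = 1` for all other places), `x K(n) = K(n + m)`. So `a(n + m) = a(n)`, `c(n + m) = c(n)` for all `n : J → ℤ` (notation of
`S_Chi`). Let `n = 0`, `l : J → ℕ` with `l j ≥ m j`, `l j ≥ 0`; `S_Chi` for `(0, l)` and for `(m, l - m)`: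
`a(0) c(l) = a(l) c(0) p ^ (∑ d l)`, `a(m) c(l) = a(l) c(m) p ^ (∑ d (l - m))`; so `∑ d l = ∑ d (l - m)`. -/
def S_Pfx : Prop :=
  ∀ (p : ℕ) [Fact p.Prime] (K : Type) [Field K] [CharP K p], GFld p K → ∀ (J : Type) [Fintype J]
    (av : J → AbsoluteValue K ℝ) (d : J → ℕ) (ϖ : J → K), Fml p av d ϖ → ∀ (x : K) (m : J → ℤ),
      x ≠ 0 → (∀ v : AbsoluteValue K ℝ, v.IsNontrivial → (∀ j, ¬ v.IsEquiv (av j)) → v x = 1) →
      (∀ j, av j x = av j (ϖ j) ^ m j) → ∑ j, (d j : ℤ) * m j = 0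

/-- **Pfo** (120 lines, uses `S_Alm`, `S_Dgu`, `S_Pfx`). Extension of families, and the product formula with
inequalities.

Proof. (1) Let `av₁` be as in `S_Alm` for `x`, keep the `av₁ k` which are not equivalent to an `av j`; with `S_Dgu` the
family on `J ⊕ J'` is a `Fml` and contains all places with `v x ≠ 1`; `m` by `LF.disc`. `S_Pfx` for it. (2) From (1)
for the family of `v` and the `av j`: `m' ≥ 0` for the places in `J'` (as `b` is regular there), so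
`d₀ m₀ + ∑ d j m j ≤ 0`, where `v b = v ϖ ^ m₀`, `m₀ ≥ - n`, and `m j ≥ k j`. (`b ≠ 0`.) -/
def S_Pfo : Prop :=
  (∀ (p : ℕ) [Fact p.Prime] (K : Type) [Field K] [CharP K p], GFld p K → ∀ (J : Type) [Fintype J]
    (av : J → AbsoluteValue K ℝ) (d : J → ℕ) (ϖ : J → K), Fml p av d ϖ → ∀ (x : K) (m : J → ℤ),
      x ≠ 0 → (∀ j, av j x = av j (ϖ j) ^ m j) →
      ∃ (J' : Type) (_ : Fintype J') (av' : J' → AbsoluteValue K ℝ) (d' : J' → ℕ) (ϖ' : J' → K)
        (m' : J' → ℤ), Fml p (Sum.elim av av') (Sum.elim d d') (Sum.elim ϖ ϖ') ∧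
        (∀ j, av' j x = av' j (ϖ' j) ^ m' j) ∧
        (∀ v : AbsoluteValue K ℝ, v.IsNontrivial → (∀ j, ¬ v.IsEquiv (av j)) →
          (∀ j, ¬ v.IsEquiv (av' j)) → v x = 1) ∧
        ∑ j, (d j : ℤ) * m j + ∑ j, (d' j : ℤ) * m' j = 0) ∧
  ∀ (p : ℕ) [Fact p.Prime] (K : Type) [Field K] [CharP K p], GFld p K →
    ∀ (v : AbsoluteValue K ℝ) (d₀ : ℕ) (ϖ₀ : K), DgV p v d₀ ϖ₀ → ∀ (J : Type) [Fintype J]
    (av : J → AbsoluteValue K ℝ) (d : J → ℕ) (ϖ : J → K), Fml p av d ϖ → (∀ j, ¬ (av j).IsEquiv v) →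
    ∀ (n : ℕ) (k : J → ℕ) (b : K), b ≠ 0 → b ∈ RR v ϖ₀ n → (∀ j, av j b ≤ av j (ϖ j) ^ (k j)) →
      ∑ j, d j * k j ≤ d₀ * n

/-! ### 2. Counting functions -/

/-- **Plc** (60 lines, uses `S_Rt`, `S_Exn`). There are places.

Proof. `F(t)` has a nontrivial absolute value (`MP72W.tAv`), and it has an extension to `K` (`S_Exn`), which is
nontrivial. -/
def S_Plc : Prop :=
  ∀ (p : ℕ) [Fact p.Prime] (K : Type) [Field K] [CharP K p], GFld p K →
    ∃ v : AbsoluteValue K ℝ, v.IsNontrivial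

/-- **Rro** (200 lines, uses `S_Na`, `S_CoK`, `S_Str`, `S_Sml`, `S_Chi`, `S_Pfo`, `S_Dgu`). Riemann-Roch for large degrees.

Proof. `A = OS v`, `K(-n) = {v y ≤ v ϖ₀ ^ (-n)}`. (1) `K = ⋃ (A + K(-n))` (increasing), and `K / (A + K(0))` is finite
(`S_CoK`), so there is `n₀` with `K = A + K(-n₀)`. Let `a₁ = #RR v ϖ₀ n₀` and `g = 2 n₀ d₀ + 1`.
(2) `S_Chi` for the family `{v}`, `n = - N`, `k = N - n₀`, `N ≥ n₀`: `#RR v ϖ₀ N = a₁ p ^ (d₀ (N - n₀))` (both indices are `1`).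
(3) Let `w` be not equivalent to `v`, of degree `d`, `A' = OS {v, w}`, `K'(-N, k) = {v y ≤ v ϖ₀ ^ (-N), w y ≤ w ϖ ^ k}`,
`a'(N, k) = #(A' ∩ K'(-N, k))`, `c'(N, k)` the index of `A' + K'(-N, k)`; for `k ≥ 0` `A' ∩ K'(-N, k) =
{b ∈ RR v ϖ₀ N | w b ≤ w ϖ ^ k}`. `c'(n₀, 0) = 1`: let `y ∈ K`; by weak approximation and strong approximation there is `a'' ∈ A'`
with `w (y - a'') ≤ 1` (`S_Str` for `{v, w}`, `j0 = v`); write `y - a'' = a + z`, `a ∈ A`, `v z ≤ v ϖ₀ ^ (-n₀)`; then `w a ≤ 1`, so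
`w z ≤ 1`. By `S_Chi` (family `{v, w}`) for `N ≥ n₀`, `k ≥ 0`, comparing `(-n₀, 0)` and `(-N, k)` with `(-n₀, k)`:
`a'(N, k) p ^ (d k) = c'(N, k) a₁ p ^ (d₀ (N - n₀))` (from `a'(n₀, 0) c'(n₀, k) = a'(n₀, k) c'(n₀, 0) p ^ (d k)` and
`a'(N, k) c'(n₀, k) = a'(n₀, k) c'(N, k) p ^ (d₀ (N - n₀))`). (4) If `k d + g ≤ N d₀` then `N ≥ 2 n₀`, and (3) for
`N - n₀` gives `a'(N - n₀, k) ≥ a₁ p ^ (d₀ (N - 2 n₀) - d k) > 1` (`a₁ ≥ 1`), so there is `f ≠ 0` in
`A' ∩ K'(-(N - n₀), k) ⊆ A`. For `y ∈ K` let `y / f = a' + z'` with `a' ∈ A'`, `z' ∈ K'(-n₀, 0)`; then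
`y = f a' + f z'`, `f a' ∈ A'`, `f z' ∈ K'(-N, k)`: so `c'(N, k) = 1` and
`a'(N, k) = a₁ p ^ (d₀ (N - n₀) - d k) = a₀ p ^ (N d₀ - k d)` with `a₀ = a₁ / p ^ (d₀ n₀)`. (5) is (2). -/
def S_Rro : Prop :=
  ∀ (p : ℕ) [Fact p.Prime] (K : Type) [Field K] [CharP K p], GFld p K →
    ∀ (v : AbsoluteValue K ℝ) (d₀ : ℕ) (ϖ₀ : K), DgV p v d₀ ϖ₀ →
    (∀ n, (RR v ϖ₀ n).Finite) ∧ ∃ (a₀ : ℝ) (g : ℕ), 0 < a₀ ∧
      (∀ n : ℕ, g ≤ n * d₀ → ((RR v ϖ₀ n).ncard : ℝ) = a₀ * (p : ℝ) ^ (n * d₀)) ∧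
      ∀ (w : AbsoluteValue K ℝ) (d : ℕ) (ϖ : K), DgV p w d ϖ → ¬ w.IsEquiv v → ∀ n k : ℕ,
        k * d + g ≤ n * d₀ →
        ({b | b ∈ RR v ϖ₀ n ∧ w b ≤ w ϖ ^ k}.ncard : ℝ) = a₀ * (p : ℝ) ^ (n * d₀ - k * d)

/-- **Dgs** (120 lines, uses `S_Na`, `S_Sml`, `S_Pfo`, `S_Plc`, `S_Dgu`). The number of the places of a given degree.

Proof. Let `v` be a place (`S_Plc`), of degree `d₀`, `x ∈ OS v` with `v x > 1` (`S_Sml`), `v x = v ϖ₀ ^ (-e)`. For a
family of places of the same degree `m` which are not equivalent to `v`: `y = x ^ (p ^ m) - x ≠ 0` (`v y = (v x) ^ (p ^ m)`) is in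
`RR v ϖ₀ (e p ^ m)` and `av j y < 1` (`LF.frob`, `av j x ≤ 1`), so `av j y ≤ av j (ϖ j) ^ 1`. `S_Pfo` (2) with `k = 1`:
`∑ d j ≤ d₀ e p ^ m`. A place equivalent to `v` adds at most `d₀` (at most one such place). `C = d₀ e + d₀`. -/
def S_Dgs : Prop :=
  ∀ (p : ℕ) [Fact p.Prime] (K : Type) [Field K] [CharP K p], GFld p K →
    ∃ C : ℕ, ∀ (m : ℕ) (J : Type) [Fintype J] (av : J → AbsoluteValue K ℝ) (d : J → ℕ) (ϖ : J → K),
      Fml p av d ϖ → (∀ j, d j = m) → ∑ j, d j ≤ C * p ^ m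

/-- **Upp** (200 lines, uses `S_Na`, `S_Plc`, `S_Pfo`, `S_Rro`, `S_Dgs`, `S_Dgu`). MERTENS' THEOREM, upper bound.

Proof. Let `v`, `d₀`, `ϖ₀`, `a₀`, `g` be as in `S_Rro`, `C₁` as in `S_Dgs`. It suffices to consider families without a place
equivalent to `v` (the others add at most `1`: `d ≤ p ^ d`). Let `N ≥ 1` and `n` the smallest number with `n d₀ ≥ N + g`, so
`n d₀ ≤ N + g + d₀`; `B = RR v ϖ₀ n`, `#B = a₀ p ^ (n d₀)`. For every `j` `#{b ∈ B | av j b ≤ av j (ϖ j) ^ 1} = #B / p ^ (d j)`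
(`S_Rro`, `k = 1`, `d j + g ≤ n d₀`). Count the pairs `(b, j)`, `b ∈ B`, `b ≠ 0`, `av j b ≤ av j (ϖ j)`, with the weight `d j`: for
fixed `b` the sum is at most `n d₀` (`S_Pfo` (2), with the subfamily of these `j`). So
`∑_j d j (#B / p ^ (d j) - 1) ≤ n d₀ #B`, and `∑_j d j / p ^ (d j) ≤ n d₀ + ∑ d j / #B`. `∑ d j ≤ ∑_{m ≤ N} C₁ p ^ m ≤ 2 C₁ p ^ N`
(`S_Dgs` for the subfamilies of degree `m`) and `#B ≥ a₀ p ^ N`. So `C = g + d₀ + 2 C₁ / a₀ + 1` works. -/
def S_Upp : Prop :=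
  ∀ (p : ℕ) [Fact p.Prime] (K : Type) [Field K] [CharP K p], GFld p K →
    ∃ C : ℝ, ∀ (N : ℕ) (J : Type) [Fintype J] (av : J → AbsoluteValue K ℝ) (d : J → ℕ) (ϖ : J → K),
      Fml p av d ϖ → (∀ j, d j ≤ N) → ∑ j, (d j : ℝ) / (p : ℝ) ^ (d j) ≤ N + C

/-- **Low** (300 lines, uses `S_Na`, `S_Plc`, `S_Pfo`, `S_Rro`, `S_Dgs`, `S_Dgu`). MERTENS' THEOREM, lower bound.

Proof. Let `v`, `d₀`, `ϖ₀`, `a₀`, `g` be as in `S_Rro` (we may assume `g ≥ 1`), `C₁` as in `S_Dgs`. It suffices to prove the claim for `N = n d₀`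
with `N ≥ g` (for other `N` take the largest multiple of `d₀` below `N`; small `N` by the choice of `C`).
`B = RR v ϖ₀ n`, `#B = a₀ p ^ N`. Let `av` be the finite family of all places (up to equivalence), not equivalent to
`v`, with `av j b < 1` for some `b ≠ 0` in `B` (`S_Pfo` (1) for every `b`, and choose representatives); `d j ≤ N` by `S_Pfo` (2).
(1) For `b ≠ 0` in `B` with `v b = v ϖ₀ ^ (- s)`: `∑_j d j ord_j(b) = s d₀` (`S_Pfo` (1): the places with `b` not a unit are `v`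
and among the `av j`). `s ≥ 0`, and the number of the `b` with `s ≤ n - i` is at most `#RR v ϖ₀ (n - i)`, which is at most
`a₀ p ^ ((n - i) d₀)` if `(n - i) d₀ ≥ g` and at most `a₀ p ^ (g + d₀)` otherwise (monotone in `n`). So
`∑_{b ≠ 0} (n - s) = ∑_{i ≥ 1} #{b ≠ 0 | s ≤ n - i} ≤ #B * ∑_{i ≥ 1} p ^ (-i d₀) + n a₀ p ^ (g + d₀) ≤ C₂ #B`
(`n ≤ p ^ (n d₀)`, so the last term is at most `p ^ (g + d₀) #B`), and
`∑_{b ≠ 0} ∑_j d j ord_j(b) ≥ d₀ n (#B - 1) - d₀ C₂ #B ≥ (N - C₃) #B`.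
(2) `∑_{b ≠ 0} ord_j(b) = ∑_{k ≥ 1} #{b ≠ 0 in B | av j b ≤ av j (ϖ j) ^ k}`, `k d j ≤ N` or the set is empty (`S_Pfo` (2)). The
cardinality of `{b ∈ B | av j b ≤ av j (ϖ j) ^ k}` is `#B p ^ (- k d j)` if `k d j + g ≤ N` (`S_Rro`), and in general it is at most
`C₄ #B p ^ (- k d j)`, `C₄ = p ^ (g + d₀)` (replace `n` by `n + t` with `g ≤ t d₀ ≤ g + d₀`; `k d j ≤ N`). So
`∑_{b ≠ 0} ∑_j d j ord_j(b) ≤ #B ∑_j d j / p ^ (d j) + #B C₄ ∑_{N - g < d j ≤ N} d j / p ^ (d j) + #B C₄ ∑_j ∑_{k ≥ 2} d j p ^ (- k d j)`.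
By `S_Dgs` for every degree `m` `∑_{d j = m} d j / p ^ (d j) ≤ C₁`, so the second sum is at most `g C₁`, and the third is at
most `∑_m C₁ p ^ m ∑_{k ≥ 2} p ^ (- k m) ≤ ∑_m 2 C₁ p ^ (- m) ≤ 2 C₁`. So `∑_j d j / p ^ (d j) ≥ N - C`. -/
def S_Low : Prop :=
  ∀ (p : ℕ) [Fact p.Prime] (K : Type) [Field K] [CharP K p], GFld p K →
    ∃ C : ℝ, ∀ N : ℕ, ∃ (m : ℕ) (av : Fin m → AbsoluteValue K ℝ) (d : Fin m → ℕ) (ϖ : Fin m → K),
      Fml p av d ϖ ∧ (∀ j, d j ≤ N) ∧ N - C ≤ ∑ j, (d j : ℝ) / (p : ℝ) ^ (d j)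

/-! ### 3. Places which do not split -/

/-- **Lft** (200 lines, uses `S_Na`). The places above a place which splits completely.

Proof. Let `s : L → K_v` be the embedding, `w₀ y = ‖s y‖`, an absolute value above `v` (`rsa K w₀ = v`), and
`w_g y = w₀ (g y)` for `g ∈ Gal(L/K)`. (1) For `y ∈ L` and `ε > 0` there is `x ∈ K` with `w₀ (y - x) < ε` (`K` is dense in `K_v`); also
for every `w_g`: apply it to `g y`, `w_g (y - x) = w₀ (g y - x)`. (2) The `w_g` are pairwise not equivalent: let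
`w_g ~ w_g'`; both restrict to `v` on `K`, so they are equal (a power with exponent `1`, `v` nontrivial). Let `y ∈ L`,
`x_n ∈ K` with `w_g (y - x_n) → 0`; `w₀ (g y - x_n) → 0` and `w₀ (g' y - x_n) → 0`, so `g y = g' y`; so `g = g'`. (3) the degree:
`DgV p w_g d ϖ` (`ϖ ∈ K`, `R ⊆ K` mapped to `L`): every property of `LF` for `w_g` follows from density: `disc`: `w_g y = w_g x = v x`
for `x ∈ K` near `y ≠ 0`; `cov`, `frob`: for `w_g y ≤ 1` choose `x ∈ K` with `w_g (y - x) < 1`, `v x ≤ 1`;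
`y ^ Q - y = (x ^ Q - x) + ((y - x) ^ Q - (y - x))`. The number of the `g` is `[L : K]`; enumerate by `Fin`. -/
def S_Lft : Prop :=
  ∀ (p : ℕ) [Fact p.Prime] (K L : Type) [Field K] [Field L] [Algebra K L]
    [FiniteDimensional K L] [IsGalois K L] [CharP K p] (v : AbsoluteValue K ℝ) (d : ℕ) (ϖ : K),
    DgV p v d ϖ → Nonempty (L →ₐ[K] v.Completion) →
    ∃ w : Fin (Module.finrank K L) → AbsoluteValue L ℝ, Pls w ∧ (∀ i, rsa K (w i) = v) ∧
      ∀ i, DgV p (w i) d (algebraMap K L ϖ)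

/-- **Gfl** (60 lines). A finite separable extension of a global function field is a global function
field.

Proof. Towers: `L / F(t)` is finite and separable (`FiniteDimensional.trans`, `Algebra.IsSeparable.trans`) with the
algebra structure by composition. -/
def S_Gfl : Prop :=
  ∀ (p : ℕ) [Fact p.Prime] (K L : Type) [Field K] [Field L] [Algebra K L]
    [FiniteDimensional K L] [Algebra.IsSeparable K L], GFld p K → GFld p L

/-- **Nsp** (120 lines, uses `S_Upp`, `S_Low`, `S_Lft`, `S_Gfl`, `S_Dgu`). (N7) A PLACE WHICH DOES NOT SPLIT COMPLETELY.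

Proof. Suppose not: `L` embeds in `v.Completion` for all nontrivial `v` not equivalent to a `T i`. Let
`m = [L : K] ≥ 2`. Let `N` be large, `av`, `d`, `ϖ` the family of `S_Low` for `K`, and `J₀` the indices for which `av j` is
not equivalent to a `T i`; the sum over the other indices is at most `#I` (every `T i` is equivalent to at most one `av j`,
and `d / p ^ d ≤ 1`). By `S_Lft` the places of `L` above the `av j`, `j ∈ J₀`, form a family indexed by `J₀ × Fin m`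
(a `Fml`: places above different `av j` are not equivalent as their restrictions are not) with the same degrees, so by `S_Upp` for
`L` (`S_Gfl`) `m (N - C - #I) ≤ N + C'` for all `N`, a contradiction as `m ≥ 2`. -/
def S_Nsp : Prop :=
  ∀ (p : ℕ) [Fact p.Prime] (K L : Type) [Field K] [Field L] [Algebra K L]
    [FiniteDimensional K L] [IsGalois K L] [CharP K p], GFld p K → Module.finrank K L ≠ 1 →
    ∀ (I : Type) [Finite I] (T : I → AbsoluteValue K ℝ), ∃ v : AbsoluteValue K ℝ, v.IsNontrivial ∧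
      (∀ i, ¬ v.IsEquiv (T i)) ∧ IsEmpty (L →ₐ[K] v.Completion)

/-- **Nom** (100 lines, uses `S_Nsp`). A place at which `h` is not a `(p - 1)`-st power.

Proof. If `α ∈ Ks` with `α ^ (p - 1) = h` is not in `K`, then `L = K⟮α⟯` is Galois over `K` (it contains all roots `c α` of the
separable polynomial `X ^ (p - 1) - h`, `c` in the prime field) of degree `≠ 1`. Let `v` be as in `S_Nsp`. If there were
`y ∈ v.Completion` with `y ^ (p - 1) = h`, then all roots `c y` of `X ^ (p - 1) - h` would be in `v.Completion`, and the minimal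
polynomial of `α`, a divisor, would have a root there, which gives an embedding of `L`. -/
def S_Nom : Prop :=
  ∀ (p : ℕ) [Fact p.Prime] (K : Type) [Field K] [CharP K p], GFld p K → ∀ h : K, h ≠ 0 →
    (∀ y : K, y ^ (p - 1) ≠ h) → ∀ (I : Type) [Finite I] (T : I → AbsoluteValue K ℝ),
    ∃ v : AbsoluteValue K ℝ, v.IsNontrivial ∧ (∀ i, ¬ v.IsEquiv (T i)) ∧
      ∀ y : v.Completion, y ^ (p - 1) ≠ algebraMap K v.Completion h

/-- **Nph** (200 lines, uses `S_Nsp`, `S_Gfl`). A place at which `f` is not of the form `x ^ p - h x`.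

Proof. Let `Ks = SeparableClosure K`, `α ∈ Ks` with `α ^ (p - 1) = h`, `θ ∈ Ks` with `θ ^ p - h θ = f` (separable
polynomials), `M = K⟮α⟯`, Galois over `K` of degree `e` prime to `p` (`e ≤ p - 1`; if `p = 2` then `M = K`), `L = M⟮θ⟯`.
(1) `θ ∉ M`: otherwise `x = (1 / e) tr_{M/K}(θ) ∈ K` satisfies `x ^ p - h x = f` (`σ θ` is a root of the same
equation for every `σ ∈ Gal(M/K)`, `(1/e) ^ p = 1/e`). (2) `L / M` is Galois (the roots of `X ^ p - h X - f` are `θ + c α`) of degree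
`≠ 1`. `M` is a global function field (`S_Gfl`). Let `T'` be the finite family of all places of `M` above the `T i` (up to
equivalence, `S_Abv`; the trivial `T i` can be omitted), and `w` a place of `M` as in `S_Nsp` for `L / M`, `T'`. `v = rsa K w` is nontrivial (`S_Ntr`) and
not equivalent to a `T i`. Suppose `x ^ p - h x = f` has a solution in `v.Completion`. The inclusion `K → M` extends to
`v.Completion → w.Completion` (isometric for `v = rsa K w`; `AbsoluteValue.Completion`, extension of uniformly continuous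
maps, or `UniformSpace.Completion.mapRingHom`), so there is a solution `x` in `w.Completion`; `α ∈ M`, so all `x + c α` are in
`w.Completion`: `X ^ p - h X - f` splits, and `L = M⟮θ⟯` embeds over `M`: a contradiction. -/
def S_Nph : Prop :=
  ∀ (p : ℕ) [Fact p.Prime] (K : Type) [Field K] [CharP K p], GFld p K → ∀ h f : K, h ≠ 0 →
    (∀ x : K, Ph p h x ≠ f) → ∀ (I : Type) [Finite I] (T : I → AbsoluteValue K ℝ),
    ∃ v : AbsoluteValue K ℝ, v.IsNontrivial ∧ (∀ i, ¬ v.IsEquiv (T i)) ∧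
      ∀ y : v.Completion, Ph p (algebraMap K v.Completion h) y ≠ algebraMap K v.Completion f

/-- **Sha** (200 lines, uses `S_Na`, `S_Str`, `S_Den`, `S_Phl`, `S_Eul`, `S_Nph`). Sha vanishes for large `S`.

Proof. `ShN / PhN` for the family `av` is finite (`S_Eul`); let `f_1, .., f_r ∈ ShN` be representatives of the nonzero
classes. `f_i` is not in `P_h(K)` (if `f_i = P_h(x)`, `x ∈ K`, then `v x ≤ 1` for all `v` not equivalent to an `av j`:
otherwise `v (x ^ p) > v (h x)` and `v f_i > 1`; so `x ∈ A`). By `S_Nph` there are places `v_1, v_2, ..` (one after the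
other), not equivalent to each other and to the `av j`, such that `f_i ∉ P_h` in the completion at `v_i`. `J₀ = J ⊕ Fin r`.
Let `av₁` be a larger family (`s` an injection of the indices with equivalent absolute values), `g ∈ ShN` for `av₁`:
`g = P_h(y_k)` in the completion at `av₁ k`. Let `y ∈ OS av₁` be near `y_k` for all `k` which do not come from `J`
(`S_Str` for `av₁` with `j0` the image of an element of `J`, and `S_Den`), with `‖y - y_k‖` so small that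
`‖P_h(y - y_k)‖ ≤ 1`. `g' = g - P_h(y) ∈ OS av₁` and `v g' ≤ 1` for these places, so `g' ∈ OS av`; `g' ∈ P_h` locally at all
`av₁ k`. So `g' ∈ ShN` for `av`: `g' = f_i + P_h(a)` or `g' = P_h(a)`, `a ∈ OS av`; the first is impossible as `f_i` would be in
`P_h` at `v_i` (equivalent absolute values have isomorphic completions; to avoid this choose the statement below with
equality `av₁ (s j) = av₀ j`). So `g = P_h(y + a)`. -/
def S_Sha : Prop :=
  ∀ (p : ℕ) [Fact p.Prime] (K : Type) [Field K] [CharP K p], GFld p K →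
    ∀ (J : Type) [Fintype J] [Nonempty J] (av : J → AbsoluteValue K ℝ), Pls av → ∀ h : K, h ≠ 0 →
    (∀ v : AbsoluteValue K ℝ, v.IsNontrivial → (∀ j, ¬ v.IsEquiv (av j)) → v h = 1) →
    ∃ (r : ℕ) (av₀ : J ⊕ Fin r → AbsoluteValue K ℝ), Pls av₀ ∧ (∀ j, av₀ (Sum.inl j) = av j) ∧
      ∀ (J₁ : Type) [Fintype J₁] (av₁ : J₁ → AbsoluteValue K ℝ) (s : J ⊕ Fin r → J₁), Pls av₁ →
        (∀ j, av₁ (s j) = av₀ j) → ShN p av₁ h = PhN p av₁ h

end Pool.Agent.MP72P
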