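import Pool.Agent.Lib.MP_72e2e6_nt.P3.N2.Spec
import Pool.Agent.Lib.MP_72e2e6_nt.P3.R.SpecB

/-!
# MP_72e2e6_nt, theorem T3p, block N2, part B: the product formula for part R, existence of the set `S₀`

The proofs are complete in the docstrings; every module is independent (used statements are
hypotheses): file `P3/N2/<Name>.lean` (import this file only) with `theorem t<Name> : S_<Name>` or
`theorem t<Name> (h1 : S_X) (h2 : S_Y) .. : S_<Name>` (in the order of the docstring), namespace
`Pool.Agent.MP72P`, other declarations `private`. All types are in `Type`.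

**PF** (100 lines, uses `S_Dgu`, `S_Pfo`). The statement `S_PF` of `P3/R/SpecB.lean`: file `P3/N2/PF.lean`,
`theorem tPF (h1 : S_Dgu) (h2 : S_Pfo) : S_PF`.

Proof. `K` has characteristic `p` (`GFld`: `F` has, and `K` is an algebra over `RatFunc F`). By `LF.qp` `Q j = p ^ r j`, so the
`av j` form a `Fml` with the degrees `r j` and the uniformizers `ϖ j`. Apply `S_Pfo` (1) with `m = y`: the family
`av'`, `d'`, `ϖ'`, `m'`; `Q' i = p ^ d' i`, `R' i` from `DgV`. The non-equivalence is `Pls` for `Sum.elim`. The product is `p` to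
the power `∑ r j * y j + ∑ d' i * m' i = 0`.
-/

namespace Pool.Agent.MP72P

/-- **Eqv** (80 lines). Equivalent absolute values have isomorphic completions.

Proof. The identity of `K` is uniformly continuous from `WithAbs v` to `WithAbs v'` (`v' x = v x ^ c` with `c > 0`, or Mathlib's
lemmas about `AbsoluteValue.IsEquiv`, `WithAbs.equivWithAbs`), so it extends to a ring homomorphism of the
completions (`UniformSpace.Completion.mapRingHom`), which is the identity on `K`. -/
def S_Eqv : Prop :=
  ∀ (K : Type) [Field K] (v v' : AbsoluteValue K ℝ), v.IsEquiv v' →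
    Nonempty (v.Completion →ₐ[K] v'.Completion)

/-- **S0x** (150 lines, uses `S_Alm`, `S_Dgu`, `S_Pfo`, `S_Plc`, `S_Nom`, `S_Sha`, `S_Eqv`). The set `S₀`.

Proof. Let `av₁` be the family of `S_Alm` for `x = h` (contains all places with `v h ≠ 1`). If `h` is not a `(p - 1)`-st
power in `K` add a place of `S_Nom` (with `T = av₁`). If there are less than `2` places in the family, add one or two: a
place `v` exists by `S_Plc`, and for every place `v` there is another one (`S_Pfo` (1) for the family `{v}` and `x = ϖ`, `m = 1`: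
`d + ∑ d' m' = 0` with `d ≥ 1`, so `J'` is not
empty). Apply `S_Sha` to the result: `av₀` on `J ⊕ Fin r`, indexed by some `Fin m` (`Fintype.equivFin`). Let `av` contain
`av₀` up to equivalence, `s : Fin m → J`, `(av (s i)).IsEquiv (av₀ i)`; `s` is injective as `Pls av₀`. Let `av'` be `av`
with the values at `s i` replaced by `av₀ i`; `Pls av'`; `OS av' = OS av`; by `S_Sha` `ShN p av' h = PhN p av' h`, and
`PhN p av' h = PhN p av h`, `ShN p av h = ShN p av' h` (`S_Eqv`: a solution `y` in one completion is mapped to a solution in the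
other). The last property: `y ^ (p - 1) = h` in `(av (s i)).Completion` is mapped to `(av₀ i).Completion` (`S_Eqv`). -/
def S_S0x : Prop :=
  ∀ (p : ℕ) [Fact p.Prime] (K : Type) [Field K] [CharP K p], GFld p K → ∀ h : K, h ≠ 0 →
    ∃ (m : ℕ) (av₀ : Fin m → AbsoluteValue K ℝ), Pls av₀ ∧
      ∀ (J : Type) [Fintype J] (av : J → AbsoluteValue K ℝ), Pls av →
        (∀ i, ∃ j, (av j).IsEquiv (av₀ i)) →
        2 ≤ Fintype.card J ∧
        (∀ v : AbsoluteValue K ℝ, v.IsNontrivial → (∀ j, ¬ v.IsEquiv (av j)) → v h = 1) ∧
        ShN p av h = PhN p av h ∧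
        ((∀ y : K, y ^ (p - 1) ≠ h) →
          ∃ j, ∀ y : (av j).Completion, y ^ (p - 1) ≠ algebraMap K (av j).Completion h)

end Pool.Agent.MP72P
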