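import Pool.Agent.Lib.MP_72e2e6_nt.P3.N2.Spec

/-!
# MP_72e2e6_nt, theorem T3p, block N2, Chi: the Euler characteristic of balls (helper66)
-/

set_option autoImplicit false

namespace Pool.Agent.MP72P

/-- The abstract computation. -/
private theorem chi_abs {G : Type} [AddCommGroup G] (A Kn Km : AddSubgroup G) (hle : Km ≤ Kn)
    (P : ℕ) (h : Km.relIndex Kn = P) :
    Nat.card ↥(A ⊓ Kn) * (A ⊔ Km).index = Nat.card ↥(A ⊓ Km) * (A ⊔ Kn).index * P := by
  have h1 : (A ⊔ Km).relIndex (A ⊔ Kn) * (A ⊔ Kn).index = (A ⊔ Km).index :=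
    AddSubgroup.relIndex_mul_index (sup_le_sup_left hle A)
  have h2 : (A ⊔ Km).relIndex (A ⊔ Kn) = (A ⊔ Km).relIndex Kn := by
    have h3 : A ⊔ Kn = Kn ⊔ (A ⊔ Km) := by
      rw [sup_comm Kn, sup_assoc, sup_eq_right.2 hle]
    rw [h3, AddSubgroup.relIndex_sup_right]
  have h4 : (A ⊔ Km).relIndex Kn = (Km ⊔ A ⊓ Kn).relIndex Kn := by
    rw [← AddSubgroup.inf_relIndex_right, sup_comm A Km, sup_inf_assoc_of_le A hle]
  have h5 : Km.relIndex (Km ⊔ A ⊓ Kn) * (Km ⊔ A ⊓ Kn).relIndex Kn = Km.relIndex Kn :=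
    AddSubgroup.relIndex_mul_relIndex _ _ _ le_sup_left (sup_le hle inf_le_right)
  have h6 : Km.relIndex (Km ⊔ A ⊓ Kn) = (A ⊓ Km).relIndex (A ⊓ Kn) := by
    rw [AddSubgroup.relIndex_sup_left, ← AddSubgroup.inf_relIndex_right]
    congr 1
    rw [inf_comm, inf_assoc, inf_eq_right.2 hle]
  have h7 : Nat.card ↥(A ⊓ Km) * (A ⊓ Km).relIndex (A ⊓ Kn) = Nat.card ↥(A ⊓ Kn) := by
    rw [← AddSubgroup.relIndex_bot_left, ← AddSubgroup.relIndex_bot_left]
    exact AddSubgroup.relIndex_mul_relIndex _ _ _ bot_le (inf_le_inf_left A hle)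
  rw [← h1, h2, h4, ← h, ← h5, h6, ← h7]
  ring

/-- **Chi**. The Euler characteristic of balls. -/
theorem tChi (na : S_Na) (cok : S_CoK) (fik : S_FiK) (idx : S_Idx) : S_Chi := by
  classical
  intro p _ K _ _ hK J _ av d ϖ hF n
  have hr : ∀ j, 0 < av j (ϖ j) ^ n j := fun j => by
    obtain ⟨_, R, h⟩ := hF.dg j
    exact zpow_pos h.pi0 _
  refine ⟨?_, ?_, ?_⟩
  · obtain ⟨B, hB⟩ : ∃ B : ℝ, ∀ j, av j (ϖ j) ^ n j ≤ B := by
      obtain ⟨B, hB⟩ := (Set.finite_range fun j => av j (ϖ j) ^ n j).bddAbove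
      exact ⟨B, fun j => hB ⟨j, rfl⟩⟩
    refine ((fik p K hK J av hF.pls B).subset ?_).to_subtype
    rintro f ⟨hf1, hf2⟩
    refine ⟨hf1, fun j => ?_⟩
    have h1 := hf2 j (na p K (av j))
    rw [abs_of_pos (hr j)] at h1
    exact h1.trans (hB j)
  · obtain ⟨ε, hε, hε2⟩ : ∃ ε : ℝ, 0 < ε ∧ ∀ j, ε ≤ av j (ϖ j) ^ n j := by
      rcases isEmpty_or_nonempty J with hJ | hJ
      · exact ⟨1, one_pos, fun j => hJ.elim j⟩
      · obtain ⟨j, hj⟩ := Finite.exists_min fun j => av j (ϖ j) ^ n j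
        exact ⟨_, hr j, hj⟩
    obtain ⟨X, hX, hco⟩ := cok p K hK J av hF.pls ε hε
    have hXf : Finite X := hX
    have hfin : Finite (K ⧸ (OSA av ⊔ BlZ av ϖ n)) := by
      refine Finite.of_surjective
        (fun s : X => (QuotientAddGroup.mk (s : K) : K ⧸ (OSA av ⊔ BlZ av ϖ n))) ?_
      intro q
      induction q using QuotientAddGroup.induction_on with
      | H x =>
        obtain ⟨s, hs, a, ha, hz⟩ := hco x
        refine ⟨⟨s, hs⟩, ?_⟩
        refine QuotientAddGroup.eq.2 ?_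
        have h1 : -s + x = a + (x - s - a) := by ring
        change -s + x ∈ _
        rw [h1]
        refine add_mem ((le_sup_left : OSA av ≤ _) ha) ((le_sup_right : BlZ av ϖ n ≤ _) ?_)
        intro j _
        rw [abs_of_pos (hr j)]
        exact (hz j).trans (hε2 j)
    exact AddSubgroup.index_ne_zero_of_finite
  · intro k
    obtain ⟨h1, h2⟩ := idx p K J av d ϖ hF n k
    exact chi_abs _ _ _ h1 _ h2

end Pool.Agent.MP72P
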