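import Pool.Agent.Lib.MP_72e2e6_nt.P3.N.Defs

/-!
# MP_72e2e6_nt, theorem T3p, block N2 (counting of places): definitions
-/

namespace Pool.Agent.MP72P

/-- `v` is a place of degree `d` (over the prime field) with the uniformizer `ϖ`. -/
def DgV {K : Type} [Field K] (p : ℕ) (v : AbsoluteValue K ℝ) (d : ℕ) (ϖ : K) : Prop :=
  v.IsNontrivial ∧ ∃ R : Finset K, LF v p (p ^ d) ϖ R

/-- A finite family of places with degrees `d j` and uniformizers `ϖ j`. -/
structure Fml {K : Type} [Field K] (p : ℕ) {J : Type} (av : J → AbsoluteValue K ℝ) (d : J → ℕ)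
    (ϖ : J → K) : Prop where
  pls : Pls av
  dg : ∀ j, DgV p (av j) (d j) (ϖ j)

/-- The ball with the exponents `n j`. -/
noncomputable def BlZ {K : Type} [Field K] {J : Type} (av : J → AbsoluteValue K ℝ) (ϖ : J → K) (n : J → ℤ) :
    AddSubgroup K := Bl av fun j => av j (ϖ j) ^ n j

/-- The functions regular outside the `av j` as an additive group. -/
noncomputable def OSA {K : Type} [Field K] {J : Type} (av : J → AbsoluteValue K ℝ) :
    AddSubgroup K := (OS av).toAddSubgroup

/-- The functions regular outside `v` with a pole of order at most `n` at `v`. -/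
noncomputable def RR {K : Type} [Field K] (v : AbsoluteValue K ℝ) (ϖ : K) (n : ℕ) : Set K :=
  {b | b ∈ OS (fun _ : Unit => v) ∧ v b ≤ v ϖ ^ (-(n : ℤ))}

end Pool.Agent.MP72P
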