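import Pool.Agent.Lib.MP_72e2e6_nt.P3.N2.Spec

/-!
# MP_72e2e6_nt, theorem T3p, block N2: Nph, a place at which `f` is not of the form `x ^ p - h x`
-/

set_option autoImplicit false

namespace Pool.Agent.MP72P

open Polynomial IntermediateField

/-- The map of the completions. -/
private theorem nph_map {K M : Type} [Field K] [Field M] [Algebra K M]
    (w : AbsoluteValue M ℝ) : ∃ φ : (rsa K w).Completion →+* w.Completion, ∀ x : K,
      φ (algebraMap K (rsa K w).Completion x) = algebraMap M w.Completion (algebraMap K M x) := by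
  let f : WithAbs (rsa K w) →+* WithAbs w :=
    ((WithAbs.equiv w).symm : M →+* WithAbs w).comp
      ((algebraMap K M).comp (WithAbs.equiv (rsa K w) : WithAbs (rsa K w) →+* K))
  have hf : Isometry f := AddMonoidHomClass.isometry_of_norm f (fun x => rfl)
  refine ⟨UniformSpace.Completion.mapRingHom f hf.continuous, fun x => ?_⟩
  exact UniformSpace.Completion.mapRingHom_coe hf.continuous (WithAbs.toAbs (rsa K w) x)

private theorem nph_hom (p : ℕ) {A B : Type} [Field A] [Field B] (φ : A →+* B) (h x : A) :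
    φ (Ph p h x) = Ph p (φ h) (φ x) := by
  rw [Ph, Ph, map_sub, map_mul, map_pow]

/-- The trace argument. -/
private theorem nph_trace (p : ℕ) [Fact p.Prime] {K M : Type} [Field K] [Field M] [Algebra K M]
    [FiniteDimensional K M] [Algebra.IsSeparable K M] [CharP K p]
    (hd : ¬ p ∣ Module.finrank K M) (h f : K) (θ : M)
    (hθ : Ph p (algebraMap K M h) θ = algebraMap K M f) : ∃ x : K, Ph p h x = f := by
  have hΩ : CharP (AlgebraicClosure K) p :=
    charP_of_injective_algebraMap (algebraMap K (AlgebraicClosure K)).injective p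
  have h1 : Ph p (algebraMap K (AlgebraicClosure K) h)
      (algebraMap K (AlgebraicClosure K) (Algebra.trace K M θ)) =
      (Module.finrank K M : AlgebraicClosure K) * algebraMap K (AlgebraicClosure K) f := by
    have h2 : ∀ z : AlgebraicClosure K, Ph p (algebraMap K (AlgebraicClosure K) h) z =
        PhA p (algebraMap K (AlgebraicClosure K) h) z := fun z => rfl
    rw [trace_eq_sum_embeddings (AlgebraicClosure K), h2, map_sum]
    have h3 : ∀ σ : M →ₐ[K] AlgebraicClosure K,
        PhA p (algebraMap K (AlgebraicClosure K) h) (σ θ) =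
          algebraMap K (AlgebraicClosure K) f := by
      intro σ
      rw [← h2, ← AlgHom.commutes σ h, ← AlgHom.commutes σ f, ← hθ]
      exact (nph_hom p (σ : M →+* AlgebraicClosure K) _ _).symm
    rw [Finset.sum_congr rfl (fun σ _ => h3 σ), Finset.sum_const, Finset.card_univ,
      AlgHom.card K M (AlgebraicClosure K), nsmul_eq_mul]
  have h4 : Ph p h (Algebra.trace K M θ) = (Module.finrank K M : K) * f := by
    apply (algebraMap K (AlgebraicClosure K)).injective
    rw [nph_hom, h1, map_mul, map_natCast]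
  have he0 : (Module.finrank K M : K) ≠ 0 := by
    rw [Ne, CharP.cast_eq_zero_iff K p]
    exact hd
  have hep : (Module.finrank K M : K) ^ p = Module.finrank K M := by
    rw [← frobenius_def, map_natCast]
  refine ⟨(Module.finrank K M : K)⁻¹ * Algebra.trace K M θ, ?_⟩
  have h5 : Ph p h ((Module.finrank K M : K)⁻¹ * Algebra.trace K M θ) =
      (Module.finrank K M : K)⁻¹ * Ph p h (Algebra.trace K M θ) := by
    rw [Ph, Ph, mul_pow, inv_pow, hep]
    ring
  rw [h5, h4, inv_mul_cancel_left₀ he0]

private noncomputable def nph_pol (p : ℕ) {K : Type} [Field K] (h f : K) : K[X] :=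
  X ^ p - (C h * X + C f)

private theorem nph_deg (p : ℕ) [hp : Fact p.Prime] {K : Type} [Field K] (h f : K) :
    (nph_pol p h f).natDegree = p ∧ (nph_pol p h f).Monic := by
  have h1 : (C h * X + C f : K[X]).degree < ((p : ℕ) : WithBot ℕ) := by
    refine (degree_linear_le).trans_lt ?_
    exact_mod_cast hp.out.one_lt
  have h2 : (nph_pol p h f).Monic := monic_X_pow_sub h1
  have h3 : (nph_pol p h f).degree = p := by
    rw [nph_pol, degree_sub_eq_left_of_degree_lt]
    · exact degree_X_pow p
    · rw [degree_X_pow]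
      exact h1
  exact ⟨natDegree_eq_of_degree_eq_some h3, h2⟩

private theorem nph_eval (p : ℕ) {K : Type} [Field K] (h f x : K) :
    (nph_pol p h f).eval x = Ph p h x - f := by
  rw [nph_pol, Ph, eval_sub, eval_add, eval_mul, eval_C, eval_C, eval_X, eval_pow, eval_X]
  ring

private theorem nph_polmap (p : ℕ) {K M : Type} [Field K] [Field M] (φ : K →+* M) (h f : K) :
    (nph_pol p h f).map φ = nph_pol p (φ h) (φ f) := by
  rw [nph_pol, nph_pol, Polynomial.map_sub, Polynomial.map_add, Polynomial.map_mul,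
    Polynomial.map_pow, map_X, map_C, map_C]

private theorem nph_sep (p : ℕ) [Fact p.Prime] {K : Type} [Field K] [CharP K p] (h f : K)
    (hh : h ≠ 0) : (nph_pol p h f).Separable := by
  have hd : derivative (nph_pol p h f) = C (-h) := by
    rw [nph_pol, derivative_sub, derivative_X_pow, derivative_add, derivative_mul, derivative_C,
      derivative_C, derivative_X, CharP.cast_eq_zero K p, map_neg]
    simp
  rw [separable_def, hd]
  refine ⟨0, C (-h)⁻¹, ?_⟩
  rw [zero_mul, zero_add, ← C_mul, inv_mul_cancel₀ (neg_ne_zero.2 hh), C_1]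

/-- With one root and the `(p - 1)`-st root of `h` the polynomial splits. -/
private theorem nph_splits (p : ℕ) [hp : Fact p.Prime] {E : Type} [Field E] [CharP E p]
    (h f a x : E) (hh : h ≠ 0) (ha : a ^ (p - 1) = h) (hx : Ph p h x = f) :
    (nph_pol p h f).Splits := by
  classical
  have ha0 : a ≠ 0 := by
    rintro rfl
    rw [zero_pow (Nat.sub_ne_zero_of_lt hp.out.one_lt)] at ha
    exact hh ha.symm
  have hap : a ^ p = h * a := by
    rw [← ha, ← pow_succ, Nat.sub_add_cancel hp.out.one_lt.le]
  rw [splits_iff_card_roots]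
  apply le_antisymm (card_roots' _)
  rw [(nph_deg p h f).1]
  let S : Finset E := Finset.univ.image (fun c : ZMod p => x + (ZMod.castHom dvd_rfl E c) * a)
  have hinj : Function.Injective (fun c : ZMod p => x + (ZMod.castHom dvd_rfl E c) * a) := by
    intro c c' hc
    have h1 : (ZMod.castHom dvd_rfl E c) * a = (ZMod.castHom dvd_rfl E c') * a :=
      add_left_cancel hc
    exact (ZMod.castHom dvd_rfl E).injective (mul_right_cancel₀ ha0 h1)
  have hS : S.card = p := by
    simp only [S]
    rw [Finset.card_image_of_injective _ hinj, Finset.card_univ, ZMod.card]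
  have hsub : S ⊆ (nph_pol p h f).roots.toFinset := by
    intro y hy
    obtain ⟨c, -, rfl⟩ := Finset.mem_image.1 hy
    rw [Multiset.mem_toFinset, mem_roots (nph_deg p h f).2.ne_zero, IsRoot.def, nph_eval]
    have hc : (ZMod.castHom dvd_rfl E c) ^ p = ZMod.castHom dvd_rfl E c := by
      rw [← map_pow, ZMod.pow_card]
    have h2 : Ph p h (x + (ZMod.castHom dvd_rfl E c) * a) = Ph p h x := by
      rw [Ph, Ph, add_pow_char, mul_pow, hc, hap]
      ring
    rw [h2, hx, sub_self]
  calc p = S.card := hS.symm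
    _ ≤ (nph_pol p h f).roots.toFinset.card := Finset.card_le_card hsub
    _ ≤ (nph_pol p h f).roots.card := Multiset.toFinset_card_le _

/-- **Nph**. A place at which `f` is not of the form `x ^ p - h x`. -/
theorem tNph (hNsp : S_Nsp) (hGfl : S_Gfl) (hAbv : S_Abv) (hNtr : S_Ntr) : S_Nph := by
  classical
  intro p hp K _ _ hK h f hh hf I _ T
  -- the field `M`
  have hp1 : 0 < p - 1 := Nat.sub_pos_of_lt hp.out.one_lt
  obtain ⟨α, hα⟩ := IsAlgClosed.exists_pow_nat_eq (algebraMap K (AlgebraicClosure K) h) hp1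
  have hαi : IsIntegral K α := (Algebra.IsAlgebraic.isAlgebraic α).isIntegral
  have hroot : aeval α (X ^ (p - 1) - C h : K[X]) = 0 := by
    rw [map_sub, map_pow, aeval_X, aeval_C, hα, sub_self]
  have hdvd : minpoly K α ∣ X ^ (p - 1) - C h := minpoly.dvd K α hroot
  have hn0 : ((p - 1 : ℕ) : K) ≠ 0 := by
    rw [Ne, CharP.cast_eq_zero_iff K p]
    exact Nat.not_dvd_of_pos_of_lt hp1 (Nat.sub_lt hp.out.pos one_pos)
  have hsep : (minpoly K α).Separable := (separable_X_pow_sub_C h hn0 hh).of_dvd hdvd
  have hMs : Algebra.IsSeparable K K⟮α⟯ :=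
    (IntermediateField.isSeparable_adjoin_simple_iff_isSeparable K (AlgebraicClosure K)).2 hsep
  have hMf : FiniteDimensional K K⟮α⟯ := IntermediateField.adjoin.finiteDimensional hαi
  have hMd : ¬ p ∣ Module.finrank K K⟮α⟯ := by
    apply Nat.not_dvd_of_pos_of_lt Module.finrank_pos
    rw [IntermediateField.adjoin.finrank hαi]
    refine (natDegree_le_of_dvd hdvd (monic_X_pow_sub_C h hp1.ne').ne_zero).trans_lt ?_
    rw [natDegree_X_pow_sub_C]
    exact Nat.sub_lt hp.out.pos one_pos
  have hMc : CharP K⟮α⟯ p := charP_of_injective_algebraMap (algebraMap K K⟮α⟯).injective p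
  have hMG : GFld p K⟮α⟯ := hGfl p K K⟮α⟯ hK
  have hhM : algebraMap K K⟮α⟯ h ≠ 0 := (_root_.map_ne_zero _).2 hh
  -- the field `L`
  let P : K⟮α⟯[X] := nph_pol p (algebraMap K K⟮α⟯ h) (algebraMap K K⟮α⟯ f)
  have hPs : P.Separable := nph_sep p _ _ hhM
  have hG : IsGalois K⟮α⟯ P.SplittingField := IsGalois.of_separable_splitting_field hPs
  have hfin : Module.finrank K⟮α⟯ P.SplittingField ≠ 1 := by
    intro h1
    have h2 := IntermediateField.bot_eq_top_iff_finrank_eq_one.2 h1
    obtain ⟨θ, hθ⟩ := (SplittingField.splits P).exists_eval_eq_zero (by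
      rw [degree_map, degree_eq_natDegree (nph_deg p _ _).2.ne_zero, (nph_deg p _ _).1]
      exact_mod_cast hp.out.ne_zero)
    have h3 : θ ∈ (⊥ : IntermediateField K⟮α⟯ P.SplittingField) := by
      rw [h2]
      exact IntermediateField.mem_top
    obtain ⟨θ', rfl⟩ := IntermediateField.mem_bot.1 h3
    rw [eval_map_algebraMap, aeval_algebraMap_apply, map_eq_zero, ← eval_map_algebraMap,
      Algebra.algebraMap_self, Polynomial.map_id, nph_eval, sub_eq_zero] at hθ
    obtain ⟨x, hx⟩ := nph_trace p hMd h f θ' hθ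
    exact hf x hx
  -- the places above the `T i`
  obtain ⟨m, T', -, -, hT'⟩ := hAbv p K K⟮α⟯ {i // (T i).IsNontrivial}
    (fun i => T i.1) (fun i => i.2)
  obtain ⟨w, hw, hwT, hwE⟩ := hNsp p K⟮α⟯ P.SplittingField hMG hfin (Fin m) T'
  refine ⟨rsa K w, hNtr p K K⟮α⟯ w hw, ?_, ?_⟩
  · intro i hi
    have h1 : (T i).IsNontrivial := (hi.isNontrivial_congr).1 (hNtr p K K⟮α⟯ w hw)
    obtain ⟨j, hj⟩ := hT' w ⟨⟨i, h1⟩, hi⟩
    exact hwT j hj
  · intro y hy
    obtain ⟨φ, hφ⟩ := nph_map (K := K) w
    have hcw : CharP w.Completion p :=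
      charP_of_injective_algebraMap (algebraMap K⟮α⟯ w.Completion).injective p
    have h1 : Ph p (algebraMap K⟮α⟯ w.Completion (algebraMap K K⟮α⟯ h)) (φ y) =
        algebraMap K⟮α⟯ w.Completion (algebraMap K K⟮α⟯ f) := by
      rw [← hφ, ← hφ, ← hy, nph_hom]
    have h2 : (algebraMap K⟮α⟯ w.Completion (IntermediateField.AdjoinSimple.gen K α)) ^ (p - 1) =
        algebraMap K⟮α⟯ w.Completion (algebraMap K K⟮α⟯ h) := by
      rw [← map_pow]
      congr 1
      apply Subtype.ext
      exact hα
    have h3 : (P.map (algebraMap K⟮α⟯ w.Completion)).Splits := by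
      have h4 : P.map (algebraMap K⟮α⟯ w.Completion) =
          nph_pol p (algebraMap K⟮α⟯ w.Completion (algebraMap K K⟮α⟯ h))
            (algebraMap K⟮α⟯ w.Completion (algebraMap K K⟮α⟯ f)) := nph_polmap p _ _ _
      rw [h4]
      exact nph_splits p _ _ _ _ ((_root_.map_ne_zero _).2 hhM) h2 h1
    exact hwE.elim (IsSplittingField.lift P.SplittingField P h3)

end Pool.Agent.MP72P
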