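import Pool.Agent.Lib.MP_72e2e6_nt.P3.N2.Spec

/-!
# MP_72e2e6_nt, theorem T3p, block N2: Mertens' theorem, upper bound
-/

namespace Pool.Agent.MP72P

section

variable {p : ℕ} {K : Type} [Field K]

/-- Subfamilies. -/
private theorem upp_sub {J J' : Type} {av : J → AbsoluteValue K ℝ} {d : J → ℕ} {ϖ : J → K}
    (h : Fml p av d ϖ) (s : J' → J) (hs : Function.Injective s) :
    Fml p (fun j => av (s j)) (fun j => d (s j)) (fun j => ϖ (s j)) :=
  ⟨⟨fun j => h.pls.ntr (s j), fun j j' hj => h.pls.inq (s j) (s j') fun h1 => hj (hs h1)⟩,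
    fun j => h.dg (s j)⟩

/-- Sums over the places, sorted by the degree. -/
private theorem upp_fib (C₁ : ℕ)
    (hC₁ : ∀ (m : ℕ) (J : Type) [Fintype J] (av : J → AbsoluteValue K ℝ) (d : J → ℕ) (ϖ : J → K),
      Fml p av d ϖ → (∀ j, d j = m) → ∑ j, d j ≤ C₁ * p ^ m)
    {J : Type} [Fintype J] {av : J → AbsoluteValue K ℝ} {d : J → ℕ} {ϖ : J → K}
    (h : Fml p av d ϖ) (N : ℕ) (hN : ∀ j, d j ≤ N) (φ : ℕ → ℝ) (hφ : ∀ m, 0 ≤ φ m) :
    ∑ j, (d j : ℝ) * φ (d j) ≤ ∑ m ∈ Finset.range (N + 1), ((C₁ : ℝ) * (p : ℝ) ^ m) * φ m := by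
  classical
  rw [← Finset.sum_fiberwise_of_maps_to (s := Finset.univ) (t := Finset.range (N + 1)) (g := d)
    (fun j _ => Finset.mem_range.2 (Nat.lt_succ_of_le (hN j)))]
  refine Finset.sum_le_sum fun m _ => ?_
  have e1 : ∑ j ∈ Finset.univ with d j = m, (d j : ℝ) * φ (d j) =
      ((∑ j ∈ Finset.univ with d j = m, d j : ℕ) : ℝ) * φ m := by
    rw [Nat.cast_sum, Finset.sum_mul]
    refine Finset.sum_congr rfl fun j hj => ?_
    rw [(Finset.mem_filter.1 hj).2]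
  rw [e1]
  refine mul_le_mul_of_nonneg_right ?_ (hφ m)
  have e2 : ∑ j ∈ Finset.univ with d j = m, d j = ∑ j : {j // d j = m}, d j.1 :=
    Finset.sum_subtype _ (fun j => by simp) _
  rw [e2]
  exact_mod_cast hC₁ m {j // d j = m} (fun j => av j.1) (fun j => d j.1) (fun j => ϖ j.1)
    (upp_sub h Subtype.val Subtype.val_injective) (fun j => j.2)

private theorem upp_geo (p : ℕ) (hp : 2 ≤ p) (N : ℕ) :
    ∑ m ∈ Finset.range (N + 1), (p : ℝ) ^ m ≤ 2 * (p : ℝ) ^ N := by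
  have hp' : (2 : ℝ) ≤ p := by exact_mod_cast hp
  induction N with
  | zero => simp
  | succ N ih =>
    rw [Finset.sum_range_succ]
    have h1 : 2 * (p : ℝ) ^ N ≤ (p : ℝ) ^ (N + 1) := by
      rw [pow_succ']
      exact mul_le_mul_of_nonneg_right hp' (by positivity)
    linarith

end

/-- The bound for families without a place equivalent to `v`. -/
private theorem upp_main (pfo : S_Pfo) (p : ℕ) [Fact p.Prime] (K : Type) [Field K] [CharP K p]
    (hG : GFld p K) (v : AbsoluteValue K ℝ) (d₀ : ℕ) (ϖ₀ : K) (hv : DgV p v d₀ ϖ₀) (hd₀ : 1 ≤ d₀)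
    (hfin : ∀ n, (RR v ϖ₀ n).Finite) (a₀ : ℝ) (g : ℕ) (ha₀ : 0 < a₀)
    (h1 : ∀ n : ℕ, g ≤ n * d₀ → ((RR v ϖ₀ n).ncard : ℝ) = a₀ * (p : ℝ) ^ (n * d₀))
    (h2 : ∀ (w : AbsoluteValue K ℝ) (d : ℕ) (ϖ : K), DgV p w d ϖ → ¬ w.IsEquiv v → ∀ n k : ℕ,
        k * d + g ≤ n * d₀ →
        ({b | b ∈ RR v ϖ₀ n ∧ w b ≤ w ϖ ^ k}.ncard : ℝ) = a₀ * (p : ℝ) ^ (n * d₀ - k * d))
    (C₁ : ℕ) (hC₁ : ∀ (m : ℕ) (J : Type) [Fintype J] (av : J → AbsoluteValue K ℝ) (d : J → ℕ)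
      (ϖ : J → K), Fml p av d ϖ → (∀ j, d j = m) → ∑ j, d j ≤ C₁ * p ^ m)
    (N : ℕ) (J : Type) [Fintype J] (av : J → AbsoluteValue K ℝ) (d : J → ℕ) (ϖ : J → K)
    (hF : Fml p av d ϖ) (hN : ∀ j, d j ≤ N) (hne : ∀ j, ¬ (av j).IsEquiv v) :
    ∑ j, (d j : ℝ) / (p : ℝ) ^ (d j) ≤ N + (g + d₀ + 2 * C₁ / a₀) := by
  classical
  have hp2 : 2 ≤ p := (Fact.out : p.Prime).two_le
  have hp : (0 : ℝ) < p := by exact_mod_cast (by omega : 0 < p)
  -- the number `n`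
  obtain ⟨n, hn1, hn2⟩ : ∃ n : ℕ, N + g ≤ n * d₀ ∧ n * d₀ ≤ N + g + d₀ := by
    refine ⟨(N + g) / d₀ + 1, ?_, ?_⟩
    · have := Nat.lt_div_mul_add (a := N + g) (b := d₀) (by omega)
      rw [add_mul, one_mul]
      omega
    · have := Nat.div_mul_le_self (N + g) d₀
      rw [add_mul, one_mul]
      omega
  set B : Finset K := (hfin n).toFinset with hB
  have hBmem : ∀ b, b ∈ B ↔ b ∈ RR v ϖ₀ n := fun b => by rw [hB, Set.Finite.mem_toFinset]
  have hBc : (B.card : ℝ) = a₀ * (p : ℝ) ^ (n * d₀) := by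
    rw [← h1 n (by omega), Set.ncard_eq_toFinset_card _ (hfin n)]
  have h0B : (0 : K) ∈ B := by
    rw [hBmem]
    refine ⟨zero_mem _, ?_⟩
    rw [map_zero]
    exact zpow_nonneg (v.nonneg _) _
  -- the values at the places of the family
  have hint : ∀ b ∈ B, ∀ j, av j b ≤ 1 := by
    intro b hb j
    obtain ⟨hj1, R, hR⟩ := hF.dg j
    exact ((hBmem b).1 hb).1 (av j) hj1 hR.na fun _ => hne j
  -- the count at a place
  have hcnt : ∀ j, ((B.filter fun b => av j b ≤ av j (ϖ j)).card : ℝ) =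
      B.card / (p : ℝ) ^ (d j) := by
    intro j
    have h3 := h2 (av j) (d j) (ϖ j) (hF.dg j) (hne j) n 1 (by have := hN j; omega)
    have e1 : {b | b ∈ RR v ϖ₀ n ∧ av j b ≤ av j (ϖ j) ^ 1} =
        ((B.filter fun b => av j b ≤ av j (ϖ j) : Finset K) : Set K) := by
      ext b
      simp [hBmem]
    rw [e1, Set.ncard_coe_finset] at h3
    have h4 : (p : ℝ) ^ (d j) ≠ 0 := by positivity
    have h5 : n * d₀ - d j + d j = n * d₀ := by
      have := hN j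
      omega
    rw [h3, hBc, one_mul, eq_div_iff h4, mul_assoc, ← pow_add, h5]
  -- double counting
  have hdc : ∑ j, (d j : ℝ) * (((B.filter fun b => av j b ≤ av j (ϖ j)).card : ℝ) - 1) ≤
      B.card * (n * d₀ : ℕ) := by
    have e1 : ∀ j, ((B.filter fun b => av j b ≤ av j (ϖ j)).card : ℝ) - 1 =
        ∑ b ∈ B.erase 0, if av j b ≤ av j (ϖ j) then (1 : ℝ) else 0 := by
      intro j
      have e2 : ((B.filter fun b => av j b ≤ av j (ϖ j)).card : ℝ) =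
          ∑ b ∈ B, if av j b ≤ av j (ϖ j) then (1 : ℝ) else 0 := by
        rw [Finset.sum_ite, Finset.sum_const_zero, add_zero, Finset.sum_const, nsmul_eq_mul, mul_one]
      rw [e2, ← Finset.add_sum_erase _ _ h0B, map_zero, if_pos ((av j).nonneg _)]
      ring
    have e3 : ∑ j, (d j : ℝ) * (((B.filter fun b => av j b ≤ av j (ϖ j)).card : ℝ) - 1) =
        ∑ b ∈ B.erase 0, ∑ j, (d j : ℝ) * (if av j b ≤ av j (ϖ j) then (1 : ℝ) else 0) := by
      rw [Finset.sum_comm]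
      refine Finset.sum_congr rfl fun j _ => ?_
      rw [e1 j, Finset.mul_sum]
    rw [e3]
    have e4 : ∀ b ∈ B.erase 0, ∑ j, (d j : ℝ) * (if av j b ≤ av j (ϖ j) then (1 : ℝ) else 0) ≤
        ((n * d₀ : ℕ) : ℝ) := by
      intro b hb
      obtain ⟨hb0, hbB⟩ := Finset.mem_erase.1 hb
      have h4 := pfo.2 p K hG v d₀ ϖ₀ hv J av d ϖ hF hne n
        (fun j => if av j b ≤ av j (ϖ j) then 1 else 0) b hb0 ((hBmem b).1 hbB) (by
          intro j
          show av j b ≤ av j (ϖ j) ^ (if av j b ≤ av j (ϖ j) then 1 else 0)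
          split_ifs with h5
          · rwa [pow_one]
          · rw [pow_zero]
            exact hint b hbB j)
      have e5 : ∑ j, (d j : ℝ) * (if av j b ≤ av j (ϖ j) then (1 : ℝ) else 0) =
          ((∑ j, d j * (if av j b ≤ av j (ϖ j) then 1 else 0) : ℕ) : ℝ) := by
        push_cast
        rfl
      rw [e5]
      refine Nat.cast_le.2 (h4.trans (le_of_eq (mul_comm _ _)))
    refine (Finset.sum_le_sum e4).trans ?_
    rw [Finset.sum_const, nsmul_eq_mul]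
    refine mul_le_mul_of_nonneg_right ?_ (Nat.cast_nonneg _)
    exact_mod_cast Finset.card_le_card (Finset.erase_subset _ _)
  -- the sum of the degrees
  have hsd : ∑ j, (d j : ℝ) ≤ 2 * C₁ * (p : ℝ) ^ N := by
    have h3 := upp_fib C₁ hC₁ hF N hN (fun _ => 1) (fun _ => zero_le_one)
    simp only [mul_one] at h3
    refine h3.trans ?_
    rw [← Finset.mul_sum]
    have h4 := upp_geo p hp2 N
    nlinarith [(Nat.cast_nonneg C₁ : (0 : ℝ) ≤ C₁)]
  have hBpos : (0 : ℝ) < B.card := by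
    rw [hBc]
    positivity
  have hBN : a₀ * (p : ℝ) ^ N ≤ B.card := by
    rw [hBc]
    refine mul_le_mul_of_nonneg_left (pow_le_pow_right₀ ?_ (by omega)) ha₀.le
    exact_mod_cast (by omega : 1 ≤ p)
  -- conclusion
  have h5 : (B.card : ℝ) * ∑ j, (d j : ℝ) / (p : ℝ) ^ (d j) ≤
      B.card * (n * d₀ : ℕ) + ∑ j, (d j : ℝ) := by
    have e1 : (B.card : ℝ) * ∑ j, (d j : ℝ) / (p : ℝ) ^ (d j) =
        ∑ j, (d j : ℝ) * (((B.filter fun b => av j b ≤ av j (ϖ j)).card : ℝ) - 1) +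
          ∑ j, (d j : ℝ) := by
      rw [← Finset.sum_add_distrib, Finset.mul_sum]
      refine Finset.sum_congr rfl fun j _ => ?_
      rw [hcnt j]
      ring
    rw [e1]
    linarith
  have h6 : ∑ j, (d j : ℝ) ≤ B.card * (2 * C₁ / a₀) := by
    refine hsd.trans ?_
    have e1 : 2 * C₁ * (p : ℝ) ^ N = (a₀ * (p : ℝ) ^ N) * (2 * C₁ / a₀) := by
      field_simp
    rw [e1]
    exact mul_le_mul_of_nonneg_right hBN (by positivity)
  have h7 : ((n * d₀ : ℕ) : ℝ) ≤ N + g + d₀ := by exact_mod_cast hn2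
  have h8 : (B.card : ℝ) * ∑ j, (d j : ℝ) / (p : ℝ) ^ (d j) ≤
      B.card * (N + (g + d₀ + 2 * C₁ / a₀)) := by
    have h9 := mul_le_mul_of_nonneg_left h7 hBpos.le
    nlinarith
  exact le_of_mul_le_mul_left h8 hBpos

theorem tUpp : S_Na → S_Plc → S_Pfo → S_Rro → S_Dgs → S_Dgu → S_Upp := by
  classical
  intro _ plc pfo rro dgs dgu p _ K _ _ hG
  obtain ⟨v, hvn⟩ := plc p K hG
  obtain ⟨d1, d2, d3, d4⟩ := dgu p K hG
  obtain ⟨d₀, ϖ₀, hv⟩ := d1 v hvn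
  obtain ⟨hd₀, _⟩ := d4 v d₀ ϖ₀ hv
  obtain ⟨hfin, a₀, g, ha₀, h1, h2⟩ := rro p K hG v d₀ ϖ₀ hv
  obtain ⟨C₁, hC₁⟩ := dgs p K hG
  refine ⟨(g + d₀ + 2 * C₁ / a₀) + 1, fun N J _ av d ϖ hF hN => ?_⟩
  have hp : (0 : ℝ) < p := by exact_mod_cast (Fact.out : p.Prime).pos
  have hone : ∀ m : ℕ, (m : ℝ) / (p : ℝ) ^ m ≤ 1 := by
    intro m
    rw [div_le_one (by positivity)]
    exact_mod_cast (Nat.lt_pow_self (Fact.out : p.Prime).one_lt).le
  have e1 : ∑ j, (d j : ℝ) / (p : ℝ) ^ (d j) =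
      ∑ j ∈ Finset.univ with ¬ (av j).IsEquiv v, (d j : ℝ) / (p : ℝ) ^ (d j) +
      ∑ j ∈ Finset.univ with (av j).IsEquiv v, (d j : ℝ) / (p : ℝ) ^ (d j) := by
    rw [add_comm, Finset.sum_filter_add_sum_filter_not]
  have e2 : ∑ j ∈ Finset.univ with ¬ (av j).IsEquiv v, (d j : ℝ) / (p : ℝ) ^ (d j) =
      ∑ j : {j // ¬ (av j).IsEquiv v}, (d j.1 : ℝ) / (p : ℝ) ^ (d j.1) :=
    Finset.sum_subtype _ (fun j => by simp) _
  have h3 := upp_main pfo p K hG v d₀ ϖ₀ hv hd₀ hfin a₀ g ha₀ h1 h2 C₁ hC₁ N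
    {j // ¬ (av j).IsEquiv v} (fun j => av j.1) (fun j => d j.1) (fun j => ϖ j.1)
    (upp_sub hF Subtype.val Subtype.val_injective) (fun j => hN j.1) (fun j => j.2)
  have h4 : ∑ j ∈ Finset.univ with (av j).IsEquiv v, (d j : ℝ) / (p : ℝ) ^ (d j) ≤ 1 := by
    have hc : (Finset.univ.filter fun j => (av j).IsEquiv v).card ≤ 1 := by
      rw [Finset.card_le_one]
      intro a ha b hb
      by_contra hab
      exact hF.pls.inq a b hab ((Finset.mem_filter.1 ha).2.trans (Finset.mem_filter.1 hb).2.symm)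
    refine (Finset.sum_le_sum fun j _ => hone (d j)).trans ?_
    rw [Finset.sum_const, nsmul_eq_mul, mul_one]
    exact_mod_cast hc
  rw [e1, e2]
  linarith

end Pool.Agent.MP72P
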